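import Pool.Agent.R720.PIM.Lie2

/-!
# Consequences of the PBW theorem
-/

set_option autoImplicit false

namespace Pool.Agent.R720.PIM

section Mono

variable {A : Type} [Monoid A]

lemma mono_succ {n : ℕ} (x : Fin (n + 1) → A) (a : Fin (n + 1) → ℕ) :
    mono x a = x 0 ^ a 0 * mono (fun i => x i.succ) (fun i => a i.succ) := by
  rw [mono, mono, List.ofFn_succ, List.prod_cons]

lemma mono_split {n : ℕ} : ∀ (x : Fin n → A) (a : Fin n → ℕ) (j : Fin n),
    (∀ l : Fin n, l < j → a l = 0) →
      mono x a = x j ^ a j * mono x (Function.update a j 0) := by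
  induction n with
  | zero => intro x a j; exact j.elim0
  | succ n ih =>
    intro x a j
    refine Fin.cases ?_ (fun j => ?_) j
    · intro _
      rw [mono_succ x a, mono_succ x (Function.update a 0 0)]
      rw [Function.update_self, pow_zero, one_mul]
      congr 2
    · intro h
      have h0 : a 0 = 0 := h 0 (Fin.succ_pos j)
      have h1 := ih (fun i => x i.succ) (fun i => a i.succ) j (fun l hl => h _ (by simpa using hl))
      rw [mono_succ x a, mono_succ x (Function.update a j.succ 0), h0, pow_zero, one_mul, h1]
      have e0 : Function.update a j.succ 0 0 = 0 := by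
        rw [Function.update_of_ne (Fin.succ_ne_zero j).symm, h0]
      rw [e0, pow_zero, one_mul]
      congr 2
      funext i
      by_cases hij : i = j
      · subst hij
        simp
      · rw [Function.update_of_ne hij, Function.update_of_ne]
        intro he
        exact hij (Fin.succ_injective _ he)

end Mono

section Filt

variable {K : Type} [Field K] {A : Type} [Ring A] [Algebra K A] {x : Fin 10 → A}
  (B : Module.Basis (Fin 10 → Fin 3) K A)

/-- the span of the basis elements that do not involve the first `j` generators -/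
def VV (j : ℕ) : Submodule K A :=
  Submodule.span K {y | ∃ a : Fin 10 → Fin 3, (∀ l : Fin 10, (l : ℕ) < j → a l = 0) ∧ y = B a}

lemma VV_zero : VV B 0 = ⊤ := by
  rw [eq_top_iff, ← B.span_eq]
  refine Submodule.span_mono ?_
  rintro _ ⟨a, rfl⟩
  exact ⟨a, fun l hl => absurd hl (Nat.not_lt_zero _), rfl⟩

lemma VV_succ_le (j : ℕ) : VV B (j + 1) ≤ VV B j := by
  refine Submodule.span_mono ?_
  rintro _ ⟨a, ha, rfl⟩
  exact ⟨a, fun l hl => ha l (by omega), rfl⟩

variable {B} (hB : ∀ a, B a = mono x fun i => (a i : ℕ))
include hB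

lemma B_update (j : Fin 10) (a : Fin 10 → Fin 3) (ha : ∀ l : Fin 10, (l : ℕ) < j → a l = 0) :
    B a = x j ^ (a j : ℕ) * B (Function.update a j 0) := by
  rw [hB, hB, mono_split x (fun i => (a i : ℕ)) j (fun l hl => by rw [ha l hl]; rfl)]
  congr 2
  funext i
  by_cases hij : i = j
  · subst hij
    simp
  · rw [Function.update_of_ne hij, Function.update_of_ne hij]

lemma pow_mul_B (j : Fin 10) (a : Fin 10 → Fin 3) (ha : ∀ l : Fin 10, (l : ℕ) < j + 1 → a l = 0)
    (s : Fin 3) : x j ^ (s : ℕ) * B a = B (Function.update a j s) := by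
  rw [B_update hB j (Function.update a j s)]
  · rw [Function.update_self, Function.update_idem]
    congr 2
    funext i
    by_cases hij : i = j
    · subst hij
      rw [Function.update_self, ha i (Nat.lt_succ_self _)]
    · rw [Function.update_of_ne hij]
  · intro l hl
    rw [Function.update_of_ne]
    · exact ha l (by omega)
    · rintro rfl
      exact absurd hl (lt_irrefl _)

lemma pow_mul_mem (j : Fin 10) {y : A} (hy : y ∈ VV B (j + 1)) (s : Fin 3) :
    x j ^ (s : ℕ) * y ∈ VV B j := by
  induction hy using Submodule.span_induction with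
  | mem y hy =>
    obtain ⟨a, ha, rfl⟩ := hy
    rw [pow_mul_B hB j a ha s]
    refine Submodule.subset_span ⟨_, fun l hl => ?_, rfl⟩
    rw [Function.update_of_ne]
    · exact ha l (by omega)
    · rintro rfl
      exact absurd hl (lt_irrefl _)
  | zero => rw [mul_zero]; exact Submodule.zero_mem _
  | add y z _ _ hy hz => rw [mul_add]; exact Submodule.add_mem _ hy hz
  | smul c y _ hy => rw [mul_smul_comm]; exact Submodule.smul_mem _ _ hy

lemma V_split (j : Fin 10) {y : A} (hy : y ∈ VV B j) :
    ∃ y0 ∈ VV B (j + 1), ∃ y1 ∈ VV B (j + 1), ∃ y2 ∈ VV B (j + 1),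
      y = y0 + x j * y1 + x j ^ 2 * y2 := by
  induction hy using Submodule.span_induction with
  | mem y hy =>
    obtain ⟨a, ha, rfl⟩ := hy
    have h1 := B_update hB j a ha
    have h2 : B (Function.update a j 0) ∈ VV B (j + 1) := by
      refine Submodule.subset_span ⟨_, fun l hl => ?_, rfl⟩
      by_cases hlj : l = j
      · subst hlj
        rw [Function.update_self]
      · rw [Function.update_of_ne hlj]
        refine ha l ?_
        have : (l : ℕ) ≠ j := fun h => hlj (Fin.ext h)
        omega
    have h3 : (a j : ℕ) < 3 := (a j).2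
    interval_cases h4 : (a j : ℕ)
    · exact ⟨_, h2, 0, Submodule.zero_mem _, 0, Submodule.zero_mem _, by rw [h1]; simp⟩
    · exact ⟨0, Submodule.zero_mem _, _, h2, 0, Submodule.zero_mem _, by rw [h1]; simp⟩
    · exact ⟨0, Submodule.zero_mem _, 0, Submodule.zero_mem _, _, h2, by rw [h1]; simp⟩
  | zero => exact ⟨0, Submodule.zero_mem _, 0, Submodule.zero_mem _, 0, Submodule.zero_mem _,
      by simp⟩
  | add y z _ _ hy hz =>
    obtain ⟨y0, h0, y1, h1, y2, h2, rfl⟩ := hy
    obtain ⟨z0, k0, z1, k1, z2, k2, rfl⟩ := hz
    exact ⟨_, Submodule.add_mem _ h0 k0, _, Submodule.add_mem _ h1 k1, _,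
      Submodule.add_mem _ h2 k2, by rw [mul_add, mul_add]; abel⟩
  | smul c y _ hy =>
    obtain ⟨y0, h0, y1, h1, y2, h2, rfl⟩ := hy
    exact ⟨_, Submodule.smul_mem _ c h0, _, Submodule.smul_mem _ c h1, _,
      Submodule.smul_mem _ c h2, by rw [smul_add, smul_add, mul_smul_comm, mul_smul_comm]⟩

lemma coord_pow (j : Fin 10) {y : A} (hy : y ∈ VV B (j + 1)) (s : Fin 3) (a : Fin 10 → Fin 3) :
    B.repr (x j ^ (s : ℕ) * y) a = if a j = s then B.repr y (Function.update a j 0) else 0 := by
  induction hy using Submodule.span_induction with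
  | mem y hy =>
    obtain ⟨b, hb, rfl⟩ := hy
    rw [pow_mul_B hB j b hb s, B.repr_self, B.repr_self, Finsupp.single_apply,
      Finsupp.single_apply]
    have hbj : b j = 0 := hb j (Nat.lt_succ_self _)
    by_cases h1 : a j = s
    · rw [if_pos h1]
      congr 1
      apply propext
      constructor
      · rintro rfl
        funext i
        by_cases hij : i = j
        · subst hij
          rw [Function.update_self, hbj]
        · rw [Function.update_of_ne hij, Function.update_of_ne hij]
      · intro h
        rw [h]
        funext i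
        by_cases hij : i = j
        · subst hij
          rw [Function.update_self, h1]
        · rw [Function.update_of_ne hij, Function.update_of_ne hij]
    · rw [if_neg h1, if_neg]
      rintro rfl
      exact h1 (Function.update_self _ _ _)
  | zero => simp
  | add y z _ _ hy hz =>
    rw [mul_add, map_add, Finsupp.add_apply, hy, hz, map_add, Finsupp.add_apply]
    split_ifs <;> simp
  | smul c y _ hy =>
    rw [mul_smul_comm, map_smul, Finsupp.smul_apply, hy, map_smul, Finsupp.smul_apply]
    split_ifs <;> simp

omit hB in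
lemma coord_zero (j : Fin 10) {y : A} (hy : y ∈ VV B (j + 1)) (a : Fin 10 → Fin 3)
    (ha : a j ≠ 0) : B.repr y a = 0 := by
  induction hy using Submodule.span_induction with
  | mem y hy =>
    obtain ⟨b, hb, rfl⟩ := hy
    rw [B.repr_self, Finsupp.single_apply, if_neg]
    rintro rfl
    exact ha (hb j (Nat.lt_succ_self _))
  | zero => simp
  | add y z _ _ hy hz => rw [map_add, Finsupp.add_apply, hy, hz, add_zero]
  | smul c y _ hy => rw [map_smul, Finsupp.smul_apply, hy, smul_zero]

lemma V_indep (j : Fin 10) {y0 y1 y2 : A} (h0 : y0 ∈ VV B (j + 1)) (h1 : y1 ∈ VV B (j + 1))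
    (h2 : y2 ∈ VV B (j + 1)) (h : y0 + x j * y1 + x j ^ 2 * y2 = 0) :
    y0 = 0 ∧ y1 = 0 ∧ y2 = 0 := by
  have key : ∀ a : Fin 10 → Fin 3,
      (if a j = 0 then B.repr y0 (Function.update a j 0) else 0) +
      (if a j = 1 then B.repr y1 (Function.update a j 0) else 0) +
      (if a j = 2 then B.repr y2 (Function.update a j 0) else 0) = 0 := by
    intro a
    have e0 := coord_pow hB j h0 0 a
    have e1 := coord_pow hB j h1 1 a
    have e2 := coord_pow hB j h2 2 a
    have := congrArg (fun y => B.repr y a) h
    simp only [map_add, Finsupp.add_apply, map_zero, Finsupp.zero_apply] at this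
    rw [← e0, ← e1, ← e2]
    simpa using this
  have fin : ∀ (s : Fin 3) (y : A), y ∈ VV B (j + 1) →
      (∀ a : Fin 10 → Fin 3, a j = s → B.repr y (Function.update a j 0) = 0) → y = 0 := by
    intro s y hy hs
    apply B.repr.injective
    rw [map_zero]
    ext a
    rw [Finsupp.zero_apply]
    by_cases ha : a j = 0
    · have h3 := hs (Function.update a j s) (Function.update_self _ _ _)
      rw [Function.update_idem] at h3
      have e : Function.update a j 0 = a := by
        rw [← ha, Function.update_eq_self]
      rwa [e] at h3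
    · exact coord_zero j hy a ha
  refine ⟨fin 0 y0 h0 ?_, fin 1 y1 h1 ?_, fin 2 y2 h2 ?_⟩
  · intro a ha
    have := key a
    rw [ha] at this
    simpa using this
  · intro a ha
    have := key a
    rw [ha] at this
    simpa using this
  · intro a ha
    have := key a
    rw [ha] at this
    simpa using this

end Filt

end Pool.Agent.R720.PIM
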