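import Pool.Agent.R720.PIM.Alg

/-!
# Exactness statements in the reduced enveloping algebra
-/

set_option autoImplicit false
set_option linter.unusedSectionVars false

namespace Pool.Agent.R720.PIM

section RS

variable (K : Type) [Field K] {A : Type} [Ring A] [Algebra K A]
  (M : Type) [AddCommGroup M] [Module K M] [Module A M] [IsScalarTower K A M]

/-- the subspace `s M` -/
def RS (s : Set A) : Submodule K M :=
  Submodule.span K {y | ∃ a ∈ s, ∃ m : M, y = a • m}

variable {K M}

lemma smul_mem_RS {s : Set A} {a : A} (ha : a ∈ s) (m : M) : a • m ∈ RS K M s :=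
  Submodule.subset_span ⟨a, ha, m, rfl⟩

lemma RS_mono {s t : Set A} (h : s ⊆ t) : RS K M s ≤ RS K M t := by
  refine Submodule.span_mono ?_
  rintro _ ⟨a, ha, m, rfl⟩
  exact ⟨a, h ha, m, rfl⟩

lemma mem_RS_insert {s : Set A} {a : A} {y : M} (hy : y ∈ RS K M (insert a s)) :
    ∃ z : M, ∃ w ∈ RS K M s, y = a • z + w := by
  induction hy using Submodule.span_induction with
  | mem y hy =>
    obtain ⟨b, hb, m, rfl⟩ := hy
    rcases hb with rfl | hb
    · exact ⟨m, 0, Submodule.zero_mem _, by rw [add_zero]⟩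
    · exact ⟨0, b • m, smul_mem_RS hb m, by rw [smul_zero, zero_add]⟩
  | zero => exact ⟨0, 0, Submodule.zero_mem _, by simp⟩
  | add y z _ _ hy hz =>
    obtain ⟨y1, y2, h2, rfl⟩ := hy
    obtain ⟨z1, z2, k2, rfl⟩ := hz
    exact ⟨y1 + z1, y2 + z2, Submodule.add_mem _ h2 k2, by rw [smul_add]; abel⟩
  | smul c y _ hy =>
    obtain ⟨y1, y2, h2, rfl⟩ := hy
    exact ⟨c • y1, c • y2, Submodule.smul_mem _ c h2, by
      rw [smul_add, smul_algebra_smul_comm]⟩

lemma RS_stable {s : Set A} {c : A} (h : ∀ a ∈ s, ∀ m : M, c • (a • m) ∈ RS K M s) {w : M}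
    (hw : w ∈ RS K M s) : c • w ∈ RS K M s := by
  induction hw using Submodule.span_induction with
  | mem y hy =>
    obtain ⟨b, hb, m, rfl⟩ := hy
    exact h b hb m
  | zero => rw [smul_zero]; exact Submodule.zero_mem _
  | add y z _ _ hy hz => rw [smul_add]; exact Submodule.add_mem _ hy hz
  | smul d y _ hy =>
    rw [show c • d • y = d • c • y from smul_algebra_smul_comm d c y]
    exact Submodule.smul_mem _ _ hy

lemma RS_map {N : Type} [AddCommGroup N] [Module K N] [Module A N] [IsScalarTower K A N]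
    (φ : M →ₗ[A] N) {s : Set A} {y : M} (hy : y ∈ RS K M s) : φ y ∈ RS K N s := by
  induction hy using Submodule.span_induction with
  | mem y hy =>
    obtain ⟨b, hb, m, rfl⟩ := hy
    rw [map_smul]
    exact smul_mem_RS hb _
  | zero => rw [map_zero]; exact Submodule.zero_mem _
  | add y z _ _ hy hz => rw [map_add]; exact Submodule.add_mem _ hy hz
  | smul d y _ hy =>
    have : φ (d • y) = d • φ y := by
      rw [← algebraMap_smul A d y, map_smul, algebraMap_smul]
    rw [this]
    exact Submodule.smul_mem _ _ hy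

/-- the implication `c m ∈ s M → c' m ∈ s' M` -/
def PPs (K : Type) [Field K] {A : Type} [Ring A] [Algebra K A]
    (M : Type) [AddCommGroup M] [Module K M] [Module A M] [IsScalarTower K A M]
    (s : Set A) (c c' : A) (s' : Set A) : Prop :=
  ∀ y : M, c • y ∈ RS K M s → c' • y ∈ RS K M s'

/-- implications that hold in the algebra hold in all projective modules -/
theorem PPs.proj {s : Set A} {c c' : A} {s' : Set A} (h : PPs K A s c c' s')
    (hM : Module.Projective A M) : PPs K M s c c' s' := by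
  classical
  intro y hy
  obtain ⟨σ, hσ⟩ := hM.out
  have h1 : σ (c • y) ∈ RS K (M →₀ A) s := RS_map σ hy
  have h2 : ∀ q : M, c' • (σ y q) ∈ RS K A s' := by
    intro q
    apply h
    have h3 := RS_map (K := K) (Finsupp.lapply q : (M →₀ A) →ₗ[A] A) h1
    rw [map_smul] at h3
    exact h3
  have h3 : c' • σ y ∈ RS K (M →₀ A) s' := by
    have e : c' • σ y = ∑ q ∈ (σ y).support, Finsupp.single q (c' • (σ y q)) := by
      conv_lhs => rw [← Finsupp.sum_single (σ y)]
      rw [Finsupp.sum, Finset.smul_sum]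
      refine Finset.sum_congr rfl fun q _ => ?_
      rw [Finsupp.smul_single]
    rw [e]
    refine Submodule.sum_mem _ fun q _ => ?_
    exact RS_map (K := K) (Finsupp.lsingle q : A →ₗ[A] (M →₀ A)) (h2 q)
  have h4 := RS_map (K := K) (Finsupp.linearCombination A (id : M → M)) h3
  rw [map_smul, hσ] at h4
  exact h4

end RS

section Chain

variable {K : Type} [Field K] {A : Type} [Ring A] [Algebra K A] {x : Fin 10 → A}
  {B : Module.Basis (Fin 10 → Fin 3) K A} (hB : ∀ a, B a = mono x fun i => (a i : ℕ))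

/-- the first `j` generators -/
def fst (x : Fin 10 → A) (j : ℕ) : Set A := {a | ∃ l : Fin 10, (l : ℕ) < j ∧ a = x l}

omit [Algebra K A] in
lemma fst_succ (x : Fin 10 → A) (j : Fin 10) : fst x (j + 1) = insert (x j) (fst x j) := by
  ext a
  constructor
  · rintro ⟨l, hl, rfl⟩
    by_cases h : l = j
    · subst h; exact Or.inl rfl
    · right
      refine ⟨l, ?_, rfl⟩
      have : (l : ℕ) ≠ j := fun h' => h (Fin.ext h')
      omega
  · rintro (rfl | ⟨l, hl, rfl⟩)
    · exact ⟨j, Nat.lt_succ_self _, rfl⟩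
    · exact ⟨l, by omega, rfl⟩

/-- `A` is the sum of `V_j` and the right ideal -/
def Dec (x : Fin 10 → A) (B : Module.Basis (Fin 10 → Fin 3) K A) (j : ℕ) : Prop :=
  (∀ y : A, ∃ v ∈ VV B j, ∃ w ∈ RS K A (fst x j), y = v + w) ∧
    ∀ v ∈ VV B j, v ∈ RS K A (fst x j) → v = 0

lemma Dec_zero : Dec x B 0 := by
  have h : RS K A (fst x 0) = ⊥ := by
    rw [eq_bot_iff, RS, Submodule.span_le]
    rintro _ ⟨a, ⟨l, hl, _⟩, _⟩
    exact absurd hl (Nat.not_lt_zero _)
  refine ⟨fun y => ⟨y, by rw [VV_zero]; trivial, 0, Submodule.zero_mem _, by rw [add_zero]⟩,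
    fun v _ hv => ?_⟩
  rw [h] at hv
  exact hv

include hB in
lemma Dec_succ (j : Fin 10) (hd : Dec x B j)
    (hc : ∀ w ∈ RS K A (fst x j), x j * w ∈ RS K A (fst x j)) (h3 : x j ^ 3 = 0) :
    Dec x B (j + 1) ∧ PPs K A (fst x j) (x j) 1 (insert (x j ^ 2) (fst x j)) := by
  obtain ⟨hd1, hd2⟩ := hd
  have hxV : ∀ v ∈ VV B j, ∃ v0 ∈ VV B (j + 1), ∃ v1 ∈ VV B (j + 1), ∃ v2 ∈ VV B (j + 1),
      v = v0 + x j * v1 + x j ^ 2 * v2 ∧ x j * v = x j * v0 + x j ^ 2 * v1 := by
    intro v hv
    obtain ⟨v0, h0, v1, h1, v2, h2, rfl⟩ := V_split hB j hv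
    refine ⟨v0, h0, v1, h1, v2, h2, rfl, ?_⟩
    have e : x j * (x j ^ 2 * v2) = x j ^ 3 * v2 := by
      rw [← mul_assoc, ← pow_succ']
    rw [mul_add, mul_add, e, h3, zero_mul, add_zero, ← mul_assoc, ← pow_two]
  have hxVm : ∀ v ∈ VV B j, x j * v ∈ VV B j := by
    intro v hv
    obtain ⟨v0, h0, v1, h1, v2, h2, _, e⟩ := hxV v hv
    rw [e]
    have e1 := pow_mul_mem hB j h0 1
    have e2 := pow_mul_mem hB j h1 2
    simp only [Fin.val_one, pow_one, Fin.val_two] at e1 e2
    exact Submodule.add_mem _ e1 e2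
  refine ⟨⟨?_, ?_⟩, ?_⟩
  · intro y
    obtain ⟨v, hv, w, hw, rfl⟩ := hd1 y
    obtain ⟨v0, h0, v1, h1, v2, h2, rfl⟩ := V_split hB j hv
    refine ⟨v0, h0, x j * (v1 + x j * v2) + w, ?_, ?_⟩
    · refine Submodule.add_mem _ ?_ (RS_mono ?_ hw)
      · have := smul_mem_RS (K := K) (M := A) (s := fst x (j + 1)) (a := x j)
          ⟨j, Nat.lt_succ_self _, rfl⟩ (v1 + x j * v2)
        exact this
      · rintro _ ⟨l, hl, rfl⟩
        exact ⟨l, by omega, rfl⟩
    · rw [mul_add, ← mul_assoc, ← pow_two]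
      abel
  · intro v hv hvR
    rw [fst_succ] at hvR
    obtain ⟨y, w, hw, hy⟩ := mem_RS_insert hvR
    obtain ⟨v', hv', w', hw', rfl⟩ := hd1 y
    have h5 : v - x j * v' ∈ VV B j := Submodule.sub_mem _ (VV_succ_le B j hv) (hxVm v' hv')
    have h6 : v - x j * v' ∈ RS K A (fst x j) := by
      have e : v - x j * v' = x j * w' + w := by
        rw [hy, smul_eq_mul, mul_add]
        abel
      rw [e]
      exact Submodule.add_mem _ (hc _ hw') hw
    have h7 := hd2 _ h5 h6
    obtain ⟨v0, h0, v1, h1, v2, h2, _, e⟩ := hxV v' hv'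
    have h8 : v + x j * (-v0) + x j ^ 2 * (-v1) = 0 := by
      rw [e] at h7
      rw [← h7, mul_neg, mul_neg]
      abel
    exact (V_indep hB j hv (Submodule.neg_mem _ h0) (Submodule.neg_mem _ h1) h8).1
  · intro y hy
    rw [smul_eq_mul] at hy
    rw [one_smul]
    obtain ⟨v, hv, w, hw, rfl⟩ := hd1 y
    have h5 : x j * v ∈ RS K A (fst x j) := by
      have e : x j * v = x j * (v + w) - x j * w := by
        rw [mul_add]; abel
      rw [e]
      exact Submodule.sub_mem _ hy (hc _ hw)
    have h6 := hd2 _ (hxVm v hv) h5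
    obtain ⟨v0, h0, v1, h1, v2, h2, ev, e⟩ := hxV v hv
    have h7 : (0 : A) + x j * v0 + x j ^ 2 * v1 = 0 := by
      rw [zero_add, ← e, h6]
    obtain ⟨_, h8, h9⟩ := V_indep hB j (Submodule.zero_mem _) h0 h1 h7
    rw [h8, h9] at ev
    have e2 : v = x j ^ 2 • v2 := by
      rw [ev, smul_eq_mul, mul_zero, zero_add, zero_add]
    rw [e2]
    exact Submodule.add_mem _ (smul_mem_RS (Set.mem_insert _ _) _)
      (RS_mono (Set.subset_insert _ _) hw)

end Chain

section Proj

variable {K : Type} [Field K] {A : Type} [Ring A] [Algebra K A]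

/-- the idempotent that projects to the eigenspace of `h` -/
def pr (t : K) (h : A) : A := 1 - (h - algebraMap K A t) ^ 2

lemma pr_eq (t : K) (h y : A) : pr t h * y =
    (1 - t ^ 2) • y + h * ((2 * t) • y) + h ^ 2 * (-y) := by
  have hc : h * algebraMap K A t = algebraMap K A t * h := (Algebra.commutes t h).symm
  have e : pr t h = 1 - algebraMap K A t ^ 2 + 2 * (algebraMap K A t * h) - h ^ 2 := by
    unfold pr
    have : (h - algebraMap K A t) ^ 2 = h ^ 2 - h * algebraMap K A t - algebraMap K A t * h +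
      algebraMap K A t ^ 2 := by noncomm_ring
    rw [this, hc]
    noncomm_ring
  rw [e, Algebra.smul_def, Algebra.smul_def, map_sub, map_pow, map_one, map_mul, map_ofNat]
  have e2 : h * (2 * algebraMap K A t * y) = 2 * (algebraMap K A t * h) * y := by
    rw [← hc]
    noncomm_ring
  rw [e2]
  noncomm_ring

lemma mul_pr (h3 : (3 : K) = 0) {t : K} (ht : t ^ 3 = t) {h : A} (hh : h ^ 3 = h) :
    h * pr t h = algebraMap K A t * pr t h := by
  have h3A : (3 : A) = 0 := by
    have := congrArg (algebraMap K A) h3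
    rwa [map_ofNat, map_zero] at this
  have hc : Commute h (algebraMap K A t) := (Algebra.commutes t h).symm
  have e : (h - algebraMap K A t) ^ 3 = h ^ 3 - algebraMap K A t ^ 3 +
      3 * (h * algebraMap K A t ^ 2 - h ^ 2 * algebraMap K A t) := by
    have hc' : algebraMap K A t * h = h * algebraMap K A t := hc.eq.symm
    have e1 : (h - algebraMap K A t) ^ 3 = h ^ 3 - h * (algebraMap K A t * h) -
        (algebraMap K A t * h) * h - h * h * algebraMap K A t +
        h * algebraMap K A t * algebraMap K A t + (algebraMap K A t * h) * algebraMap K A t +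
        algebraMap K A t * (algebraMap K A t * h) - algebraMap K A t ^ 3 := by noncomm_ring
    rw [e1, hc', ← mul_assoc (algebraMap K A t) h, hc', mul_assoc h (algebraMap K A t) h, hc']
    noncomm_ring
  have e2 : (h - algebraMap K A t) ^ 3 = h - algebraMap K A t := by
    rw [e, h3A, zero_mul, add_zero, hh, ← map_pow, ht]
  have e3 : (h - algebraMap K A t) * pr t h = 0 := by
    unfold pr
    rw [mul_sub, mul_one, ← pow_succ', e2, sub_self]
  rw [sub_mul, sub_eq_zero] at e3
  exact e3

lemma pr_mul_comm (t : K) (h : A) : pr t h * h = h * pr t h := by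
  have hc : h * algebraMap K A t = algebraMap K A t * h := (Algebra.commutes t h).symm
  unfold pr
  have h1 : Commute (h - algebraMap K A t) h :=
    (Commute.refl h).sub_left (Algebra.commutes t h)
  have h2 : Commute (1 - (h - algebraMap K A t) ^ 2) h :=
    (Commute.one_left h).sub_left (h1.pow_left 2)
  exact h2.eq

lemma pr_mul_pow (h3 : (3 : K) = 0) {t : K} (ht : t ^ 3 = t) {h : A} (hh : h ^ 3 = h) (s : ℕ) :
    pr t h * h ^ s = algebraMap K A (t ^ s) * pr t h := by
  induction s with
  | zero => simp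
  | succ s ih =>
    rw [pow_succ, ← mul_assoc, ih, mul_assoc, pr_mul_comm, mul_pr h3 ht hh, ← mul_assoc, ← map_mul,
      ← pow_succ]

lemma pr_mul_e (t α : K) {h e : A} (he : h * e = e * h + α • e) :
    pr t h * e = e * pr (t - α) h := by
  have h1 : (h - algebraMap K A t) * e = e * (h - algebraMap K A (t - α)) := by
    rw [sub_mul, he, mul_sub, map_sub, mul_sub, Algebra.smul_def, Algebra.commutes t e,
      Algebra.commutes α e]
    abel
  unfold pr
  rw [sub_mul, mul_sub, one_mul, mul_one, pow_two, pow_two, mul_assoc, h1, ← mul_assoc, h1,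
    mul_assoc]

lemma e_mul_pr (t α : K) {h e : A} (he : h * e = e * h + α • e) :
    e * pr t h = pr (t + α) h * e := by
  rw [pr_mul_e (t + α) α he, add_sub_cancel_right]

lemma pr_comm {t s : K} {h k : A} (hk : h * k = k * h) :
    pr t h * pr s k = pr s k * pr t h := by
  have h1 : Commute (h - algebraMap K A t) (k - algebraMap K A s) := by
    have hk' : Commute h k := hk
    exact (hk'.sub_left (Algebra.commutes t k)).sub_right
      ((show Commute h (algebraMap K A s) from (Algebra.commutes s h).symm).sub_left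
        (show Commute (algebraMap K A t) (algebraMap K A s) from Algebra.commutes _ _))
  have h2 : Commute (1 - (h - algebraMap K A t) ^ 2) (1 - (k - algebraMap K A s) ^ 2) :=
    ((Commute.one_left _).sub_left ((Commute.one_right _).sub_right (h1.pow_pow 2 2)))
  exact h2.eq

end Proj

end Pool.Agent.R720.PIM
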