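import Pool.Agent.R720.PIM.Alg2

/-!
# The exactness statement for the root vectors
-/

set_option autoImplicit false
set_option linter.unusedSectionVars false

namespace Pool.Agent.R720.PIM

section ELemma

variable {K : Type} [Field K] {A : Type} [Ring A] [Algebra K A] {x : Fin 10 → A}
  {B : Module.Basis (Fin 10 → Fin 3) K A}

/-- the weight idempotent -/
def pi2 (x : Fin 10 → A) (t1 t2 : K) : A := pr t1 (x 4) * pr t2 (x 5)

lemma pr_pow_mul (h3 : (3 : K) = 0) {t : K} (ht : t ^ 3 = t) {h : A} (hh : h ^ 3 = h) (s : ℕ)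
    (y : A) : pr t h * (h ^ s * y) = pr t h * (t ^ s • y) := by
  rw [← mul_assoc, pr_mul_pow h3 ht hh, Algebra.smul_def, ← mul_assoc,
    Algebra.commutes (t ^ s) (pr t h)]

variable (hB : ∀ a, B a = mono x fun i => (a i : ℕ))
include hB

lemma pr_red (h3 : (3 : K) = 0) {t : K} (ht : t ^ 3 = t) (j : Fin 10) (hh : x j ^ 3 = x j)
    {v : A} (hv : v ∈ VV B j) : ∃ u ∈ VV B (j + 1), pr t (x j) * v = pr t (x j) * u := by
  obtain ⟨v0, h0, v1, h1, v2, h2, rfl⟩ := V_split hB j hv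
  refine ⟨v0 + t ^ 1 • v1 + t ^ 2 • v2, ?_, ?_⟩
  · exact Submodule.add_mem _ (Submodule.add_mem _ h0 (Submodule.smul_mem _ _ h1))
      (Submodule.smul_mem _ _ h2)
  · rw [mul_add, mul_add, mul_add, mul_add, ← pr_pow_mul h3 ht hh, ← pr_pow_mul h3 ht hh, pow_one]

lemma pr_mem (t : K) (j : Fin 10) {u : A} (hu : u ∈ VV B (j + 1)) :
    pr t (x j) * u ∈ VV B j := by
  rw [pr_eq]
  have h0 := VV_succ_le B j hu
  have h1 := pow_mul_mem hB j (Submodule.smul_mem _ (2 * t) hu) 1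
  have h2 := pow_mul_mem hB j (Submodule.neg_mem _ hu) 2
  simp only [Fin.val_one, pow_one, Fin.val_two] at h1 h2
  exact Submodule.add_mem _ (Submodule.add_mem _ (Submodule.smul_mem _ _ h0) h1) h2

lemma pr_inj (t : K) (j : Fin 10) {u : A} (hu : u ∈ VV B (j + 1)) (h : pr t (x j) * u = 0) :
    u = 0 := by
  rw [pr_eq] at h
  have := (V_indep hB j (Submodule.smul_mem _ _ hu) (Submodule.smul_mem _ _ hu)
    (Submodule.neg_mem _ hu) h).2.2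
  rwa [neg_eq_zero] at this

lemma pi2_red (h3 : (3 : K) = 0) {t1 t2 : K} (ht1 : t1 ^ 3 = t1) (ht2 : t2 ^ 3 = t2)
    (h4 : x 4 ^ 3 = x 4) (h5 : x 5 ^ 3 = x 5) (hc : x 4 * x 5 = x 5 * x 4)
    {v : A} (hv : v ∈ VV B 4) : ∃ u ∈ VV B 6, pi2 x t1 t2 * v = pi2 x t1 t2 * u := by
  obtain ⟨w, hw, ew⟩ := pr_red hB h3 ht1 4 h4 hv
  obtain ⟨u, hu, eu⟩ := pr_red hB h3 ht2 5 h5 (v := w) hw
  refine ⟨u, hu, ?_⟩
  have hcc : pr t1 (x 4) * pr t2 (x 5) = pr t2 (x 5) * pr t1 (x 4) := pr_comm hc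
  unfold pi2
  rw [hcc, mul_assoc, ew, ← mul_assoc, ← hcc, mul_assoc, eu, ← mul_assoc]

lemma pi2_mem (t1 t2 : K) {u : A} (hu : u ∈ VV B 6) : pi2 x t1 t2 * u ∈ VV B 4 := by
  unfold pi2
  rw [mul_assoc]
  exact pr_mem hB t1 4 (pr_mem hB t2 5 hu)

lemma pi2_inj (t1 t2 : K) {u : A} (hu : u ∈ VV B 6) (h : pi2 x t1 t2 * u = 0) : u = 0 := by
  unfold pi2 at h
  rw [mul_assoc] at h
  exact pr_inj hB t2 5 hu (pr_inj hB t1 4 (pr_mem hB t2 5 hu) h)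

lemma e_mem (he : x 6 ^ 3 = 0) {u : A} (hu : u ∈ VV B 6) : x 6 * u ∈ VV B 6 := by
  obtain ⟨v0, h0, v1, h1, v2, h2, rfl⟩ := V_split hB 6 hu
  have e : x 6 * (x 6 ^ 2 * v2) = x 6 ^ 3 * v2 := by
    rw [← mul_assoc, ← pow_succ']
  rw [mul_add, mul_add, e, he, zero_mul, add_zero, ← mul_assoc, ← pow_two]
  have e1 := pow_mul_mem hB 6 h0 1
  have e2 := pow_mul_mem hB 6 h1 2
  simp only [Fin.val_one, pow_one, Fin.val_two] at e1 e2
  exact Submodule.add_mem _ e1 e2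

lemma e_pow_mem (he : x 6 ^ 3 = 0) (k : ℕ) {u : A} (hu : u ∈ VV B 6) :
    x 6 ^ k * u ∈ VV B 6 := by
  induction k with
  | zero => simpa using hu
  | succ k ih =>
    rw [pow_succ', mul_assoc]
    exact e_mem hB he ih

lemma e_ker (he : x 6 ^ 3 = 0) {k k' : ℕ} (hk : (k = 1 ∧ k' = 2) ∨ (k = 2 ∧ k' = 1)) {u : A}
    (hu : u ∈ VV B 6) (h : x 6 ^ k * u = 0) : ∃ z : A, u = x 6 ^ k' * z := by
  obtain ⟨v0, h0, v1, h1, v2, h2, rfl⟩ := V_split hB 6 hu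
  have e3 : x 6 * (x 6 ^ 2 * v2) = x 6 ^ 3 * v2 := by
    rw [← mul_assoc, ← pow_succ']
  rcases hk with ⟨rfl, rfl⟩ | ⟨rfl, rfl⟩
  · have e : (0 : A) + x 6 * v0 + x 6 ^ 2 * v1 = 0 := by
      refine Eq.trans ?_ h
      rw [pow_one, mul_add, mul_add, e3, he, zero_mul, add_zero, ← mul_assoc (x 6) (x 6) v1,
        ← pow_two, zero_add]
    obtain ⟨_, h5, h6⟩ := V_indep hB 6 (Submodule.zero_mem _) h0 h1 e
    refine ⟨v2, ?_⟩
    rw [h5, h6, mul_zero, zero_add, zero_add]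
  · have e : (0 : A) + x 6 * 0 + x 6 ^ 2 * v0 = 0 := by
      have e4 : x 6 ^ 2 * (x 6 * v1) = x 6 ^ 3 * v1 := by
        rw [← mul_assoc, ← pow_succ]
      have e5 : x 6 ^ 2 * (x 6 ^ 2 * v2) = x 6 * (x 6 ^ 3 * v2) := by
        rw [← mul_assoc, ← mul_assoc, ← pow_add, ← pow_succ']
      refine Eq.trans ?_ h
      rw [mul_add, mul_add, e4, e5, he, zero_mul, zero_mul, mul_zero, add_zero,
        add_zero, zero_add, add_zero]
    obtain ⟨_, _, h6⟩ := V_indep hB 6 (Submodule.zero_mem _) (Submodule.zero_mem _) h0 e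
    refine ⟨v1 + x 6 * v2, ?_⟩
    rw [h6, zero_add, pow_one, mul_add, ← mul_assoc, ← pow_two]

omit hB in
lemma e_pow_pi2 {α1 α2 : K} (hα1 : x 4 * x 6 = x 6 * x 4 + α1 • x 6)
    (hα2 : x 5 * x 6 = x 6 * x 5 + α2 • x 6) (k : ℕ) (t1 t2 : K) :
    x 6 ^ k * pi2 x t1 t2 = pi2 x (t1 + k * α1) (t2 + k * α2) * x 6 ^ k := by
  induction k generalizing t1 t2 with
  | zero => simp
  | succ k ih =>
    have h1 : x 6 * pi2 x t1 t2 = pi2 x (t1 + α1) (t2 + α2) * x 6 := by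
      unfold pi2
      rw [← mul_assoc, e_mul_pr t1 α1 hα1, mul_assoc, e_mul_pr t2 α2 hα2, ← mul_assoc]
    rw [pow_succ, mul_assoc, h1, ← mul_assoc, ih, mul_assoc, ← pow_succ]
    congr 2 <;> push_cast <;> ring

/-- **Exactness.** -/
theorem E_lemma (h3 : (3 : K) = 0) {t1 t2 : K} (ht1 : t1 ^ 3 = t1) (ht2 : t2 ^ 3 = t2)
    (h4 : x 4 ^ 3 = x 4) (h5 : x 5 ^ 3 = x 5) (hc : x 4 * x 5 = x 5 * x 4)
    (he : x 6 ^ 3 = 0) {α1 α2 : K} (hα1 : x 4 * x 6 = x 6 * x 4 + α1 • x 6)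
    (hα2 : x 5 * x 6 = x 6 * x 5 + α2 • x 6)
    {k k' : ℕ} (hk : (k = 1 ∧ k' = 2) ∨ (k = 2 ∧ k' = 1)) (hd : Dec x B 4)
    (hJ : ∀ w ∈ RS K A (fst x 4), pi2 x t1 t2 * w ∈ RS K A (fst x 4))
    (hN : ∀ w ∈ RS K A (fst x 4), x 6 ^ k * pi2 x t1 t2 * w ∈ RS K A (fst x 4)) :
    PPs K A (fst x 4) (x 6 ^ k * pi2 x t1 t2) (pi2 x t1 t2) (insert (x 6 ^ k') (fst x 4)) := by
  intro y hy
  rw [smul_eq_mul] at hy
  rw [smul_eq_mul]
  obtain ⟨v, hv, w, hw, rfl⟩ := hd.1 y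
  obtain ⟨u, hu, eu⟩ := pi2_red hB h3 ht1 ht2 h4 h5 hc hv
  have h6 : x 6 ^ k * pi2 x t1 t2 * u ∈ RS K A (fst x 4) := by
    have e : x 6 ^ k * pi2 x t1 t2 * u =
        x 6 ^ k * pi2 x t1 t2 * (v + w) - x 6 ^ k * pi2 x t1 t2 * w := by
      rw [mul_add, add_sub_cancel_right, mul_assoc, ← eu, mul_assoc]
    rw [e]
    exact Submodule.sub_mem _ hy (hN w hw)
  rw [e_pow_pi2 hα1 hα2, mul_assoc] at h6
  have h7 := hd.2 _ (pi2_mem hB _ _ (e_pow_mem hB he k hu)) h6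
  have h8 := pi2_inj hB _ _ (e_pow_mem hB he k hu) h7
  obtain ⟨z, rfl⟩ := e_ker hB he hk hu h8
  rw [mul_add, eu]
  refine Submodule.add_mem _ ?_ (RS_mono (Set.subset_insert _ _) (hJ w hw))
  have h9 : pi2 x t1 t2 * (x 6 ^ k' * z) =
      x 6 ^ k' • (pi2 x (t1 - k' * α1) (t2 - k' * α2) * z) := by
    rw [smul_eq_mul, ← mul_assoc (x 6 ^ k'), e_pow_pi2 hα1 hα2, sub_add_cancel, sub_add_cancel,
      mul_assoc]
  rw [h9]
  exact smul_mem_RS (Set.mem_insert _ _) _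

end ELemma

end Pool.Agent.R720.PIM
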