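import Mathlib

/-!
# Restricted Lie algebras, reduced enveloping algebras and the dimensions of their projective
indecomposable modules

(The definitions of `jacobson`, `PMap`, `RedRel`, `RedEnv` are those of
`Pool.Agent.Helper700.Red.Defs`.)
-/

set_option autoImplicit false

namespace Pool.Agent.R720.PIM

universe u v

section Defs

variable (p : ℕ) (k : Type u) (L : Type v) [Field k] [LieRing L] [LieAlgebra k L]

/-- The element `s_i(x, y)` of Jacobson's formula: `i • s_i(x, y)` is the coefficient of `t ^ (i - 1)`
in `ad (t x + y) ^ (p - 1) (x)`. -/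
noncomputable def jacobson {L : Type v} [LieRing L] [LieAlgebra k L] (i : ℕ) (x y : L) : L :=
  (i : k)⁻¹ • (((Polynomial.X * Polynomial.C (LieAlgebra.ad k L x) +
    Polynomial.C (LieAlgebra.ad k L y)) ^ (p - 1) : Polynomial (Module.End k L)).coeff (i - 1)) x

/-- A `p`-map on a Lie algebra, in the sense of Jacobson. A Lie algebra over a field of
characteristic `p` together with a `p`-map is a restricted Lie algebra. -/
structure PMap where
  /-- the map `x ↦ x ^ [p]` -/
  toFun : L → L
  ad_toFun : ∀ x : L, LieAlgebra.ad k L (toFun x) = LieAlgebra.ad k L x ^ p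
  toFun_smul : ∀ (a : k) (x : L), toFun (a • x) = a ^ p • toFun x
  toFun_add : ∀ x y : L, toFun (x + y) =
    toFun x + toFun y + ∑ i ∈ Finset.Icc 1 (p - 1), jacobson p k i x y

variable {p k L}

/-- The relations `x ^ p = x ^ [p] + χ(x) ^ p` of the reduced enveloping algebra. -/
inductive RedRel (P : PMap p k L) (χ : Module.Dual k L) :
    UniversalEnvelopingAlgebra k L → UniversalEnvelopingAlgebra k L → Prop
  | rel (x : L) : RedRel P χ ((UniversalEnvelopingAlgebra.ι k x) ^ p)
      (UniversalEnvelopingAlgebra.ι k (P.toFun x) + algebraMap k _ (χ x ^ p))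

/-- The reduced enveloping algebra `u(L, χ)`. -/
abbrev RedEnv (P : PMap p k L) (χ : Module.Dual k L) := RingQuot (RedRel P χ)

end Defs

/-- The module `M` is indecomposable: it is nonzero and not the direct sum of two nonzero
submodules. -/
def Indec (A : Type) [Ring A] (M : Type) [AddCommGroup M] [Module A M] : Prop :=
  Nontrivial M ∧ ∀ N N' : Submodule A M, IsCompl N N' → N = ⊥ ∨ N' = ⊥

/-- The set of the dimensions of the (finite-dimensional) projective indecomposable modules of the
`k`-algebra `A`. -/
def pimDims (k : Type) [Field k] (A : Type) [Ring A] [Algebra k A] : Set ℕ :=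
  {d | ∃ (M : Type) (_ : AddCommGroup M) (_ : Module k M) (_ : Module A M)
    (_ : IsScalarTower k A M), Module.Projective A M ∧ Module.Finite k M ∧ Indec A M ∧
      Module.finrank k M = d}

end Pool.Agent.R720.PIM
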