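import Pool.Agent.R720.PIM.Wt2
import Pool.Agent.R720.PIM.Defs

/-!
# The Casimir element and indecomposable projective modules
-/

set_option autoImplicit false
set_option linter.unusedSectionVars false

namespace Pool.Agent.R720.PIM

open Module

attribute [local irreducible] sc uu ww cu tJ tK om

section Cas

variable {K : Type} [Field K] [CharP K 3] {A : Type} [Ring A] [Algebra K A]
  {M : Type} [AddCommGroup M] [Module K M] [Module A M] [IsScalarTower K A M]
  {x : Fin 10 → A}

lemma Om_central (S : Sys K x) (a : A) : a * Om K x = Om K x * a := by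
  obtain ⟨B, hB⟩ := S.pbw
  have ha : a ∈ Submodule.span K (Set.range B) := B.mem_span a
  induction ha using Submodule.span_induction with
  | mem a ha =>
    obtain ⟨i, rfl⟩ := ha
    rw [hB]
    have : Commute (mono x fun j => (i j : ℕ)) (Om K x) := by
      unfold mono
      refine Commute.list_prod_left _ _ fun y hy => ?_
      rw [List.mem_ofFn] at hy
      obtain ⟨j, rfl⟩ := hy
      exact Commute.pow_left (Om_comm S j) _
    exact this.eq
  | zero => rw [zero_mul, mul_zero]
  | add a b _ _ ha hb => rw [add_mul, mul_add, ha, hb]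
  | smul c a _ ha => rw [smul_mul_assoc, mul_smul_comm, ha]

/-- the shifted Casimir element -/
noncomputable def zc (K : Type) [Field K] [CharP K 3] {A : Type} [Ring A] [Algebra K A]
    (x : Fin 10 → A) (c : ZMod 3) : A := Om K x - algebraMap K A (ph K c)

lemma zc_central (S : Sys K x) (c : ZMod 3) (a : A) : a * zc K x c = zc K x c * a := by
  unfold zc
  rw [mul_sub, sub_mul, Om_central S, Algebra.commutes]

/-- the endomorphism given by a central element -/
def cen (M : Type) [AddCommGroup M] [Module A M] (z : A) (hz : ∀ a : A, a * z = z * a) :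
    M →ₗ[A] M where
  toFun y := z • y
  map_add' := smul_add z
  map_smul' a y := by rw [RingHom.id_apply, ← mul_smul, ← mul_smul, hz]

lemma cen_apply (z : A) (hz : ∀ a : A, a * z = z * a) (y : M) : cen M z hz y = z • y := rfl

lemma cen_pow (z : A) (hz : ∀ a : A, a * z = z * a) (n : ℕ) (y : M) :
    (cen M z hz ^ n) y = z ^ n • y := by
  induction n with
  | zero => simp
  | succ n ih => rw [pow_succ', Module.End.mul_apply, ih, cen_apply, ← mul_smul, ← pow_succ']

/-- the Casimir eigenvalue -/
def cas (τ : ZMod 3 × ZMod 3) : ZMod 3 := τ.2 * (τ.1 + τ.2 + 1)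

lemma stab_zc (S : Sys K x) (c : ZMod 3) : ∀ b ∈ fst x 4, zc K x c * b ∈ RS K A (fst x 4) := by
  intro b hb
  rw [← zc_central S]
  exact mul_mem_RS hb _

lemma zc_pw (S : Sys K x) (c : ZMod 3) (τ : ZMod 3 × ZMod 3) (y : M) :
    ∃ w ∈ RS K M (fst x 4), zc K x c • (pw K x τ • y) =
      ph K (cas τ - c) • (pw K x τ • y) + w := by
  have h := Om_pi (K := K) S (ph_cube τ.1) (ph_cube τ.2)
  refine ⟨_, RS_smul_right h y, ?_⟩
  have e : zc K x c * pw K x τ = ph K (cas τ - c) • pw K x τ +
      (Om K x * pi2 x (ph K τ.1) (ph K τ.2) -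
        (ph K τ.2 * (ph K τ.1 + ph K τ.2 + 1)) • pi2 x (ph K τ.1) (ph K τ.2)) := by
    have e2 : ph K (cas τ - c) = ph K τ.2 * (ph K τ.1 + ph K τ.2 + 1) - ph K c := by
      unfold cas
      simp only [map_mul, map_sub, map_one, map_add]
    rw [e2]
    unfold zc pw
    rw [sub_mul, sub_smul, ← Algebra.smul_def]
    abel
  rw [← mul_smul, e, add_smul, smul_assoc]

lemma zc_pow (S : Sys K x) (c : ZMod 3) (τ : ZMod 3 × ZMod 3) (y : M) (n : ℕ) :
    (RS K M (fst x 4)).mkQ (zc K x c ^ n • (pw K x τ • y)) =
      ph K (cas τ - c) ^ n • (RS K M (fst x 4)).mkQ (pw K x τ • y) := by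
  induction n with
  | zero => simp
  | succ n ih =>
    obtain ⟨w, hw, h⟩ := zc_pw S c τ y
    have hw2 : zc K x c ^ n • w ∈ RS K M (fst x 4) := by
      clear h ih
      induction n with
      | zero => simpa using hw
      | succ n ih =>
        rw [pow_succ', mul_smul]
        exact stab_of (stab_zc S c) _ ih
    rw [pow_succ, mul_smul, h, smul_add, map_add, (mk_eq_zero _).2 hw2, add_zero,
      smul_algebra_smul_comm, map_smul, ih, smul_smul, ← pow_succ']

/-- the shifted Casimir element acts nilpotently -/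
def Nil (K : Type) [Field K] [CharP K 3] {A : Type} [Ring A] [Algebra K A] (x : Fin 10 → A)
    (M : Type) [AddCommGroup M] [Module A M] (c : ZMod 3) : Prop :=
  ∃ N : ℕ, ∀ y : M, zc K x c ^ N • y = 0

variable [Module.Finite K M]

lemma Nil.vanish (S : Sys K x) {c : ZMod 3} (h : Nil K x M c) (τ : ZMod 3 × ZMod 3)
    (hτ : cas τ ≠ c) : aa K M S.rels τ = 0 := by
  obtain ⟨N, hN⟩ := h
  have h0 : ph K (cas τ - c) ^ N ≠ 0 := by
    refine pow_ne_zero _ fun h => hτ ?_
    have := (ph K).injective (h.trans (map_zero (ph K)).symm)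
    exact sub_eq_zero.1 this
  have : LinearMap.range (prQ (K := K) M S.rels τ) = ⊥ := by
    rw [LinearMap.range_eq_bot]
    refine LinearMap.ext fun v => ?_
    obtain ⟨y, rfl⟩ := Submodule.mkQ_surjective _ v
    rw [prQ_mk, LinearMap.zero_apply]
    have h1 := zc_pow S c τ y N
    rw [hN, map_zero] at h1
    exact (smul_eq_zero.1 h1.symm).resolve_left h0
  unfold aa
  rw [this, finrank_bot]

theorem finrank81 (S : Sys K x) (hM : Module.Projective A M) :
    finrank K M = 81 * ∑ τ, aa K M S.rels τ := by
  obtain ⟨B, hB⟩ := S.pbw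
  rw [finrank_chain hM hB (fun j hj => stab_chain S.rels j hj) (hcu4 S.rels), sum_aa S.rels]

theorem nil_zero (S : Sys K x) (hM : Module.Projective A M) (h : Nil K x M 0) :
    5 ∣ finrank K M := by
  have h1 := h.vanish S (0, 1) (by decide)
  have h2 := h.vanish S (1, 2) (by decide)
  have h3 := h.vanish S (2, 1) (by decide)
  have h4 := h.vanish S (2, 2) (by decide)
  have k1 := node1 S hM 0
  have k2 := node1 S hM 2
  have k3 := node2 S hM 0
  have k4 := node2 S hM 1
  rw [zero_add] at k1 k3
  rw [show (2 + 1 : ZMod 3) = 0 by decide] at k2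
  rw [show (1 + 1 : ZMod 3) = 2 by decide] at k4
  rw [finrank81 S hM, sum_pairs, h1, h2, h3, h4]
  omega

theorem nil_two (S : Sys K x) (hM : Module.Projective A M) (h : Nil K x M 2) :
    2 ∣ finrank K M := by
  have h1 := h.vanish S (0, 0) (by decide)
  have h2 := h.vanish S (1, 0) (by decide)
  have h3 := h.vanish S (2, 0) (by decide)
  have h4 := h.vanish S (1, 1) (by decide)
  have h5 := h.vanish S (0, 2) (by decide)
  have h6 := h.vanish S (2, 1) (by decide)
  have h7 := h.vanish S (2, 2) (by decide)
  have k1 := node1 S hM 1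
  rw [show (1 + 1 : ZMod 3) = 2 by decide] at k1
  rw [finrank81 S hM, sum_pairs, h1, h2, h3, h4, h5, h6, h7]
  omega

theorem exists_nil (S : Sys K x) (hM : Module.Projective A M) (hI : Indec A M) :
    ∃ c, Nil K x M c := by
  have hnt := hI.1
  have hpos : 0 < finrank K M := by
    have : Nontrivial M := hI.1
    exact finrank_pos
  have hex : ∃ τ, aa K M S.rels τ ≠ 0 := by
    by_contra hcon
    push Not at hcon
    rw [finrank81 S hM, Finset.sum_eq_zero fun τ _ => hcon τ] at hpos
    exact absurd hpos (lt_irrefl _)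
  obtain ⟨τ, hτ⟩ := hex
  refine ⟨cas τ, ?_⟩
  have hN : IsNoetherian A M := isNoetherian_of_tower K inferInstance
  have hA : IsArtinian A M := isArtinian_of_tower K inferInstance
  set f := cen M (zc K x (cas τ)) (zc_central S (cas τ)) with hf
  have hcompl := f.isCompl_iSup_ker_pow_iInf_range_pow
  rcases hI.2 _ _ hcompl with h | h
  · exfalso
    have hker : ∀ y : M, f y = 0 → y = 0 := by
      intro y hy
      have h1 : y ∈ ⨆ n, LinearMap.ker (f ^ n) := by
        refine Submodule.mem_iSup_of_mem 1 ?_
        rw [LinearMap.mem_ker, pow_one, hy]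
      rw [h] at h1
      exact h1
    have hinj : Function.Injective (lsm K (zc K x (cas τ)) : M →ₗ[K] M) := by
      rw [injective_iff_map_eq_zero]
      exact hker
    have hsurj := LinearMap.injective_iff_surjective.1 hinj
    have hsurj2 : Function.Surjective (opR (K := K) M (stab_zc S (cas τ))) := by
      intro v
      obtain ⟨y, rfl⟩ := Submodule.mkQ_surjective _ v
      obtain ⟨z, rfl⟩ := hsurj y
      exact ⟨(RS K M (fst x 4)).mkQ z, rfl⟩
    have hinj2 := LinearMap.injective_iff_surjective.2 hsurj2
    apply hτ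
    have : LinearMap.range (prQ (K := K) M S.rels τ) = ⊥ := by
      rw [LinearMap.range_eq_bot]
      refine LinearMap.ext fun v => ?_
      obtain ⟨y, rfl⟩ := Submodule.mkQ_surjective _ v
      rw [prQ_mk, LinearMap.zero_apply]
      apply hinj2
      rw [opR_mk, map_zero]
      have h1 := zc_pow S (cas τ) τ y 1
      rw [pow_one, sub_self, map_zero, pow_one, zero_smul] at h1
      exact h1
    unfold aa
    rw [this, finrank_bot]
  · rw [h] at hcompl
    have htop : ⨆ n, LinearMap.ker (f ^ n) = ⊤ := by
      have := hcompl.sup_eq_top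
      rwa [sup_bot_eq] at this
    obtain ⟨N, hN⟩ := (f.eventually_iSup_ker_pow_eq).exists
    refine ⟨N, fun y => ?_⟩
    have h1 : y ∈ LinearMap.ker (f ^ N) := by
      rw [← hN, htop]
      trivial
    rw [LinearMap.mem_ker, hf, cen_pow] at h1
    exact h1

end Cas

end Pool.Agent.R720.PIM
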