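import Pool.Agent.R720.PIM.Sys

/-!
# The generators of the reduced enveloping algebra
-/

set_option autoImplicit false
set_option linter.unusedSectionVars false

namespace Pool.Agent.R720.PIM

attribute [local instance 100] LieRing.ofAssociativeRing
attribute [local irreducible] sc uu ww cu tJ tK om sw

section Gen

variable {K : Type} [Field K] [CharP K 3] {L : Type} [LieRing L] [LieAlgebra K L]
  (P : PMap 3 K L)

lemma gen_lie (χ : Module.Dual K L) (x y : L) :
    gen P χ x * gen P χ y - gen P χ y * gen P χ x = gen P χ ⁅x, y⁆ := by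
  unfold gen
  rw [iota_lie, map_sub, map_mul, map_mul]

lemma gen_sum (χ : Module.Dual K L) (f : Fin 10 → K) (y : Fin 10 → L) :
    gen P χ (∑ k, f k • y k) = ∑ k, f k • gen P χ (y k) := by
  unfold gen
  rw [map_sum, map_sum]
  refine Finset.sum_congr rfl fun k _ => ?_
  rw [map_smul, map_smul]

lemma gen_cube (χ : Module.Dual K L) (x : L) :
    gen P χ x ^ 3 = gen P χ (P.toFun x) + algebraMap K _ (χ x ^ 3) := by
  unfold gen
  rw [← map_pow, RingQuot.mkAlgHom_rel K (RedRel.rel x), map_add, AlgHom.commutes]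

theorem sys_gen {b : Module.Basis (Fin 10) K L} (hb : Str b) :
    Sys K (fun i => gen P 0 (b i)) := by
  refine ⟨?_, ?_, isPBW P 0 b (three_eq K), ?_⟩
  · intro i j
    rw [gen_lie, hb i j, gen_sum]
  · intro i
    change gen P 0 (b i) ^ 3 = _
    rw [gen_cube, pmap_basis P hb i]
    have h0 : ((0 : Module.Dual K L) (b i)) ^ 3 = 0 := by
      rw [LinearMap.zero_apply]
      ring
    rw [h0, map_zero, add_zero]
    unfold gen
    rw [map_smul, map_smul]
  · obtain ⟨B, hB⟩ := isPBW P 0 (b.reindex ⟨sw, sw, sw_sw, sw_sw⟩) (three_eq K)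
    refine ⟨B, fun a => ?_⟩
    rw [hB a]
    congr 1
    funext i
    rw [Module.Basis.reindex_apply]
    rfl

end Gen

section Two

variable (K : Type) [Field K] [CharP K 3] (P : PMap 3 K (LL K))

lemma Om_two : Om K (fun i => gen P 0 (bw K i)) = - Om K (fun i => gen P 0 (bv K i)) := by
  rw [← Om_neg]
  congr 1
  funext i
  rw [bw_apply, vec, gen_sum]

end Two

end Pool.Agent.R720.PIM
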