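import Pool.Agent.R720.PIM.Cas
import Pool.Agent.R720.PIM.Gen

/-!
# No projective indecomposable module has dimension a power of three
-/

set_option autoImplicit false
set_option linter.unusedSectionVars false

namespace Pool.Agent.R720.PIM

open Module

attribute [local irreducible] sc uu ww cu tJ tK om

section Exist

variable {K : Type} [Field K] {A : Type} [Ring A] [Algebra K A]

/-- there is a projective indecomposable module -/
theorem pim_exists [Module.Finite K A] [Nontrivial A] : (pimDims K A).Nonempty := by
  classical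
  let T : Set ℕ := {d | ∃ (M : Type) (_ : AddCommGroup M) (_ : Module K M) (_ : Module A M)
    (_ : IsScalarTower K A M), Module.Projective A M ∧ Module.Finite K M ∧ Nontrivial M ∧
      Module.finrank K M = d}
  have hT : T.Nonempty := ⟨_, A, inferInstance, inferInstance, inferInstance, inferInstance,
    inferInstance, inferInstance, inferInstance, rfl⟩
  have hmin := Nat.sInf_mem hT
  obtain ⟨M, i1, i2, i3, i4, hproj, hfin, hnt, hd⟩ := hmin
  refine ⟨sInf T, M, i1, i2, i3, i4, hproj, hfin, ⟨hnt, ?_⟩, hd⟩
  intro N N' hNN
  by_contra hcon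
  push Not at hcon
  obtain ⟨hN, hN'⟩ := hcon
  have hpN : Module.Projective A N :=
    Module.Projective.of_split N.subtype (Submodule.projectionOnto N N' hNN) (by
      refine LinearMap.ext fun y => ?_
      exact Submodule.projectionOnto_apply_left hNN y)
  let g : N →ₗ[K] M :=
    { toFun := fun y => (y : M)
      map_add' := fun _ _ => rfl
      map_smul' := fun c y => rfl }
  have hg : Function.Injective g := fun a b h => Subtype.ext h
  have hfN : Module.Finite K N := Module.Finite.of_injective g hg
  have hle : finrank K N ≤ finrank K M := LinearMap.finrank_le_finrank_of_injective hg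
  have hntN : Nontrivial N := (Submodule.nontrivial_iff_ne_bot).2 hN
  have hmem : finrank K N ∈ T := ⟨N, inferInstance, inferInstance, inferInstance, inferInstance,
    hpN, hfN, hntN, rfl⟩
  have h1 : finrank K M ≤ finrank K N := by
    rw [hd]
    exact Nat.sInf_le hmem
  have h2 : Function.Surjective g :=
    (LinearMap.injective_iff_surjective_of_finrank_eq_finrank (le_antisymm hle h1)).1 hg
  apply hN'
  rw [eq_bot_iff]
  intro y hy
  obtain ⟨z, hz⟩ := h2 y
  have hyN : y ∈ N := by
    rw [← hz]
    exact z.2
  have : y ∈ N ⊓ N' := ⟨hyN, hy⟩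
  rwa [hNN.inf_eq_bot] at this

end Exist

section Final

variable {K : Type} [Field K] [CharP K 3]

lemma neg_pow_smul_zero {A : Type} [Ring A] {M : Type} [AddCommGroup M] [Module A M] (z : A)
    (N : ℕ) (h : ∀ y : M, z ^ N • y = 0) (y : M) : (-z) ^ N • y = 0 := by
  rw [neg_pow, mul_smul, h, smul_zero]

/-- **No projective indecomposable module has dimension a power of three.** -/
theorem not_pow (P : PMap 3 K (LL K)) (M : Type) [AddCommGroup M] [Module K M]
    [Module (RedEnv P (0 : Module.Dual K (LL K))) M]
    [IsScalarTower K (RedEnv P (0 : Module.Dual K (LL K))) M] [Module.Finite K M]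
    (hM : Module.Projective (RedEnv P (0 : Module.Dual K (LL K))) M)
    (hI : Indec (RedEnv P (0 : Module.Dual K (LL K))) M) : 2 ∣ finrank K M ∨ 5 ∣ finrank K M := by
  have S := sys_gen P (str_bv K)
  have S' := sys_gen P (str_bw K)
  obtain ⟨c, hc⟩ := exists_nil (K := K) S hM hI
  have h3 : ∀ c : ZMod 3, c = 0 ∨ c = 1 ∨ c = 2 := by
    decide
  rcases h3 c with rfl | rfl | rfl
  · exact Or.inr (nil_zero S hM hc)
  · left
    refine nil_two S' hM ?_
    obtain ⟨N, hN⟩ := hc
    refine ⟨N, fun y => ?_⟩
    have e : zc K (fun i => gen P 0 (bw K i)) 2 = - zc K (fun i => gen P 0 (bv K i)) 1 := by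
      unfold zc
      rw [Om_two]
      have : ph K 2 = - ph K 1 := by
        rw [← map_neg]
        congr 1
      rw [this, map_neg]
      abel
    rw [e]
    exact neg_pow_smul_zero _ N hN y
  · exact Or.inl (nil_two S hM hc)

lemma pow3_contra {n e : ℕ} (h : 2 ∣ n ∨ 5 ∣ n) (hn : n = 3 ^ e) : False := by
  rcases h with h | h
  · rw [hn] at h
    have := Nat.prime_two.dvd_of_dvd_pow h
    omega
  · rw [hn] at h
    have := Nat.prime_five.dvd_of_dvd_pow h
    omega

end Final

end Pool.Agent.R720.PIM
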