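import Mathlib

/-!
# The ten-dimensional Lie algebra
-/

set_option autoImplicit false

namespace Pool.Agent.R720.PIM

attribute [local instance 100] LieRing.ofAssociativeRing

/-- brackets `[i, j]` for `i < j`, as lists of pairs (basis element, coefficient).
The basis is `f₄, f₃, f₁, f₂, h₁, h₂, e₁, e₂, e₃, e₄`. -/
def up : ℕ → ℕ → List (ℕ × ZMod 3)
  | 0, 5 => [(0, -1)]
  | 0, 7 => [(1, 1)]
  | 0, 8 => [(3, 1)]
  | 0, 9 => [(4, 1), (5, -1)]
  | 1, 3 => [(0, -1)]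
  | 1, 4 => [(1, 1)]
  | 1, 5 => [(1, -1)]
  | 1, 6 => [(3, 1)]
  | 1, 7 => [(2, -1)]
  | 1, 8 => [(4, 1), (5, 1)]
  | 1, 9 => [(7, -1)]
  | 2, 3 => [(1, -1)]
  | 2, 4 => [(2, -1)]
  | 2, 5 => [(2, -1)]
  | 2, 6 => [(4, -1)]
  | 2, 8 => [(7, -1)]
  | 3, 4 => [(3, -1)]
  | 3, 7 => [(5, -1)]
  | 3, 8 => [(6, 1)]
  | 3, 9 => [(8, -1)]
  | 4, 6 => [(6, -1)]
  | 4, 7 => [(7, -1)]
  | 4, 8 => [(8, 1)]
  | 5, 6 => [(6, -1)]
  | 5, 8 => [(8, -1)]
  | 5, 9 => [(9, -1)]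
  | 6, 7 => [(8, -1)]
  | 7, 8 => [(9, 1)]
  | _, _ => []

/-- coefficient in a list -/
def cof (k : ℕ) : List (ℕ × ZMod 3) → ZMod 3
  | [] => 0
  | (j, c) :: l => if j = k then c + cof k l else cof k l

/-- the structure constants -/
def sc (i j k : Fin 10) : ZMod 3 := cof k (up i j) - cof k (up j i)

lemma sc_swap : ∀ i j k, sc i j k = - sc j i k := by
  intro i j k
  unfold sc
  ring

/-- sums over `Fin 10` written out -/
def s10 (f : Fin 10 → ZMod 3) : ZMod 3 :=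
  f 0 + (f 1 + (f 2 + (f 3 + (f 4 + (f 5 + (f 6 + (f 7 + (f 8 + f 9))))))))

lemma s10_eq (f : Fin 10 → ZMod 3) : s10 f = ∑ i, f i := by
  simp only [Fin.sum_univ_succ, Fin.sum_univ_zero, s10, add_zero]
  rfl

set_option maxRecDepth 100000 in
lemma jac_aux : ∀ i j l k : Fin 10,
    s10 (fun m => sc j l m * sc i m k) =
      s10 (fun m => sc i j m * sc m l k) + s10 (fun m => sc i l m * sc j m k) := by
  decide +kernel

end Pool.Agent.R720.PIM
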