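import Pool.Agent.R720.PIM.Red
import Pool.Agent.R720.PIM.Table

/-!
# The ten-dimensional Lie algebra
-/

set_option autoImplicit false

namespace Pool.Agent.R720.PIM

attribute [local instance 100] LieRing.ofAssociativeRing
attribute [local irreducible] sc

variable (K : Type) [Field K] [CharP K 3]

/-- the embedding of the prime field -/
noncomputable def ph : ZMod 3 →+* K := ZMod.castHom (dvd_refl 3) K

/-- the underlying space of the Lie algebra -/
def LL (K : Type) : Type := Fin 10 → K

instance : AddCommGroup (LL K) := inferInstanceAs (AddCommGroup (Fin 10 → K))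
instance : Module K (LL K) := inferInstanceAs (Module K (Fin 10 → K))

/-- the standard basis -/
noncomputable def bv : Module.Basis (Fin 10) K (LL K) := Pi.basisFun K (Fin 10)

/-- the vector with coordinates in the prime field -/
noncomputable def vec (w : Fin 10 → ZMod 3) : LL K := ∑ k, ph K (w k) • bv K k

/-- the bracket as a bilinear map -/
noncomputable def brL : LL K →ₗ[K] LL K →ₗ[K] LL K :=
  (bv K).constr K fun i => (bv K).constr K fun j => vec K (sc i j)

lemma brL_basis (i j : Fin 10) : brL K (bv K i) (bv K j) = vec K (sc i j) := by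
  rw [brL, Module.Basis.constr_basis, Module.Basis.constr_basis]

lemma vec_add (u w : Fin 10 → ZMod 3) : vec K u + vec K w = vec K (fun k => u k + w k) := by
  unfold vec
  rw [← Finset.sum_add_distrib]
  refine Finset.sum_congr rfl fun k _ => ?_
  rw [map_add, add_smul]

lemma vec_smul_sum (c : Fin 10 → ZMod 3) (u : Fin 10 → Fin 10 → ZMod 3) :
    ∑ m, ph K (c m) • vec K (u m) = vec K (fun k => ∑ m, c m * u m k) := by
  unfold vec
  simp only [Finset.smul_sum]
  rw [Finset.sum_comm]
  refine Finset.sum_congr rfl fun k _ => ?_
  rw [map_sum, Finset.sum_smul]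
  refine Finset.sum_congr rfl fun m _ => ?_
  rw [map_mul, mul_smul]

lemma brL_basis_vec (i : Fin 10) (w : Fin 10 → ZMod 3) :
    brL K (bv K i) (vec K w) = vec K (fun k => ∑ m, w m * sc i m k) := by
  conv_lhs => rw [vec]
  rw [map_sum]
  simp only [map_smul, brL_basis]
  rw [vec_smul_sum]

lemma brL_vec_basis (i : Fin 10) (w : Fin 10 → ZMod 3) :
    brL K (vec K w) (bv K i) = vec K (fun k => ∑ m, w m * sc m i k) := by
  conv_lhs => rw [vec]
  rw [map_sum, LinearMap.sum_apply]
  simp only [map_smul, LinearMap.smul_apply, brL_basis]
  rw [vec_smul_sum]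

omit [CharP K 3] in
variable {K} in
lemma LLind {p : LL K → Prop} (hb : ∀ i, p (bv K i)) (h0 : p 0)
    (ha : ∀ x y, p x → p y → p (x + y)) (hs : ∀ (c : K) x, p x → p (c • x)) (x : LL K) : p x := by
  have hx : x ∈ Submodule.span K (Set.range (bv K)) := (bv K).mem_span x
  induction hx using Submodule.span_induction with
  | mem x hx =>
    obtain ⟨i, rfl⟩ := hx
    exact hb i
  | zero => exact h0
  | add x y _ _ hx hy => exact ha x y hx hy
  | smul c x _ hx => exact hs c x hx

lemma brL_swap (x y : LL K) : brL K x y = - brL K y x := by
  refine LLind (p := fun x => brL K x y = - brL K y x) ?_ (by simp) ?_ ?_ x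
  · intro i
    refine LLind (p := fun y => brL K (bv K i) y = - brL K y (bv K i)) ?_ (by simp) ?_ ?_ y
    · intro j
      rw [brL_basis, brL_basis]
      unfold vec
      rw [← Finset.sum_neg_distrib]
      refine Finset.sum_congr rfl fun k _ => ?_
      rw [sc_swap i j k, map_neg, neg_smul]
    · intro y y' h h'
      rw [map_add, map_add, LinearMap.add_apply, h, h', neg_add]
    · intro c y h
      rw [map_smul, map_smul, LinearMap.smul_apply, h, smul_neg]
  · intro y y' h h'
    rw [map_add, map_add, LinearMap.add_apply, h, h', neg_add]
  · intro c y h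
    rw [map_smul, map_smul, LinearMap.smul_apply, h, smul_neg]

lemma brL_self (x : LL K) : brL K x x = 0 := by
  have h := brL_swap K x x
  have h2 : (2 : K) • brL K x x = 0 := by
    rw [two_smul]
    nth_rewrite 2 [h]
    rw [add_neg_cancel]
  have h3 : (2 : K) ≠ 0 := by
    intro h4
    have h5 : ((2 : ℕ) : K) = 0 := by exact_mod_cast h4
    rw [CharP.cast_eq_zero_iff K 3] at h5
    omega
  exact (smul_eq_zero.1 h2).resolve_left h3

lemma brL_jac (x y z : LL K) : brL K x (brL K y z) =
    brL K (brL K x y) z + brL K y (brL K x z) := by
  refine LLind (p := fun x => ∀ y z, brL K x (brL K y z) =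
    brL K (brL K x y) z + brL K y (brL K x z)) ?_ (by intro y z; simp) ?_ ?_ x y z
  · intro i y z
    refine LLind (p := fun y => ∀ z, brL K (bv K i) (brL K y z) =
      brL K (brL K (bv K i) y) z + brL K y (brL K (bv K i) z)) ?_ (by intro z; simp) ?_ ?_ y z
    · intro j z
      refine LLind (p := fun z => brL K (bv K i) (brL K (bv K j) z) =
        brL K (brL K (bv K i) (bv K j)) z + brL K (bv K j) (brL K (bv K i) z)) ?_ (by simp)
          ?_ ?_ z
      · intro l
        have e : (fun k => ∑ m, sc j l m * sc i m k) =
            fun k => (∑ m, sc i j m * sc m l k) + ∑ m, sc i l m * sc j m k := by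
          funext k
          have := jac_aux i j l k
          rw [s10_eq, s10_eq, s10_eq] at this
          exact this
        rw [brL_basis K j l, brL_basis K i j, brL_basis K i l, brL_basis_vec K i, brL_vec_basis K l,
          brL_basis_vec K j, vec_add, e]
      · intro z z' h h'
        rw [map_add, map_add, h, h', map_add, map_add, map_add]
        abel
      · intro c z h
        rw [map_smul, map_smul, h, map_smul, map_smul, map_smul, smul_add]
    · intro y y' h h' z
      rw [map_add, LinearMap.add_apply, map_add, h, h', map_add, map_add, LinearMap.add_apply,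
        LinearMap.add_apply]
      abel
    · intro c y h z
      rw [map_smul, LinearMap.smul_apply, map_smul, h, map_smul, map_smul, LinearMap.smul_apply,
        LinearMap.smul_apply, smul_add]
  · intro x x' h h' y z
    rw [map_add, LinearMap.add_apply, h, h', LinearMap.add_apply, LinearMap.add_apply, map_add,
      map_add, LinearMap.add_apply]
    abel
  · intro c x h y z
    rw [map_smul, LinearMap.smul_apply, h, LinearMap.smul_apply, LinearMap.smul_apply, map_smul,
      map_smul, LinearMap.smul_apply, smul_add]

noncomputable instance : LieRing (LL K) where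
  bracket x y := brL K x y
  add_lie x y z := by
    change brL K (x + y) z = _
    rw [map_add, LinearMap.add_apply]
  lie_add x y z := by
    change brL K x (y + z) = _
    rw [map_add]
  lie_self x := brL_self K x
  leibniz_lie x y z := brL_jac K x y z

lemma lie_def (x y : LL K) : ⁅x, y⁆ = brL K x y := rfl

noncomputable instance : LieAlgebra K (LL K) where
  lie_smul c x y := by
    rw [lie_def, lie_def, map_smul]

end Pool.Agent.R720.PIM
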