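import Pool.Agent.R720.PIM.Table

/-!
# More computations with the structure constants
-/

set_option autoImplicit false

namespace Pool.Agent.R720.PIM

/-- indices that detect the coefficients of a central element -/
def tJ : Fin 10 → Fin 10 := ![7, 7, 6, 7, 7, 9, 7, 8, 3, 3]
/-- indices that detect the coefficients of a central element -/
def tK : Fin 10 → Fin 10 := ![1, 2, 4, 5, 7, 9, 8, 9, 6, 8]

set_option maxRecDepth 100000 in
lemma detect : ∀ i m : Fin 10, m ≠ i → sc m (tJ i) (tK i) = 0 := by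
  decide +kernel

set_option maxRecDepth 100000 in
lemma detect' : ∀ i : Fin 10, sc i (tJ i) (tK i) ≠ 0 := by
  decide +kernel

/-- the eigenvalue of the cube -/
def cu : Fin 10 → ZMod 3 := ![0, 0, 0, 0, 1, 1, 0, 0, 0, 0]

set_option maxRecDepth 100000 in
lemma cube_aux : ∀ i j l : Fin 10,
    s10 (fun m => s10 (fun n => sc i j n * sc i n m) * sc i m l) = cu i * sc i j l := by
  decide +kernel

/-- the second basis in terms of the first one -/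
def uu : Fin 10 → Fin 10 → ZMod 3 := ![
  ![0, 0, -1, 0, 0, 0, 0, 0, 0, 0],
  ![0, 1, 0, 0, 0, 0, 0, 0, 0, 0],
  ![1, 0, 0, 0, 0, 0, 0, 0, 0, 0],
  ![0, 0, 0, 0, 0, 0, 0, -1, 0, 0],
  ![0, 0, 0, 0, -1, 1, 0, 0, 0, 0],
  ![0, 0, 0, 0, 0, 1, 0, 0, 0, 0],
  ![0, 0, 0, 0, 0, 0, 0, 0, 0, 1],
  ![0, 0, 0, 1, 0, 0, 0, 0, 0, 0],
  ![0, 0, 0, 0, 0, 0, 0, 0, -1, 0],
  ![0, 0, 0, 0, 0, 0, -1, 0, 0, 0]]

/-- the inverse base change -/
def ww : Fin 10 → Fin 10 → ZMod 3 := ![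
  ![0, 0, 1, 0, 0, 0, 0, 0, 0, 0],
  ![0, 1, 0, 0, 0, 0, 0, 0, 0, 0],
  ![-1, 0, 0, 0, 0, 0, 0, 0, 0, 0],
  ![0, 0, 0, 0, 0, 0, 0, 1, 0, 0],
  ![0, 0, 0, 0, -1, 1, 0, 0, 0, 0],
  ![0, 0, 0, 0, 0, 1, 0, 0, 0, 0],
  ![0, 0, 0, 0, 0, 0, 0, 0, 0, -1],
  ![0, 0, 0, -1, 0, 0, 0, 0, 0, 0],
  ![0, 0, 0, 0, 0, 0, 0, 0, -1, 0],
  ![0, 0, 0, 0, 0, 0, 1, 0, 0, 0]]

set_option maxRecDepth 100000 in
lemma uw : ∀ i k : Fin 10, s10 (fun m => uu i m * ww m k) = if i = k then 1 else 0 := by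
  decide +kernel

set_option maxRecDepth 100000 in
lemma wu : ∀ i k : Fin 10, s10 (fun m => ww i m * uu m k) = if i = k then 1 else 0 := by
  decide +kernel

set_option maxRecDepth 100000 in
lemma str_aux : ∀ i j k : Fin 10,
    s10 (fun m => uu i m * s10 (fun l => uu j l * sc m l k)) =
      s10 (fun m => sc i j m * uu m k) := by
  decide +kernel

end Pool.Agent.R720.PIM
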