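import Pool.Agent.R720.PIM.Lie
import Pool.Agent.R720.PIM.Table2

/-!
# The `3`-map and the second basis
-/

set_option autoImplicit false

namespace Pool.Agent.R720.PIM

attribute [local instance 100] LieRing.ofAssociativeRing
attribute [local irreducible] sc uu ww cu tJ tK

section General

variable {K : Type} [Field K] [CharP K 3] {L : Type} [LieRing L] [LieAlgebra K L]

lemma three_eq (K : Type) [Field K] [CharP K 3] : (3 : K) = 0 := by
  have : ((3 : ℕ) : K) = 0 := CharP.cast_eq_zero K 3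
  exact_mod_cast this

/-- the basis `b` has the structure constants `sc` -/
def Str (b : Module.Basis (Fin 10) K L) : Prop :=
  ∀ i j, ⁅b i, b j⁆ = ∑ k, ph K (sc i j k) • b k

lemma repr_lie (b : Module.Basis (Fin 10) K L) (hb : Str b) (x : L) (j k : Fin 10) :
    b.repr ⁅x, b j⁆ k = ∑ m, b.repr x m * ph K (sc m j k) := by
  have h : ⁅x, b j⁆ = ∑ m, b.repr x m • ⁅b m, b j⁆ := by
    conv_lhs => rw [← b.sum_repr x]
    rw [sum_lie]
    refine Finset.sum_congr rfl fun m _ => ?_
    rw [smul_lie]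
  rw [h, map_sum, Finsupp.finsetSum_apply]
  refine Finset.sum_congr rfl fun m _ => ?_
  rw [map_smul, Finsupp.smul_apply, hb m j, map_sum, Finsupp.finsetSum_apply]
  rw [Finset.sum_eq_single k]
  · rw [map_smul, Finsupp.smul_apply, b.repr_self, Finsupp.single_eq_same]
    simp
  · intro l _ hl
    rw [map_smul, Finsupp.smul_apply, b.repr_self, Finsupp.single_eq_of_ne (Ne.symm hl), smul_zero]
  · intro h
    exact absurd (Finset.mem_univ k) h

lemma ph_inj : Function.Injective (ph K) := (ph K).injective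

lemma center_zero (b : Module.Basis (Fin 10) K L) (hb : Str b) {x : L}
    (hx : ∀ z : L, ⁅x, z⁆ = 0) : x = 0 := by
  apply b.repr.injective
  rw [map_zero]
  ext i
  rw [Finsupp.zero_apply]
  have h := repr_lie b hb x (tJ i) (tK i)
  rw [hx, map_zero, Finsupp.zero_apply, Finset.sum_eq_single i] at h
  · have h2 : ph K (sc i (tJ i) (tK i)) ≠ 0 := by
      intro h3
      exact detect' i (ph_inj (by rw [h3, map_zero]))
    exact (mul_eq_zero.1 h.symm).resolve_right h2
  · intro m _ hm
    rw [detect i m hm, map_zero, mul_zero]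
  · intro h
    exact absurd (Finset.mem_univ i) h

lemma ad_ext (b : Module.Basis (Fin 10) K L) (hb : Str b) {x y : L}
    (h : ∀ z : L, ⁅x, z⁆ = ⁅y, z⁆) : x = y := by
  rw [← sub_eq_zero]
  refine center_zero b hb fun z => ?_
  rw [sub_lie, h, sub_self]

lemma Str.lieS {b : Module.Basis (Fin 10) K L} (hb : Str b) (i : Fin 10)
    (w : Fin 10 → ZMod 3) : ⁅b i, ∑ m, ph K (w m) • b m⁆ =
      ∑ k, ph K (∑ m, w m * sc i m k) • b k := by
  rw [lie_sum]
  simp only [lie_smul, hb i, Finset.smul_sum]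
  rw [Finset.sum_comm]
  refine Finset.sum_congr rfl fun k _ => ?_
  rw [map_sum, Finset.sum_smul]
  refine Finset.sum_congr rfl fun m _ => ?_
  rw [map_mul, mul_smul]

lemma cube_basis {b : Module.Basis (Fin 10) K L} (hb : Str b) (i : Fin 10) (z : L) :
    ⁅b i, ⁅b i, ⁅b i, z⁆⁆⁆ = ⁅ph K (cu i) • b i, z⁆ := by
  have h : ∀ j, ⁅b i, ⁅b i, ⁅b i, b j⁆⁆⁆ = ⁅ph K (cu i) • b i, b j⁆ := by
    intro j
    rw [smul_lie, hb i j, hb.lieS, hb.lieS, Finset.smul_sum]
    refine Finset.sum_congr rfl fun k _ => ?_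
    rw [← mul_smul, ← map_mul]
    congr 2
    have := cube_aux i j k
    simp only [s10_eq] at this
    exact this
  have hz : z ∈ Submodule.span K (Set.range b) := b.mem_span z
  induction hz using Submodule.span_induction with
  | mem z hz =>
    obtain ⟨j, rfl⟩ := hz
    exact h j
  | zero => simp
  | add y z _ _ hy hz => rw [lie_add, lie_add, lie_add, hy, hz, lie_add]
  | smul c z _ hz => rw [lie_smul, lie_smul, lie_smul, hz, lie_smul]

variable (K) in
include K in
lemma three_nsmul (w : L) : (3 : ℕ) • w = 0 := by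
  have h : ((3 : ℕ) : K) • w = (3 : ℕ) • w := Nat.cast_smul_eq_nsmul K 3 w
  rw [← h, CharP.cast_eq_zero K 3, zero_smul]

variable (K) in
include K in
lemma cube_add_lie (x y z : L) : ⁅x + y, ⁅x + y, ⁅x + y, z⁆⁆⁆ =
    ⁅x, ⁅x, ⁅x, z⁆⁆⁆ + ⁅y, ⁅y, ⁅y, z⁆⁆⁆ + ⁅⁅y, ⁅y, x⁆⁆ + ⁅x, ⁅x, y⁆⁆, z⁆ := by
  have h : ⁅x + y, ⁅x + y, ⁅x + y, z⁆⁆⁆ =
    ⁅x, ⁅x, ⁅x, z⁆⁆⁆ + ⁅y, ⁅y, ⁅y, z⁆⁆⁆ + ⁅⁅y, ⁅y, x⁆⁆ + ⁅x, ⁅x, y⁆⁆, z⁆ +
      ((3 : ℕ) • ⁅x, ⁅y, ⁅x, z⁆⁆⁆ + (3 : ℕ) • ⁅y, ⁅x, ⁅y, z⁆⁆⁆) := by
    simp only [add_lie, lie_lie, lie_add, lie_sub, sub_lie]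
    abel
  rw [h, three_nsmul K, three_nsmul K, add_zero, add_zero]

lemma exists_cube (b : Module.Basis (Fin 10) K L) (hb : Str b) (x : L) :
    ∃ y : L, ∀ z : L, ⁅y, z⁆ = ⁅x, ⁅x, ⁅x, z⁆⁆⁆ := by
  have hx : x ∈ Submodule.span K (Set.range b) := b.mem_span x
  induction hx using Submodule.span_induction with
  | mem x hx =>
    obtain ⟨i, rfl⟩ := hx
    exact ⟨ph K (cu i) • b i, fun z => (cube_basis hb i z).symm⟩
  | zero => exact ⟨0, fun z => by simp⟩
  | add x y _ _ hx hy =>
    obtain ⟨x', hx'⟩ := hx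
    obtain ⟨y', hy'⟩ := hy
    refine ⟨x' + y' + (⁅y, ⁅y, x⁆⁆ + ⁅x, ⁅x, y⁆⁆), fun z => ?_⟩
    rw [add_lie, add_lie, hx', hy', cube_add_lie K]
  | smul c x _ hx =>
    obtain ⟨x', hx'⟩ := hx
    refine ⟨c ^ 3 • x', fun z => ?_⟩
    simp only [smul_lie, lie_smul, hx', smul_smul]
    congr 1
    ring

/-- the cube of `x` -/
noncomputable def cubeOf (b : Module.Basis (Fin 10) K L) (hb : Str b) (x : L) : L :=
  Classical.choose (exists_cube b hb x)

lemma cubeOf_lie (b : Module.Basis (Fin 10) K L) (hb : Str b) (x z : L) :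
    ⁅cubeOf b hb x, z⁆ = ⁅x, ⁅x, ⁅x, z⁆⁆⁆ :=
  Classical.choose_spec (exists_cube b hb x) z

/-- the `3`-map -/
noncomputable def pmap (b : Module.Basis (Fin 10) K L) (hb : Str b) : PMap 3 K L where
  toFun x := cubeOf b hb x
  ad_toFun x := by
    refine LinearMap.ext fun z => ?_
    rw [LieAlgebra.ad_apply, cubeOf_lie]
    simp [pow_succ, Module.End.mul_apply]
  toFun_smul c x := by
    refine ad_ext b hb fun z => ?_
    rw [cubeOf_lie, smul_lie _ (cubeOf b hb x), cubeOf_lie]
    simp only [smul_lie, lie_smul, smul_smul]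
    congr 1
    ring
  toFun_add x y := by
    rw [jacobson_three (three_eq K)]
    refine ad_ext b hb fun z => ?_
    rw [cubeOf_lie, cube_add_lie K, add_lie (cubeOf b hb x + cubeOf b hb y),
      add_lie (cubeOf b hb x) (cubeOf b hb y), cubeOf_lie, cubeOf_lie]

lemma pmap_basis (P : PMap 3 K L) {b : Module.Basis (Fin 10) K L} (hb : Str b) (i : Fin 10) :
    P.toFun (b i) = ph K (cu i) • b i := by
  refine ad_ext b hb fun z => ?_
  rw [← cube_basis hb i z]
  have := congrArg (fun f => f z) (P.ad_toFun (b i))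
  simpa [pow_succ, Module.End.mul_apply] using this

end General

section Concrete

variable (K : Type) [Field K] [CharP K 3]

lemma str_bv : Str (bv K) := by
  intro i j
  rw [lie_def, brL_basis]
  rfl

lemma constr_vec (u : Fin 10 → Fin 10 → ZMod 3) (w : Fin 10 → ZMod 3) :
    (bv K).constr K (fun i => vec K (u i)) (vec K w) = vec K (fun k => ∑ m, w m * u m k) := by
  conv_lhs => rw [vec, map_sum]
  simp only [map_smul, Module.Basis.constr_basis]
  rw [vec_smul_sum]

lemma vec_delta (i : Fin 10) : vec K (fun k => if i = k then 1 else 0) = bv K i := by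
  unfold vec
  rw [Finset.sum_eq_single i]
  · simp
  · intro j _ hj
    have : ¬ i = j := Ne.symm hj
    simp [this]
  · intro h
    exact absurd (Finset.mem_univ i) h

/-- the base change -/
noncomputable def sig : LL K ≃ₗ[K] LL K :=
  LinearEquiv.ofLinearMap ((bv K).constr K fun i => vec K (uu i))
    ((bv K).constr K fun i => vec K (ww i))
    (by
      refine (bv K).ext fun i => ?_
      rw [LinearMap.comp_apply, Module.Basis.constr_basis, constr_vec, LinearMap.id_apply,
        ← vec_delta K i]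
      congr 1
      funext k
      have := wu i k
      rw [s10_eq] at this
      exact this)
    (by
      refine (bv K).ext fun i => ?_
      rw [LinearMap.comp_apply, Module.Basis.constr_basis, constr_vec, LinearMap.id_apply,
        ← vec_delta K i]
      congr 1
      funext k
      have := uw i k
      rw [s10_eq] at this
      exact this)

/-- the second basis -/
noncomputable def bw : Module.Basis (Fin 10) K (LL K) := (bv K).map (sig K)

lemma bw_apply (i : Fin 10) : bw K i = vec K (uu i) := by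
  rw [bw, Module.Basis.map_apply]
  change (bv K).constr K (fun i => vec K (uu i)) (bv K i) = _
  rw [Module.Basis.constr_basis]

lemma brL_vec_left (u : Fin 10 → ZMod 3) (y : LL K) :
    brL K (vec K u) y = ∑ m, ph K (u m) • brL K (bv K m) y := by
  rw [vec, map_sum, LinearMap.sum_apply]
  refine Finset.sum_congr rfl fun m _ => ?_
  rw [map_smul, LinearMap.smul_apply]

lemma str_bw : Str (bw K) := by
  intro i j
  have e1 : ∀ m, brL K (bv K m) (vec K (uu j)) = vec K (fun k => ∑ l, uu j l * sc m l k) :=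
    fun m => brL_basis_vec K m (uu j)
  have e2 : ⁅bw K i, bw K j⁆ = vec K (fun k => ∑ m, uu i m * ∑ l, uu j l * sc m l k) := by
    rw [bw_apply K i, bw_apply K j, lie_def, brL_vec_left]
    rw [Finset.sum_congr rfl fun m _ => by rw [e1 m]]
    exact vec_smul_sum K (uu i) (fun m k => ∑ l, uu j l * sc m l k)
  have e3 : ∑ k, ph K (sc i j k) • bw K k = vec K (fun k => ∑ m, sc i j m * uu m k) := by
    rw [Finset.sum_congr rfl fun m _ => by rw [bw_apply K m]]
    exact vec_smul_sum K (sc i j) uu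
  have e4 : (fun k => ∑ m, uu i m * ∑ l, uu j l * sc m l k) =
      fun k => ∑ m, sc i j m * uu m k := by
    funext k
    have := str_aux i j k
    simp only [s10_eq] at this
    exact this
  rw [e2, e3, e4]

end Concrete

end Pool.Agent.R720.PIM
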