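import Mathlib

/-!
# Linear algebra
-/

set_option autoImplicit false
set_option linter.unusedSectionVars false

namespace Pool.Agent.R720.PIM

open Module

variable {K : Type} [Field K] {V : Type} [AddCommGroup V] [Module K V] [Module.Finite K V]

lemma finrank_range_domRestrict (g : V →ₗ[K] V) (W : Submodule K V) :
    finrank K (W.map g) + finrank K (LinearMap.ker g ⊓ W : Submodule K V) = finrank K W := by
  have h := LinearMap.finrank_range_add_finrank_ker (g.domRestrict W)
  have e1 : LinearMap.range (g.domRestrict W) = W.map g := by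
    ext y
    constructor
    · rintro ⟨w, rfl⟩
      exact ⟨w, w.2, rfl⟩
    · rintro ⟨w, hw, rfl⟩
      exact ⟨⟨w, hw⟩, rfl⟩
  have e2 : (LinearMap.ker (g.domRestrict W)).map W.subtype = LinearMap.ker g ⊓ W := by
    ext y
    constructor
    · rintro ⟨w, hw, rfl⟩
      exact ⟨hw, w.2⟩
    · rintro ⟨hy, hw⟩
      exact ⟨⟨y, hw⟩, hy, rfl⟩
  rw [← e2, Submodule.finrank_map_subtype_eq, ← e1]
  exact h

lemma dim3_aux (g : V →ₗ[K] V) (h3 : ∀ v, g (g (g v)) = 0)
    (hex : ∀ v, g v = 0 → ∃ z, v = g (g z)) :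
    finrank K V = 3 * finrank K (V ⧸ LinearMap.range g) := by
  have h1 := LinearMap.finrank_range_add_finrank_ker g
  have h2 := finrank_range_domRestrict g (LinearMap.range g)
  have h4 := Submodule.finrank_quotient_add_finrank (LinearMap.range g)
  have e1 : (LinearMap.range g).map g = LinearMap.ker g := by
    ext y
    constructor
    · rintro ⟨_, ⟨w, rfl⟩, rfl⟩
      exact h3 w
    · intro hy
      obtain ⟨z, rfl⟩ := hex y hy
      exact ⟨g z, ⟨z, rfl⟩, rfl⟩
  have e2 : LinearMap.ker g ⊓ LinearMap.range g = LinearMap.ker g := by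
    refine inf_eq_left.2 fun y hy => ?_
    obtain ⟨z, rfl⟩ := hex y hy
    exact ⟨g z, rfl⟩
  rw [e1, e2] at h2
  omega

/-- dimensions in chains -/
theorem dim3 (R : Submodule K V) (f : V →ₗ[K] V) (hR : ∀ w ∈ R, f w ∈ R)
    (h3 : ∀ v, f (f (f v)) = 0) (hex : ∀ v, f v ∈ R → ∃ z, ∃ w ∈ R, v = f (f z) + w) :
    finrank K (V ⧸ R) = 3 * finrank K (V ⧸ (R ⊔ LinearMap.range f)) := by
  have h := dim3_aux (R.mapQ R f hR) (by
    intro v
    obtain ⟨v, rfl⟩ := R.mkQ_surjective v
    simp only [Submodule.mkQ_apply, Submodule.mapQ_apply, h3, Submodule.Quotient.mk_zero]) (by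
    intro v hv
    obtain ⟨v, rfl⟩ := R.mkQ_surjective v
    simp only [Submodule.mkQ_apply, Submodule.mapQ_apply, Submodule.Quotient.mk_eq_zero] at hv
    obtain ⟨z, w, hw, rfl⟩ := hex v hv
    refine ⟨R.mkQ z, ?_⟩
    simp only [Submodule.mkQ_apply, Submodule.mapQ_apply]
    rw [Submodule.Quotient.mk_add, (Submodule.Quotient.mk_eq_zero R).2 hw, add_zero])
  rw [h]
  congr 1
  have e : LinearMap.range (R.mapQ R f hR) = (R ⊔ LinearMap.range f).map R.mkQ := by
    rw [Submodule.map_sup, Submodule.mkQ_map_self, bot_sup_eq]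
    ext y
    constructor
    · rintro ⟨v, rfl⟩
      obtain ⟨v, rfl⟩ := R.mkQ_surjective v
      exact ⟨f v, ⟨v, rfl⟩, by simp only [Submodule.mkQ_apply, Submodule.mapQ_apply]⟩
    · rintro ⟨_, ⟨v, rfl⟩, rfl⟩
      exact ⟨R.mkQ v, by simp only [Submodule.mkQ_apply, Submodule.mapQ_apply]⟩
  rw [e]
  exact (Submodule.quotientQuotientEquivQuotient R _ le_sup_left).finrank_eq

lemma exact_half (p F G : V →ₗ[K] V) (hp : ∀ v, p (p v) = p v) (hF : ∀ v, F (p v) = F v)
    (hG : ∀ v, p (G v) = G v) (hFG : ∀ v, F (G v) = 0) (h1 : ∀ v, F v = 0 → ∃ z, p v = G z) :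
    finrank K (LinearMap.range p) =
      finrank K (LinearMap.range F) + finrank K (LinearMap.range G) := by
  have h := finrank_range_domRestrict F (LinearMap.range p)
  have e1 : (LinearMap.range p).map F = LinearMap.range F := by
    ext y
    constructor
    · rintro ⟨_, ⟨w, rfl⟩, rfl⟩
      exact ⟨p w, rfl⟩
    · rintro ⟨v, rfl⟩
      exact ⟨p v, ⟨v, rfl⟩, hF v⟩
  have e2 : LinearMap.ker F ⊓ LinearMap.range p = LinearMap.range G := by
    ext y
    constructor
    · rintro ⟨hy, ⟨w, rfl⟩⟩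
      obtain ⟨z, hz⟩ := h1 _ hy
      rw [hp] at hz
      exact ⟨z, hz.symm⟩
    · rintro ⟨z, rfl⟩
      exact ⟨hFG z, ⟨G z, hG z⟩⟩
  rw [e1, e2] at h
  exact h.symm

theorem exact_dim (p p' F G : V →ₗ[K] V) (hp : ∀ v, p (p v) = p v) (hp' : ∀ v, p' (p' v) = p' v)
    (hF : ∀ v, F (p v) = F v) (hF' : ∀ v, p' (F v) = F v)
    (hG : ∀ v, G (p' v) = G v) (hG' : ∀ v, p (G v) = G v)
    (hFG : ∀ v, F (G v) = 0) (hGF : ∀ v, G (F v) = 0)
    (h1 : ∀ v, F v = 0 → ∃ z, p v = G z) (h2 : ∀ v, G v = 0 → ∃ z, p' v = F z) :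
    finrank K (LinearMap.range p) = finrank K (LinearMap.range p') := by
  rw [exact_half p F G hp hF hG' hFG h1, exact_half p' G F hp' hG hF' hGF h2, add_comm]

theorem orth_sum {ι : Type} [Fintype ι] [DecidableEq ι] (p : ι → V →ₗ[K] V)
    (h1 : ∀ v, ∑ i, p i v = v) (h2 : ∀ i j, i ≠ j → ∀ v, p i (p j v) = 0) :
    finrank K V = ∑ i, finrank K (LinearMap.range (p i)) := by
  have hid : ∀ i v, p i (p i v) = p i v := by
    intro i v
    conv_rhs => rw [← h1 v, map_sum]
    rw [Finset.sum_eq_single i]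
    · intro j _ hj
      exact h2 i j hj.symm v
    · intro h
      exact absurd (Finset.mem_univ i) h
  let Φ : V →ₗ[K] (i : ι) → LinearMap.range (p i) := LinearMap.pi fun i => (p i).rangeRestrict
  have hΦ : ∀ v i, ((Φ v i : LinearMap.range (p i)) : V) = p i v := fun v i => rfl
  have hinj : Function.Injective Φ := by
    rw [injective_iff_map_eq_zero]
    intro v hv
    rw [← h1 v]
    refine Finset.sum_eq_zero fun i _ => ?_
    rw [← hΦ v i, hv]
    rfl
  have hsurj : Function.Surjective Φ := by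
    intro w
    refine ⟨∑ i, (w i : V), ?_⟩
    funext i
    apply Subtype.ext
    rw [hΦ, map_sum, Finset.sum_eq_single i]
    · obtain ⟨u, hu⟩ := (w i).2
      rw [← hu, hid]
    · intro j _ hj
      obtain ⟨u, hu⟩ := (w j).2
      rw [← hu]
      exact h2 i j hj.symm u
    · intro h
      exact absurd (Finset.mem_univ i) h
  rw [(LinearEquiv.ofBijective Φ ⟨hinj, hsurj⟩).finrank_eq, Module.finrank_pi_fintype]

end Pool.Agent.R720.PIM
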