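import Pool.Agent.R720.PIM.Stab
import Pool.Agent.R720.PIM.Lin

/-!
# Projective modules
-/

set_option autoImplicit false
set_option linter.unusedSectionVars false

namespace Pool.Agent.R720.PIM

open Module

attribute [local irreducible] sc uu ww cu tJ tK om

section Ops

variable {K : Type} [Field K] {A : Type} [Ring A] [Algebra K A]
  {M : Type} [AddCommGroup M] [Module K M] [Module A M] [IsScalarTower K A M]

/-- the action of an element -/
def lsm (K : Type) [Field K] {A : Type} [Ring A] [Algebra K A]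
    {M : Type} [AddCommGroup M] [Module K M] [Module A M] [IsScalarTower K A M] (a : A) :
    M →ₗ[K] M where
  toFun y := a • y
  map_add' := smul_add a
  map_smul' c y := smul_algebra_smul_comm c a y

lemma lsm_apply (a : A) (y : M) : lsm K a y = a • y := rfl

/-- the action of an element on the coinvariants -/
def opR (M : Type) [AddCommGroup M] [Module K M] [Module A M] [IsScalarTower K A M]
    {s : Set A} {a : A} (h : ∀ b ∈ s, a * b ∈ RS K A s) :
    (M ⧸ RS K M s) →ₗ[K] (M ⧸ RS K M s) :=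
  (RS K M s).mapQ (RS K M s) (lsm K a) (stab_of h)

lemma opR_mk {s : Set A} {a : A} (h : ∀ b ∈ s, a * b ∈ RS K A s) (y : M) :
    opR M h ((RS K M s).mkQ y) = (RS K M s).mkQ (a • y) := rfl

lemma mk_eq_zero {s : Set A} (y : M) : (RS K M s).mkQ y = 0 ↔ y ∈ RS K M s := by
  rw [Submodule.mkQ_apply, Submodule.Quotient.mk_eq_zero]

variable [Module.Finite K M]

theorem node_dim {s : Set A} {e : A} {k k' : ℕ} (hkk : e ^ (k + k') = 0) {π π' : A}
    (hid : π * π = π) (hid' : π' * π' = π') (hc : e ^ k * π = π' * e ^ k)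
    (hc' : e ^ k' * π' = π * e ^ k') (st : ∀ b ∈ s, π * b ∈ RS K A s)
    (st' : ∀ b ∈ s, π' * b ∈ RS K A s)
    (stF : ∀ b ∈ s, e ^ k * π * b ∈ RS K A s) (stG : ∀ b ∈ s, e ^ k' * π' * b ∈ RS K A s)
    (hE : PPs K M s (e ^ k * π) π (insert (e ^ k') s))
    (hE' : PPs K M s (e ^ k' * π') π' (insert (e ^ k) s)) :
    finrank K (LinearMap.range (opR M st)) = finrank K (LinearMap.range (opR M st')) := by
  have hkk' : e ^ (k' + k) = 0 := by rw [add_comm, hkk]
  refine exact_dim (opR M st) (opR M st') (opR M stF) (opR M stG) ?_ ?_ ?_ ?_ ?_ ?_ ?_ ?_ ?_ ?_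
  · intro v
    obtain ⟨y, rfl⟩ := Submodule.mkQ_surjective _ v
    rw [opR_mk, opR_mk, ← mul_smul, hid]
  · intro v
    obtain ⟨y, rfl⟩ := Submodule.mkQ_surjective _ v
    rw [opR_mk, opR_mk, ← mul_smul, hid']
  · intro v
    obtain ⟨y, rfl⟩ := Submodule.mkQ_surjective _ v
    rw [opR_mk, opR_mk, opR_mk, ← mul_smul, mul_assoc, hid]
  · intro v
    obtain ⟨y, rfl⟩ := Submodule.mkQ_surjective _ v
    rw [opR_mk, opR_mk, ← mul_smul, hc, ← mul_assoc, hid']
  · intro v
    obtain ⟨y, rfl⟩ := Submodule.mkQ_surjective _ v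
    rw [opR_mk, opR_mk, opR_mk, ← mul_smul, mul_assoc, hid']
  · intro v
    obtain ⟨y, rfl⟩ := Submodule.mkQ_surjective _ v
    rw [opR_mk, opR_mk, ← mul_smul, hc', ← mul_assoc, hid]
  · intro v
    obtain ⟨y, rfl⟩ := Submodule.mkQ_surjective _ v
    have h0 : e ^ k * π * (e ^ k' * π') = 0 := by
      rw [mul_assoc, ← mul_assoc π, ← hc', mul_assoc, hid', ← mul_assoc, ← pow_add, hkk, zero_mul]
    rw [opR_mk, opR_mk, ← mul_smul, h0, zero_smul, map_zero]
  · intro v
    obtain ⟨y, rfl⟩ := Submodule.mkQ_surjective _ v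
    have h0 : e ^ k' * π' * (e ^ k * π) = 0 := by
      rw [mul_assoc, ← mul_assoc π', ← hc, mul_assoc, hid, ← mul_assoc, ← pow_add, hkk', zero_mul]
    rw [opR_mk, opR_mk, ← mul_smul, h0, zero_smul, map_zero]
  · intro v hv
    obtain ⟨y, rfl⟩ := Submodule.mkQ_surjective _ v
    rw [opR_mk, mk_eq_zero] at hv
    obtain ⟨z, w, hw, h1⟩ := mem_RS_insert (hE y hv)
    refine ⟨(RS K M s).mkQ z, ?_⟩
    rw [opR_mk, opR_mk]
    have h2 : π • y = (e ^ k' * π') • z + π • w := by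
      rw [hc', mul_smul, ← smul_add, ← h1, ← mul_smul, hid]
    rw [h2, map_add, (mk_eq_zero (π • w)).2 (stab_of st w hw), add_zero]
  · intro v hv
    obtain ⟨y, rfl⟩ := Submodule.mkQ_surjective _ v
    rw [opR_mk, mk_eq_zero] at hv
    obtain ⟨z, w, hw, h1⟩ := mem_RS_insert (hE' y hv)
    refine ⟨(RS K M s).mkQ z, ?_⟩
    rw [opR_mk, opR_mk]
    have h2 : π' • y = (e ^ k * π) • z + π' • w := by
      rw [hc, mul_smul, ← smul_add, ← h1, ← mul_smul, hid']
    rw [h2, map_add, (mk_eq_zero (π' • w)).2 (stab_of st' w hw), add_zero]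

end Ops

section Chain

variable {K : Type} [Field K] {A : Type} [Ring A] [Algebra K A]
  {M : Type} [AddCommGroup M] [Module K M] [Module A M] [IsScalarTower K A M]
  {x : Fin 10 → A} {B : Module.Basis (Fin 10 → Fin 3) K A}

lemma dec_all (hB : ∀ a, B a = mono x fun i => (a i : ℕ))
    (hst : ∀ j : Fin 10, (j : ℕ) < 4 → ∀ a ∈ fst x j, x j * a ∈ RS K A (fst x j))
    (hcu : ∀ j : Fin 10, (j : ℕ) < 4 → x j ^ 3 = 0) :
    ∀ j : ℕ, ∀ hj : j < 4, Dec x B j ∧ Dec x B (j + 1) ∧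
      PPs K A (fst x j) (x ⟨j, by omega⟩) 1 (insert (x ⟨j, by omega⟩ ^ 2) (fst x j)) := by
  intro j
  induction j with
  | zero =>
    intro hj
    have h0 : Dec x B ((⟨0, by omega⟩ : Fin 10) : ℕ) := Dec_zero
    exact ⟨h0, Dec_succ hB ⟨0, by omega⟩ h0 (stab_of (hst _ hj)) (hcu _ hj)⟩
  | succ j ih =>
    intro hj
    have h0 : Dec x B ((⟨j + 1, by omega⟩ : Fin 10) : ℕ) := (ih (by omega)).2.1
    exact ⟨h0, Dec_succ hB ⟨j + 1, by omega⟩ h0 (stab_of (hst _ hj)) (hcu _ hj)⟩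

lemma RS_succ (x : Fin 10 → A) (j : Fin 10) : RS K M (fst x (j + 1)) =
    RS K M (fst x j) ⊔ LinearMap.range (lsm K (x j) : M →ₗ[K] M) := by
  rw [fst_succ]
  apply le_antisymm
  · intro y hy
    obtain ⟨z, w, hw, rfl⟩ := mem_RS_insert hy
    exact Submodule.add_mem _ (Submodule.mem_sup_right ⟨z, rfl⟩) (Submodule.mem_sup_left hw)
  · refine sup_le (RS_mono (Set.subset_insert _ _)) ?_
    rintro _ ⟨z, rfl⟩
    exact smul_mem_RS (Set.mem_insert _ _) z

variable [Module.Finite K M]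

lemma finrank_step (hM : Module.Projective A M) (j : Fin 10)
    (hst : ∀ a ∈ fst x j, x j * a ∈ RS K A (fst x j)) (hcu : x j ^ 3 = 0)
    (hP : PPs K A (fst x j) (x j) 1 (insert (x j ^ 2) (fst x j))) :
    finrank K (M ⧸ RS K M (fst x j)) = 3 * finrank K (M ⧸ RS K M (fst x (j + 1))) := by
  rw [RS_succ]
  refine dim3 _ (lsm K (x j)) (stab_of hst) ?_ ?_
  · intro v
    rw [lsm_apply, lsm_apply, lsm_apply, ← mul_smul, ← mul_smul]
    have : x j * x j * x j = x j ^ 3 := by noncomm_ring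
    rw [this, hcu, zero_smul]
  · intro v hv
    have h1 := hP.proj hM v hv
    obtain ⟨z, w, hw, h2⟩ := mem_RS_insert h1
    refine ⟨z, w, hw, ?_⟩
    rw [one_smul] at h2
    rw [h2, lsm_apply, lsm_apply, ← mul_smul, pow_two]

theorem finrank_chain (hM : Module.Projective A M)
    (hB : ∀ a, B a = mono x fun i => (a i : ℕ))
    (hst : ∀ j : Fin 10, (j : ℕ) < 4 → ∀ a ∈ fst x j, x j * a ∈ RS K A (fst x j))
    (hcu : ∀ j : Fin 10, (j : ℕ) < 4 → x j ^ 3 = 0) :
    finrank K M = 81 * finrank K (M ⧸ RS K M (fst x 4)) := by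
  have h := dec_all hB hst hcu
  have h0 : finrank K M = finrank K (M ⧸ RS K M (fst x 0)) := by
    have e : RS K M (fst x 0) = ⊥ := by
      rw [eq_bot_iff, RS, Submodule.span_le]
      rintro _ ⟨a, ⟨l, hl, _⟩, _⟩
      exact absurd hl (Nat.not_lt_zero _)
    rw [e]
    exact (Submodule.quotEquivOfEqBot ⊥ rfl).finrank_eq.symm
  have s0 := finrank_step (K := K) hM (0 : Fin 10) (hst 0 (by decide)) (hcu 0 (by decide))
    (h 0 (by omega)).2.2
  have s1 := finrank_step (K := K) hM (1 : Fin 10) (hst 1 (by decide)) (hcu 1 (by decide))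
    (h 1 (by omega)).2.2
  have s2 := finrank_step (K := K) hM (2 : Fin 10) (hst 2 (by decide)) (hcu 2 (by decide))
    (h 2 (by omega)).2.2
  have s3 := finrank_step (K := K) hM (3 : Fin 10) (hst 3 (by decide)) (hcu 3 (by decide))
    (h 3 (by omega)).2.2
  change finrank K (M ⧸ RS K M (fst x 0)) = 3 * finrank K (M ⧸ RS K M (fst x 1)) at s0
  change finrank K (M ⧸ RS K M (fst x 1)) = 3 * finrank K (M ⧸ RS K M (fst x 2)) at s1
  change finrank K (M ⧸ RS K M (fst x 2)) = 3 * finrank K (M ⧸ RS K M (fst x 3)) at s2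
  change finrank K (M ⧸ RS K M (fst x 3)) = 3 * finrank K (M ⧸ RS K M (fst x 4)) at s3
  rw [h0, s0, s1, s2, s3]
  ring

end Chain

end Pool.Agent.R720.PIM
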