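import Pool.Agent.H67.OL.DOM
import Pool.Agent.H67.OL.PBW2
import Pool.Agent.H67.OL.SORT

/-!
# The Poincaré–Birkhoff–Witt theorem for reduced enveloping algebras (`p = 3`)
-/

set_option autoImplicit false

namespace Pool.Agent.R720.PIM

open H67OL H67OL.DOMaux MvPolynomial

/-- ordered product -/
def mono {R : Type} [Monoid R] {n : ℕ} (g : Fin n → R) (a : Fin n → ℕ) : R :=
  (List.ofFn fun i => g i ^ a i).prod

section Lead

variable {K : Type} [Field K] {n : ℕ} {U : Type} [Ring U] [Algebra K U]
  (Φ : U →ₐ[K] Module.End K (MvPolynomial (Fin n) K))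

/-- `u` acts as multiplication with the monomial `m` up to terms of lower degree -/
def Lead (u : U) (m : Fin n →₀ ℕ) : Prop :=
  ∀ (k : ℕ) (p : MvPolynomial (Fin n) K), p ∈ Lt K (Fin n) k →
    Φ u p - monomial m 1 * p ∈ Lt K (Fin n) (k + m.degree - 1)

lemma mul_mem_Lt (m : Fin n →₀ ℕ) {k : ℕ} {p : MvPolynomial (Fin n) K}
    (hp : p ∈ Lt K (Fin n) k) : monomial m 1 * p ∈ Lt K (Fin n) (k + m.degree) := by
  cases k with
  | zero =>
    rw [mem_Lt_zero] at hp
    subst hp
    rw [mul_zero]
    exact Submodule.zero_mem _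
  | succ k =>
    rw [mem_Lt_succ] at hp
    rw [show k + 1 + m.degree = (k + m.degree) + 1 by ring, mem_Lt_succ]
    refine (totalDegree_mul _ _).trans ?_
    have h : (monomial m (1 : K)).totalDegree = m.degree := by
      rw [totalDegree_monomial _ one_ne_zero]
      rfl
    rw [h]
    omega

variable {Φ}

lemma Lead.one : Lead Φ (1 : U) 0 := by
  intro k p hp
  have : Φ 1 p - monomial (0 : Fin n →₀ ℕ) (1 : K) * p = 0 := by
    rw [map_one, Module.End.one_apply]
    simp
  rw [this]
  exact Submodule.zero_mem _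

lemma Lead.mul {u v : U} {m m' : Fin n →₀ ℕ} (hu : Lead Φ u m) (hv : Lead Φ v m') :
    Lead Φ (u * v) (m + m') := by
  intro k p hp
  cases k with
  | zero =>
    rw [mem_Lt_zero] at hp
    subst hp
    simp
  | succ k =>
    set q := Φ v p - monomial m' 1 * p with hq
    have h1 : q ∈ Lt K (Fin n) (k + m'.degree) := by
      have := hv _ _ hp
      rwa [show k + 1 + m'.degree - 1 = k + m'.degree by omega] at this
    have h2 : monomial m' 1 * p ∈ Lt K (Fin n) (k + 1 + m'.degree) := mul_mem_Lt m' hp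
    have h3 := hu _ _ h1
    have h4 := hu _ _ h2
    have h5 : monomial m 1 * q ∈ Lt K (Fin n) (k + m'.degree + m.degree) := mul_mem_Lt m h1
    have e : Φ (u * v) p - monomial (m + m') 1 * p =
        (Φ u q - monomial m 1 * q) + monomial m 1 * q +
          (Φ u (monomial m' 1 * p) - monomial m 1 * (monomial m' 1 * p)) := by
      have e1 : (monomial (m + m') (1 : K)) = monomial m 1 * monomial m' 1 := by
        rw [monomial_mul, one_mul]
      rw [map_mul, Module.End.mul_apply, e1, hq, map_sub]
      ring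
    have hdeg : (m + m').degree = m.degree + m'.degree := by simp
    rw [e, hdeg]
    refine Submodule.add_mem _ (Submodule.add_mem _ (Lt_mono (by omega) h3)
      (Lt_mono (by omega) h5)) (Lt_mono (by omega) h4)

lemma Lead.pow {u : U} {m : Fin n →₀ ℕ} (hu : Lead Φ u m) (j : ℕ) :
    Lead Φ (u ^ j) (j • m) := by
  induction j with
  | zero => simpa using Lead.one
  | succ j ih =>
    rw [pow_succ, succ_nsmul]
    exact ih.mul hu

lemma Lead.list {J : Type} (l : List J) (u : J → U) (m : J → (Fin n →₀ ℕ))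
    (h : ∀ j, Lead Φ (u j) (m j)) : Lead Φ (l.map u).prod (l.map m).sum := by
  induction l with
  | nil => simpa using Lead.one
  | cons j l ih =>
    rw [List.map_cons, List.map_cons, List.prod_cons, List.sum_cons]
    exact (h j).mul ih

lemma Lead.finset {J : Type} (s : Finset J) (u : J → Subalgebra.center K U)
    (m : J → (Fin n →₀ ℕ)) (h : ∀ j, Lead Φ (u j : U) (m j)) :
    Lead Φ ((∏ j ∈ s, u j : Subalgebra.center K U) : U) (∑ j ∈ s, m j) := by
  classical
  induction s using Finset.induction_on with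
  | empty => simpa using Lead.one
  | insert j s hj ih =>
    rw [Finset.prod_insert hj, Finset.sum_insert hj]
    exact (h j).mul ih

lemma Lead.monoL {g : Fin n → U} (hg : ∀ i, Lead Φ (g i) (Finsupp.single i 1))
    (a : Fin n → ℕ) : Lead Φ (mono g a) (∑ i, Finsupp.single i (a i)) := by
  have h := Lead.list (Φ := Φ) (List.finRange n) (fun i => g i ^ a i)
    (fun i => a i • Finsupp.single i 1) (fun i => (hg i).pow _)
  have e1 : mono g a = ((List.finRange n).map fun i => g i ^ a i).prod := by
    rw [mono, List.ofFn_eq_map]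
  have e2 : ((List.finRange n).map fun i => a i • (Finsupp.single i 1 : Fin n →₀ ℕ)).sum =
      ∑ i, Finsupp.single i (a i) := by
    rw [← List.ofFn_eq_map, List.sum_ofFn]
    refine Finset.sum_congr rfl fun i _ => ?_
    rw [Finsupp.smul_single]
    simp
  rw [e1, ← e2]
  exact h

end Lead

section Main

variable {K : Type} [Field K] {n : ℕ} {U : Type} [Ring U] [Algebra K U]
  (Φ : U →ₐ[K] Module.End K (MvPolynomial (Fin n) K)) (g : Fin n → U)
  (zc : Fin n → Subalgebra.center K U)

/-- the element of `U` attached to an exponent -/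
noncomputable def opU (c : Fin n → ℕ) : U :=
  ((∏ i, zc i ^ (c i / 3) : Subalgebra.center K U) : U) * mono g (fun i => c i % 3)

/-- the comparison map -/
noncomputable def Sm : MvPolynomial (Fin n) K →ₗ[K] MvPolynomial (Fin n) K :=
  (basisMonomials (Fin n) K).constr K fun c => Φ (opU g zc c) 1

lemma Sm_monomial (c : Fin n →₀ ℕ) (x : K) :
    Sm Φ g zc (monomial c x) = x • Φ (opU g zc c) 1 := by
  have e : (monomial c x : MvPolynomial (Fin n) K) = x • basisMonomials (Fin n) K c := by
    rw [coe_basisMonomials, smul_monomial, smul_eq_mul, mul_one]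
  rw [e, map_smul, Sm, Module.Basis.constr_basis]

variable {Φ g zc}

lemma lead_opU (hg : ∀ i, Lead Φ (g i) (Finsupp.single i 1))
    (hz : ∀ i, Lead Φ (zc i : U) (Finsupp.single i 3)) (c : Fin n →₀ ℕ) :
    Lead Φ (opU g zc c) c := by
  have h1 := Lead.finset (Φ := Φ) Finset.univ (fun i => zc i ^ (c i / 3))
    (fun i => (c i / 3) • Finsupp.single i 3) (fun i => by
      have := (hz i).pow (c i / 3)
      simpa using this)
  have h2 := Lead.monoL (Φ := Φ) hg (fun i => c i % 3)
  have h3 := h1.mul h2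
  have e : (∑ i, (c i / 3) • (Finsupp.single i 3 : Fin n →₀ ℕ)) +
      ∑ i, Finsupp.single i (c i % 3) = c := by
    ext j
    simp only [Finsupp.coe_add, Pi.add_apply, Finsupp.coe_finsetSum, Finset.sum_apply,
      Finsupp.coe_smul, Pi.smul_apply, Finsupp.single_apply, smul_eq_mul]
    rw [Finset.sum_eq_single j, Finset.sum_eq_single j]
    · simp only [if_true]
      omega
    · intro i _ hij
      rw [if_neg hij]
    · intro h
      exact absurd (Finset.mem_univ j) h
    · intro i _ hij
      rw [if_neg hij, mul_zero]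
    · intro h
      exact absurd (Finset.mem_univ j) h
  rw [e] at h3
  exact h3

lemma Sm_sub (hg : ∀ i, Lead Φ (g i) (Finsupp.single i 1))
    (hz : ∀ i, Lead Φ (zc i : U) (Finsupp.single i 3)) {k : ℕ} {p : MvPolynomial (Fin n) K}
    (hp : p ∈ Lt K (Fin n) (k + 1)) : Sm Φ g zc p - p ∈ Lt K (Fin n) k := by
  rw [mem_Lt_succ] at hp
  have e : Sm Φ g zc p - p = ∑ c ∈ p.support, coeff c p •
      (Φ (opU g zc c) 1 - monomial c 1) := by
    conv_lhs => rw [as_sum p]
    rw [map_sum, ← Finset.sum_sub_distrib]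
    refine Finset.sum_congr rfl fun c _ => ?_
    rw [Sm_monomial, smul_sub, smul_monomial, smul_eq_mul, mul_one]
  rw [e]
  refine Submodule.sum_mem _ fun c hc => Submodule.smul_mem _ _ ?_
  have h1 := lead_opU hg hz c 1 1 (by rw [mem_Lt_succ]; simp)
  rw [mul_one] at h1
  refine Lt_mono ?_ h1
  have h2 := le_totalDegree hc
  have h3 : c.degree = c.sum fun _ e => e := rfl
  omega

lemma Sm_inj (hg : ∀ i, Lead Φ (g i) (Finsupp.single i 1))
    (hz : ∀ i, Lead Φ (zc i : U) (Finsupp.single i 3)) :
    Function.Injective (Sm Φ g zc) := by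
  rw [injective_iff_map_eq_zero]
  intro p h0
  by_contra hp
  have h1 : p ∈ Lt K (Fin n) (p.totalDegree + 1) := by rw [mem_Lt_succ]
  have h2 := Sm_sub hg hz h1
  rw [h0, zero_sub, Submodule.neg_mem_iff] at h2
  exact not_mem_Lt hp le_rfl h2

lemma Sm_surj_aux (hg : ∀ i, Lead Φ (g i) (Finsupp.single i 1))
    (hz : ∀ i, Lead Φ (zc i : U) (Finsupp.single i 3)) (k : ℕ) :
    ∀ p ∈ Lt K (Fin n) k, ∃ q, Sm Φ g zc q = p := by
  induction k with
  | zero =>
    intro p hp
    rw [mem_Lt_zero] at hp
    exact ⟨0, by rw [map_zero, hp]⟩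
  | succ k ih =>
    intro p hp
    obtain ⟨q, hq⟩ := ih _ (Sm_sub hg hz hp)
    exact ⟨p - q, by rw [map_sub, hq]; abel⟩

lemma Sm_surj (hg : ∀ i, Lead Φ (g i) (Finsupp.single i 1))
    (hz : ∀ i, Lead Φ (zc i : U) (Finsupp.single i 3)) :
    Function.Surjective (Sm Φ g zc) := by
  intro p
  exact Sm_surj_aux hg hz (p.totalDegree + 1) p (by rw [mem_Lt_succ])

/-- every element of `U` is a combination of the `opU` -/
lemma U_span (hg : ∀ i, Lead Φ (g i) (Finsupp.single i 1))
    (hz : ∀ i, Lead Φ (zc i : U) (Finsupp.single i 3))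
    (hinj : ∀ u : U, Φ u 1 = 0 → u = 0) (u : U) :
    ∃ q : MvPolynomial (Fin n) K, u = ∑ c ∈ q.support, coeff c q • opU g zc c := by
  obtain ⟨q, hq⟩ := Sm_surj hg hz (Φ u 1)
  refine ⟨q, ?_⟩
  rw [← sub_eq_zero]
  apply hinj
  rw [map_sub, LinearMap.sub_apply, ← hq, sub_eq_zero]
  conv_lhs => rw [as_sum q]
  rw [map_sum, map_sum, LinearMap.sum_apply]
  refine Finset.sum_congr rfl fun c _ => ?_
  rw [Sm_monomial, map_smul, LinearMap.smul_apply]

lemma map_mono {R R' : Type} [Monoid R] [Monoid R'] (f : R →* R') {g : Fin n → R}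
    (a : Fin n → ℕ) : f (mono g a) = mono (fun i => f (g i)) a := by
  rw [mono, mono, map_list_prod, List.map_ofFn]
  congr 2
  funext i
  simp

/-- spanning in a quotient -/
lemma A_span {A : Type} [Ring A] [Algebra K A] (π : U →ₐ[K] A)
    (hπ : Function.Surjective π) (hπz : ∀ i, π (zc i) = 0)
    (hg : ∀ i, Lead Φ (g i) (Finsupp.single i 1))
    (hz : ∀ i, Lead Φ (zc i : U) (Finsupp.single i 3))
    (hinj : ∀ u : U, Φ u 1 = 0 → u = 0) :
    Submodule.span K (Set.range fun a : Fin n → Fin 3 => mono (fun i => π (g i))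
      (fun i => (a i : ℕ))) = ⊤ := by
  rw [eq_top_iff]
  intro x _
  obtain ⟨u, rfl⟩ := hπ x
  obtain ⟨q, hq⟩ := U_span hg hz hinj u
  rw [hq, map_sum]
  refine Submodule.sum_mem _ fun c _ => ?_
  rw [map_smul]
  refine Submodule.smul_mem _ _ ?_
  by_cases h : ∀ i, c i / 3 = 0
  · have e : π (opU g zc c) = mono (fun i => π (g i)) (fun i => c i % 3) := by
      have e1 : opU g zc c = mono g (fun i => c i % 3) := by
        unfold opU
        have : (∏ i, zc i ^ (c i / 3) : Subalgebra.center K U) = 1 := by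
          refine Finset.prod_eq_one fun i _ => ?_
          rw [h i, pow_zero]
        rw [this]
        simp
      rw [e1]
      exact map_mono (π : U →* A) _
    rw [e]
    refine Submodule.subset_span ⟨fun i => ⟨c i % 3, Nat.mod_lt _ (by norm_num)⟩, rfl⟩
  · push Not at h
    obtain ⟨i, hi⟩ := h
    have e : π (opU g zc c) = 0 := by
      unfold opU
      have h1 : zc i ∣ (∏ i, zc i ^ (c i / 3) : Subalgebra.center K U) :=
        (dvd_pow_self _ hi).trans (Finset.dvd_prod_of_mem _ (Finset.mem_univ i))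
      obtain ⟨r, hr⟩ := h1
      rw [hr]
      rw [MulMemClass.coe_mul, mul_assoc, map_mul, hπz, zero_mul]
    rw [e]
    exact Submodule.zero_mem _

/-- the subspace generated by the images of the central elements -/
noncomputable def Wm (Φ : U →ₐ[K] Module.End K (MvPolynomial (Fin n) K))
    (zc : Fin n → Subalgebra.center K U) : Submodule K (MvPolynomial (Fin n) K) :=
  ⨆ i, LinearMap.range (Φ (zc i : U))

lemma opU_add_single (i : Fin n) (c : Fin n →₀ ℕ) :
    opU g zc (c + Finsupp.single i 3 : Fin n →₀ ℕ) = (zc i : U) * opU g zc c := by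
  classical
  unfold opU
  have h1 : (∏ j, zc j ^ ((c + Finsupp.single i 3 : Fin n →₀ ℕ) j / 3) : Subalgebra.center K U) =
      zc i * ∏ j, zc j ^ (c j / 3) := by
    rw [← Finset.mul_prod_erase _ _ (Finset.mem_univ i),
      ← Finset.mul_prod_erase Finset.univ (fun j => zc j ^ (c j / 3)) (Finset.mem_univ i)]
    rw [← mul_assoc]
    congr 1
    · have : (c + Finsupp.single i 3 : Fin n →₀ ℕ) i / 3 = c i / 3 + 1 := by
        simp
      rw [this, pow_succ']
    · refine Finset.prod_congr rfl fun j hj => ?_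
      have hji : j ≠ i := (Finset.mem_erase.1 hj).1
      have : (c + Finsupp.single i 3 : Fin n →₀ ℕ) j = c j := by
        simp [hji.symm]
      rw [this]
  have h2 : (fun j => (c + Finsupp.single i 3 : Fin n →₀ ℕ) j % 3) = fun j => c j % 3 := by
    funext j
    rw [Finsupp.add_apply, Finsupp.single_apply]
    split_ifs <;> omega
  rw [h1, h2, MulMemClass.coe_mul, mul_assoc]

/-- independence -/
lemma S_indep (hg : ∀ i, Lead Φ (g i) (Finsupp.single i 1))
    (hz : ∀ i, Lead Φ (zc i : U) (Finsupp.single i 3)) (x : (Fin n → Fin 3) → K)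
    (h : ∑ a, x a • Φ (mono g fun i => (a i : ℕ)) 1 ∈ Wm Φ zc) : ∀ a, x a = 0 := by
  classical
  let ex : (Fin n → Fin 3) → (Fin n →₀ ℕ) := fun a => Finsupp.equivFunOnFinite.symm
    (fun i => (a i : ℕ))
  have hexi : Function.Injective ex := by
    intro a a' haa
    have := Finsupp.equivFunOnFinite.symm.injective haa
    funext i
    exact Fin.ext (congrFun this i)
  set r : MvPolynomial (Fin n) K := ∑ a, monomial (ex a) (x a) with hr
  have h1 : Sm Φ g zc r = ∑ a, x a • Φ (mono g fun i => (a i : ℕ)) 1 := by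
    rw [hr, map_sum]
    refine Finset.sum_congr rfl fun a _ => ?_
    rw [Sm_monomial]
    congr 3
    unfold opU
    have e1 : (∏ i, zc i ^ (ex a i / 3) : Subalgebra.center K U) = 1 := by
      refine Finset.prod_eq_one fun i _ => ?_
      have : ex a i / 3 = 0 := by
        have := (a i).2
        change (a i : ℕ) / 3 = 0
        omega
      rw [this, pow_zero]
    rw [e1]
    have e2 : (fun i => ex a i % 3) = fun i => (a i : ℕ) := by
      funext i
      have := (a i).2
      change (a i : ℕ) % 3 = a i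
      omega
    rw [e2]
    simp
  set Q : Submodule K (MvPolynomial (Fin n) K) :=
    Submodule.span K {p | ∃ c : Fin n →₀ ℕ, (∃ i, 3 ≤ c i) ∧ p = monomial c 1} with hQ
  have h2 : Wm Φ zc ≤ Q.map (Sm Φ g zc) := by
    refine iSup_le fun i => ?_
    rintro _ ⟨v, rfl⟩
    obtain ⟨q, rfl⟩ := Sm_surj hg hz v
    have : ∀ q : MvPolynomial (Fin n) K, Φ (zc i : U) (Sm Φ g zc q) ∈ Q.map (Sm Φ g zc) := by
      intro q
      rw [as_sum q, map_sum, map_sum]
      refine Submodule.sum_mem _ fun c _ => ?_
      rw [Sm_monomial, map_smul]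
      refine Submodule.smul_mem _ _ ?_
      have e : Φ (zc i : U) (Φ (opU g zc c) 1) =
          Sm Φ g zc (monomial (c + Finsupp.single i 3) 1) := by
        rw [Sm_monomial, one_smul, opU_add_single, map_mul, Module.End.mul_apply]
      rw [e]
      refine Submodule.mem_map_of_mem (Submodule.subset_span ⟨_, ⟨i, ?_⟩, rfl⟩)
      simp
    exact this q
  have h3 : r ∈ Q := by
    have h4 := h2 h
    rw [← h1] at h4
    obtain ⟨q, hq, hqr⟩ := h4
    rw [← Sm_inj hg hz hqr]
    exact hq
  intro a
  have h5 : ∀ p ∈ Q, coeff (ex a) p = 0 := by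
    intro p hp
    induction hp using Submodule.span_induction with
    | mem p hp =>
      obtain ⟨c, ⟨i, hi⟩, rfl⟩ := hp
      rw [coeff_monomial, if_neg]
      rintro rfl
      have := (a i).2
      change 3 ≤ (a i : ℕ) at hi
      omega
    | zero => simp
    | add p q _ _ hp hq => rw [coeff_add, hp, hq, add_zero]
    | smul c p _ hp => rw [coeff_smul, hp, smul_zero]
  have h6 := h5 r h3
  rw [hr, coeff_sum] at h6
  simp only [coeff_monomial] at h6
  rw [Finset.sum_eq_single a] at h6
  · simpa using h6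
  · intro a' _ haa
    rw [if_neg]
    intro he
    exact haa (hexi he)
  · intro h
    exact absurd (Finset.mem_univ a) h

end Main

end Pool.Agent.R720.PIM
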