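import Pool.Agent.R720.PIM.PBW3
import Pool.Agent.R720.PIM.Defs

/-!
# The Poincaré–Birkhoff–Witt basis of `u(L, χ)` in characteristic three
-/

set_option autoImplicit false

namespace Pool.Agent.R720.PIM

open H67OL H67OL.DOMaux

attribute [local instance 100] LieRing.ofAssociativeRing

section Jac

open Polynomial

/-- (as in `Pool.Agent.Helper700.Red.Jac`) -/
theorem jacobson_three {k : Type} {L : Type} [Field k] [LieRing L] [LieAlgebra k L]
    (h3 : (3 : k) = 0) (x y : L) :
    ∑ i ∈ Finset.Icc 1 (3 - 1), jacobson 3 k i x y = ⁅y, ⁅y, x⁆⁆ + ⁅x, ⁅x, y⁆⁆ := by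
  have hI : Finset.Icc 1 (3 - 1) = {1, 2} := by decide
  rw [hI, Finset.sum_pair (by norm_num)]
  set A := LieAlgebra.ad k L x with hA
  set B := LieAlgebra.ad k L y with hB
  have hpow : ((X * C A + C B) ^ (3 - 1) : Polynomial (Module.End k L)) =
      C (A * A) * X ^ 2 + C (A * B + B * A) * X + C (B * B) := by
    have h1 : (X * C A : Polynomial (Module.End k L)) = C A * X := X_mul
    rw [h1]
    have e : (3 - 1 : ℕ) = 2 := rfl
    rw [e, pow_two, add_mul, mul_add, mul_add]
    have h2 : (C A * X * (C A * X) : Polynomial (Module.End k L)) = C (A * A) * X ^ 2 := by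
      rw [mul_assoc, ← mul_assoc X, X_mul, mul_assoc, ← pow_two, ← mul_assoc, ← C_mul]
    have h3' : (C A * X * C B : Polynomial (Module.End k L)) = C (A * B) * X := by
      rw [mul_assoc, X_mul, ← mul_assoc, ← C_mul]
    have h4 : (C B * (C A * X) : Polynomial (Module.End k L)) = C (B * A) * X := by
      rw [← mul_assoc, ← C_mul]
    rw [h2, h3', h4, ← C_mul, C_add, add_mul]
    abel
  have c0 : (C (A * A) * X ^ 2 + C (A * B + B * A) * X + C (B * B) :
      Polynomial (Module.End k L)).coeff 0 = B * B := by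
    simp
  have c1 : (C (A * A) * X ^ 2 + C (A * B + B * A) * X + C (B * B) :
      Polynomial (Module.End k L)).coeff 1 = A * B + B * A := by
    rw [coeff_add, coeff_add, coeff_C_mul_X_pow, coeff_C_mul_X, coeff_C]
    simp
  unfold jacobson
  rw [← hA, ← hB, hpow]
  norm_num only
  rw [c0, c1]
  have h2i : (2 : k)⁻¹ = -1 := by
    have h2 : (2 : k) = -1 := by linear_combination h3
    rw [h2]; norm_num
  rw [h2i]
  simp only [one_smul, LinearMap.add_apply, Module.End.mul_apply, hA, hB,
    LieAlgebra.ad_apply, lie_self, lie_zero, add_zero, neg_smul]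
  rw [← lie_skew x y, lie_neg]

end Jac

section Red

variable {K : Type} [Field K] {L : Type} [LieRing L] [LieAlgebra K L]
  (P : PMap 3 K L) (χ : Module.Dual K L)

lemma PMap.add3 (h3 : (3 : K) = 0) (x y : L) : P.toFun (x + y) =
    P.toFun x + P.toFun y + (⁅y, ⁅y, x⁆⁆ + ⁅x, ⁅x, y⁆⁆) := by
  rw [P.toFun_add, jacobson_three h3]

/-- the central elements -/
noncomputable def zz (x : L) : UniversalEnvelopingAlgebra K L :=
  UniversalEnvelopingAlgebra.ι K x ^ 3 - UniversalEnvelopingAlgebra.ι K (P.toFun x) -
    algebraMap K _ (χ x ^ 3)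

lemma iota_lie (x y : L) : UniversalEnvelopingAlgebra.ι K ⁅x, y⁆ =
    UniversalEnvelopingAlgebra.ι K x * UniversalEnvelopingAlgebra.ι K y -
      UniversalEnvelopingAlgebra.ι K y * UniversalEnvelopingAlgebra.ι K x := by
  rw [LieHom.map_lie, LieRing.of_associative_ring_bracket]

lemma zz_add (h3 : (3 : K) = 0) (x y : L) : zz P χ (x + y) = zz P χ x + zz P χ y := by
  unfold zz
  rw [P.add3 h3]
  simp only [map_add, iota_lie]
  set X := UniversalEnvelopingAlgebra.ι K x
  set Y := UniversalEnvelopingAlgebra.ι K y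
  have h3U : (3 : UniversalEnvelopingAlgebra K L) = 0 := by
    have := congrArg (algebraMap K (UniversalEnvelopingAlgebra K L)) h3
    rwa [map_ofNat, map_zero] at this
  have e1 : (χ x + χ y) ^ 3 = χ x ^ 3 + χ y ^ 3 := by
    linear_combination (χ x ^ 2 * χ y + χ x * χ y ^ 2) * h3
  have e2 : (X + Y) ^ 3 = X ^ 3 + Y ^ 3 + ((Y * (Y * X - X * Y) - (Y * X - X * Y) * Y) +
      (X * (X * Y - Y * X) - (X * Y - Y * X) * X)) + 3 * (X * Y * X + Y * X * Y) := by
    noncomm_ring
  rw [h3U, zero_mul, add_zero] at e2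
  rw [e1, e2, map_add]
  abel

lemma zz_smul (c : K) (x : L) : zz P χ (c • x) = c ^ 3 • zz P χ x := by
  unfold zz
  rw [P.toFun_smul, map_smul, map_smul, map_smul, smul_pow, smul_eq_mul, mul_pow, smul_sub,
    smul_sub, map_mul, Algebra.smul_def (c ^ 3) (algebraMap K _ (χ x ^ 3))]

lemma zz_comm (h3 : (3 : K) = 0) (x y : L) : zz P χ x * UniversalEnvelopingAlgebra.ι K y =
    UniversalEnvelopingAlgebra.ι K y * zz P χ x := by
  have h3U : (3 : UniversalEnvelopingAlgebra K L) = 0 := by
    have := congrArg (algebraMap K (UniversalEnvelopingAlgebra K L)) h3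
    rwa [map_ofNat, map_zero] at this
  have h1 : ⁅P.toFun x, y⁆ = ⁅x, ⁅x, ⁅x, y⁆⁆⁆ := by
    have := congrArg (fun f => f y) (P.ad_toFun x)
    simpa [pow_succ, Module.End.mul_apply] using this
  have h2 : UniversalEnvelopingAlgebra.ι K (P.toFun x) * UniversalEnvelopingAlgebra.ι K y -
      UniversalEnvelopingAlgebra.ι K y * UniversalEnvelopingAlgebra.ι K (P.toFun x) =
      UniversalEnvelopingAlgebra.ι K ⁅x, ⁅x, ⁅x, y⁆⁆⁆ := by
    rw [← h1, iota_lie]
  simp only [iota_lie] at h2
  unfold zz
  set X := UniversalEnvelopingAlgebra.ι K x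
  set Y := UniversalEnvelopingAlgebra.ι K y
  set W := UniversalEnvelopingAlgebra.ι K (P.toFun x)
  have h4 : algebraMap K (UniversalEnvelopingAlgebra K L) (χ x ^ 3) * Y =
      Y * algebraMap K (UniversalEnvelopingAlgebra K L) (χ x ^ 3) := Algebra.commutes _ _
  rw [sub_mul, sub_mul, mul_sub, mul_sub, h4]
  have h5 : W * Y = Y * W + (X * (X * (X * Y - Y * X) - (X * Y - Y * X) * X) -
      (X * (X * Y - Y * X) - (X * Y - Y * X) * X) * X) := by
    rw [← h2]; abel
  rw [h5]
  have h6 : X ^ 3 * Y - (Y * W + (X * (X * (X * Y - Y * X) - (X * Y - Y * X) * X) -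
      (X * (X * Y - Y * X) - (X * Y - Y * X) * X) * X)) = Y * X ^ 3 - Y * W +
      3 * (X * X * Y * X - X * Y * X * X) := by
    noncomm_ring
  rw [h6, h3U, zero_mul, add_zero]

lemma zz_center {n : ℕ} (b : Module.Basis (Fin n) K L) (h3 : (3 : K) = 0) (x : L) :
    zz P χ x ∈ Subalgebra.center K (UniversalEnvelopingAlgebra K L) := by
  rw [Subalgebra.mem_center_iff]
  intro u
  have hu : u ∈ Algebra.adjoin K (Set.range fun i => UniversalEnvelopingAlgebra.ι K (b i)) := by
    rw [adjoin_top b]
    exact Algebra.mem_top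
  induction hu using Algebra.adjoin_induction with
  | mem u hu =>
    obtain ⟨i, rfl⟩ := hu
    exact (zz_comm P χ h3 x (b i)).symm
  | algebraMap r => exact Algebra.commutes _ _
  | add u v _ _ hu hv => rw [add_mul, mul_add, hu, hv]
  | mul u v _ _ hu hv => rw [mul_assoc, hv, ← mul_assoc, hu, mul_assoc]

/-- the image of an element of `L` in the reduced enveloping algebra -/
noncomputable def gen (x : L) : RedEnv P χ :=
  RingQuot.mkAlgHom K (RedRel P χ) (UniversalEnvelopingAlgebra.ι K x)

/-- **The PBW theorem** for `u(L, χ)` in characteristic three. -/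
theorem isPBW {n : ℕ} (b : Module.Basis (Fin n) K L) (h3 : (3 : K) = 0) :
    ∃ B : Module.Basis (Fin n → Fin 3) K (RedEnv P χ), ∀ a, B a =
      mono (fun i => gen P χ (b i)) (fun i => (a i : ℕ)) := by
  classical
  obtain ⟨ρ, hlie, hρ⟩ := t_PBW2 K L (Fin n) b
  obtain ⟨Φ, hΦ'⟩ : ∃ Φ : UniversalEnvelopingAlgebra K L →ₐ[K]
      Module.End K (MvPolynomial (Fin n) K), ∀ x, Φ (UniversalEnvelopingAlgebra.ι K x) = ρ x := by
    let ρ' : L →ₗ⁅K⁆ Module.End K (MvPolynomial (Fin n) K) :=
      { ρ with
        map_lie' := by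
          intro x y
          rw [LieRing.of_associative_ring_bracket]
          exact hlie x y }
    exact ⟨UniversalEnvelopingAlgebra.lift K ρ', fun x =>
      UniversalEnvelopingAlgebra.lift_ι_apply K ρ' x⟩
  set g : Fin n → UniversalEnvelopingAlgebra K L := fun i => UniversalEnvelopingAlgebra.ι K (b i)
    with hg
  have hΦ : ∀ i, Φ (g i) = ρ (b i) := fun i => hΦ' (b i)
  have hne : ∀ {σ p : MvPolynomial (Fin n) K}, σ ≠ 0 → p ≠ 0 →
      Φ (Psi (K := K) g σ) p ≠ 0 := fun hσ hp => act_ne b ρ g Φ hΦ hρ hσ hp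
  have hspan : ∀ x : L, UniversalEnvelopingAlgebra.ι K x ∈ Submodule.span K (Set.range g) := by
    intro x
    rw [← b.linearCombination_repr x, Finsupp.linearCombination_apply, Finsupp.sum, map_sum]
    refine Submodule.sum_mem _ fun i _ => ?_
    rw [map_smul]
    exact Submodule.smul_mem _ _ (Submodule.subset_span ⟨i, rfl⟩)
  have hcomm : ∀ β γ, g β * g γ - g γ * g β ∈ Submodule.span K
      {z | ∃ δ, (fun _ : Fin n => 1) δ ≤ (fun _ : Fin n => 1) β + (fun _ : Fin n => 1) γ ∧
        z = g δ} := by
    intro β γ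
    have e : g β * g γ - g γ * g β = UniversalEnvelopingAlgebra.ι K ⁅b β, b γ⁆ := by
      rw [iota_lie]
    rw [e]
    refine Submodule.span_mono ?_ (hspan _)
    rintro _ ⟨i, rfl⟩
    exact ⟨i, by simp, rfl⟩
  have hrange : ∀ l : List (Fin n), (l.map g).prod ∈ LinearMap.range (Psi (K := K) g) := by
    intro l
    have h3 := t_SORT K (UniversalEnvelopingAlgebra K L) (Fin n) g (fun _ => 1) hcomm l
    refine Submodule.span_le.2 ?_ h3
    rintro _ ⟨m, hm, _, rfl⟩
    refine ⟨MvPolynomial.monomial (Multiset.toFinsupp (m : Multiset (Fin n))) 1, ?_⟩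
    rw [Psi_monomial, one_smul, lst_of_sorted m hm]
  have hsurj : ∀ u : UniversalEnvelopingAlgebra K L, ∃ σ, Psi (K := K) g σ = u := by
    intro u
    have h4 : u ∈ Algebra.adjoin K (Set.range g) := by
      have := adjoin_top b
      change Algebra.adjoin K (Set.range g) = ⊤ at this
      rw [this]
      exact Algebra.mem_top
    rw [← Subalgebra.mem_toSubmodule, Algebra.adjoin_eq_span] at h4
    have h5 : Submodule.span K (Submonoid.closure (Set.range g) : Set _) ≤
        LinearMap.range (Psi (K := K) g) := by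
      rw [Submodule.span_le]
      intro z hz
      obtain ⟨l, rfl⟩ := mem_closure_range g hz
      exact hrange l
    exact h5 h4
  have hinj : ∀ u : UniversalEnvelopingAlgebra K L, Φ u 1 = 0 → u = 0 := by
    intro u hu
    obtain ⟨σ, rfl⟩ := hsurj u
    by_contra hne'
    refine hne (σ := σ) (p := 1) ?_ one_ne_zero hu
    rintro rfl
    exact hne' (map_zero _)
  -- the central elements
  let zc : Fin n → Subalgebra.center K (UniversalEnvelopingAlgebra K L) := fun i =>
    ⟨zz P χ (b i), zz_center P χ b h3 (b i)⟩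
  have hdeg1 : ∀ (x : L) {k : ℕ} {p : MvPolynomial (Fin n) K}, p ∈ Lt K (Fin n) k →
      Φ (UniversalEnvelopingAlgebra.ι K x) p ∈ Lt K (Fin n) (k + 1) := by
    intro x k p hp
    rw [hΦ', ← b.linearCombination_repr x, Finsupp.linearCombination_apply, Finsupp.sum, map_sum,
      LinearMap.sum_apply]
    refine Submodule.sum_mem _ fun i _ => ?_
    rw [map_smul, LinearMap.smul_apply]
    exact Submodule.smul_mem _ _ (step1 b ρ hρ i hp)
  have hleadg : ∀ i, Lead Φ (g i) (Finsupp.single i 1) := by
    intro i k p hp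
    cases k with
    | zero =>
      rw [mem_Lt_zero] at hp
      subst hp
      simp
    | succ k =>
      rw [mem_Lt_succ] at hp
      have h := step2 b ρ hρ i hp
      rw [hΦ]
      have e : k + 1 + (Finsupp.single i 1 : Fin n →₀ ℕ).degree - 1 = k + 1 := by
        simp
      rw [e]
      exact h
  have hleadz : ∀ i, Lead Φ (zc i : UniversalEnvelopingAlgebra K L) (Finsupp.single i 3) := by
    intro i k p hp
    have h1 := (hleadg i).pow 3 k p hp
    have e0 : (3 • Finsupp.single i 1 : Fin n →₀ ℕ) = Finsupp.single i 3 := by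
      rw [Finsupp.smul_single]
      rfl
    rw [e0] at h1
    have e : Φ (zc i : UniversalEnvelopingAlgebra K L) p - MvPolynomial.monomial
        (Finsupp.single i 3) 1 * p =
        (Φ (g i ^ 3) p - MvPolynomial.monomial (Finsupp.single i 3) 1 * p) -
          Φ (UniversalEnvelopingAlgebra.ι K (P.toFun (b i))) p - (χ (b i) ^ 3) • p := by
      change Φ (zz P χ (b i)) p - _ = _
      unfold zz
      rw [map_sub, map_sub, AlgHom.commutes, LinearMap.sub_apply, LinearMap.sub_apply,
        Module.algebraMap_end_apply]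
      abel
    rw [e]
    cases k with
    | zero =>
      rw [mem_Lt_zero] at hp
      subst hp
      simp
    | succ k =>
      have hd : (Finsupp.single i 3 : Fin n →₀ ℕ).degree = 3 := by simp
      rw [hd] at h1 ⊢
      refine Submodule.sub_mem _ (Submodule.sub_mem _ h1 ?_) (Submodule.smul_mem _ _ ?_)
      · exact Lt_mono (by omega) (hdeg1 _ hp)
      · exact Lt_mono (by omega) hp
  set π : UniversalEnvelopingAlgebra K L →ₐ[K] RedEnv P χ := RingQuot.mkAlgHom K (RedRel P χ)
    with hπdef
  have hπs : Function.Surjective π := RingQuot.mkAlgHom_surjective K (RedRel P χ)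
  have hπz : ∀ i, π (zc i) = 0 := by
    intro i
    change π (zz P χ (b i)) = 0
    unfold zz
    have h1 := RingQuot.mkAlgHom_rel K (RedRel.rel (P := P) (χ := χ) (b i))
    rw [map_sub, map_sub, hπdef, h1, map_add]
    abel
  have hA := A_span π hπs hπz hleadg hleadz hinj
  -- independence
  have hWst : ∀ u : UniversalEnvelopingAlgebra K L, Wm Φ zc ≤ (Wm Φ zc).comap (Φ u) := by
    intro u
    refine iSup_le fun i => ?_
    rintro _ ⟨v, rfl⟩
    rw [Submodule.mem_comap]
    have hc := (Subalgebra.mem_center_iff.1 (zc i).2) u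
    have e : Φ u (Φ (zc i : UniversalEnvelopingAlgebra K L) v) =
        Φ (zc i : UniversalEnvelopingAlgebra K L) (Φ u v) := by
      rw [← Module.End.mul_apply, ← Module.End.mul_apply, ← map_mul, ← map_mul, hc]
    rw [e]
    exact Submodule.mem_iSup_of_mem i ⟨_, rfl⟩
  let Φq : UniversalEnvelopingAlgebra K L →ₐ[K]
      Module.End K (MvPolynomial (Fin n) K ⧸ Wm Φ zc) :=
    AlgHom.ofLinearMap
      { toFun := fun u => (Wm Φ zc).mapQ (Wm Φ zc) (Φ u) (hWst u)
        map_add' := by
          intro u v
          refine LinearMap.ext fun x => ?_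
          obtain ⟨y, rfl⟩ := Submodule.mkQ_surjective _ x
          simp only [Submodule.mkQ_apply, Submodule.mapQ_apply, LinearMap.add_apply, map_add,
            Submodule.Quotient.mk_add]
        map_smul' := by
          intro c u
          refine LinearMap.ext fun x => ?_
          obtain ⟨y, rfl⟩ := Submodule.mkQ_surjective _ x
          simp only [Submodule.mkQ_apply, Submodule.mapQ_apply, LinearMap.smul_apply, map_smul,
            Submodule.Quotient.mk_smul, RingHom.id_apply] }
      (by
        refine LinearMap.ext fun x => ?_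
        obtain ⟨y, rfl⟩ := Submodule.mkQ_surjective _ x
        simp only [LinearMap.coe_mk, AddHom.coe_mk, Submodule.mkQ_apply, Submodule.mapQ_apply,
          map_one, Module.End.one_apply])
      (by
        intro u v
        refine LinearMap.ext fun x => ?_
        obtain ⟨y, rfl⟩ := Submodule.mkQ_surjective _ x
        simp only [LinearMap.coe_mk, AddHom.coe_mk, Submodule.mkQ_apply, Submodule.mapQ_apply,
          map_mul, Module.End.mul_apply])
  have hΦq : ∀ u v, Φq u (Submodule.Quotient.mk v) = Submodule.Quotient.mk (Φ u v) := by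
    intro u v
    rfl
  have hzzW : ∀ (x : L) (v : MvPolynomial (Fin n) K), Φ (zz P χ x) v ∈ Wm Φ zc := by
    intro x v
    have h1 : zz P χ x ∈ Submodule.span K (Set.range fun i => zz P χ (b i)) := by
      have key : ∀ (s : Finset (Fin n)) (c : Fin n → K),
          zz P χ (∑ i ∈ s, c i • b i) ∈ Submodule.span K (Set.range fun i => zz P χ (b i)) := by
        intro s c
        induction s using Finset.induction_on with
        | empty =>
          rw [Finset.sum_empty]
          have : zz P χ (0 : L) = 0 := by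
            have := zz_smul P χ (0 : K) (0 : L)
            rw [zero_smul] at this
            rw [this]
            simp
          rw [this]
          exact Submodule.zero_mem _
        | insert i s hi ih =>
          rw [Finset.sum_insert hi, zz_add P χ h3, zz_smul]
          exact Submodule.add_mem _ (Submodule.smul_mem _ _ (Submodule.subset_span ⟨i, rfl⟩)) ih
      have := key Finset.univ (fun i => b.repr x i)
      rwa [b.sum_repr] at this
    have h2 : ∀ u ∈ Submodule.span K (Set.range fun i => zz P χ (b i)), Φ u v ∈ Wm Φ zc := by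
      intro u hu
      induction hu using Submodule.span_induction with
      | mem u hu =>
        obtain ⟨i, rfl⟩ := hu
        exact Submodule.mem_iSup_of_mem i ⟨v, rfl⟩
      | zero => rw [map_zero]; exact Submodule.zero_mem _
      | add u w _ _ hu hw =>
        rw [map_add, LinearMap.add_apply]
        exact Submodule.add_mem _ hu hw
      | smul c u _ hu =>
        rw [map_smul, LinearMap.smul_apply]
        exact Submodule.smul_mem _ _ hu
    exact h2 _ h1
  have hrel : ∀ ⦃x y : UniversalEnvelopingAlgebra K L⦄, RedRel P χ x y → Φq x = Φq y := by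
    rintro _ _ ⟨x⟩
    refine LinearMap.ext fun w => ?_
    obtain ⟨v, rfl⟩ := Submodule.Quotient.mk_surjective _ w
    rw [hΦq, hΦq, Submodule.Quotient.eq, ← LinearMap.sub_apply, ← map_sub]
    have := hzzW x v
    unfold zz at this
    rwa [sub_sub] at this
  let Ψ : RedEnv P χ →ₐ[K] Module.End K (MvPolynomial (Fin n) K ⧸ Wm Φ zc) :=
    RingQuot.liftAlgHom K ⟨Φq, hrel⟩
  have hΨ : ∀ u, Ψ (π u) = Φq u := fun u => RingQuot.liftAlgHom_mkAlgHom_apply K (s := RedRel P χ)
    (f := Φq) hrel u
  have hind : LinearIndependent K (fun a : Fin n → Fin 3 =>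
      mono (fun i => gen P χ (b i)) (fun i => (a i : ℕ))) := by
    rw [Fintype.linearIndependent_iff]
    intro x hx
    refine S_indep (Φ := Φ) (g := g) hleadg hleadz x ?_
    have h1 := congrArg (fun y => Ψ y (Submodule.Quotient.mk 1)) hx
    simp only [map_zero, LinearMap.zero_apply] at h1
    rw [map_sum, LinearMap.sum_apply] at h1
    have h2 : ∀ a : Fin n → Fin 3, Ψ (x a • mono (fun i => gen P χ (b i)) (fun i => (a i : ℕ)))
        (Submodule.Quotient.mk 1) =
        Submodule.Quotient.mk (x a • Φ (mono g fun i => (a i : ℕ)) 1) := by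
      intro a
      have e : mono (fun i => gen P χ (b i)) (fun i => (a i : ℕ)) =
          π (mono g fun i => (a i : ℕ)) :=
        (map_mono (π : UniversalEnvelopingAlgebra K L →* RedEnv P χ) _).symm
      rw [e, map_smul, LinearMap.smul_apply, hΨ, hΦq, Submodule.Quotient.mk_smul]
    simp only [h2] at h1
    have h4 : (Submodule.mkQ (Wm Φ zc)) (∑ a, x a • Φ (mono g fun i => (a i : ℕ)) 1) = 0 := by
      rw [map_sum]
      exact h1
    rwa [Submodule.mkQ_apply, Submodule.Quotient.mk_eq_zero] at h4
  refine ⟨Module.Basis.mk hind (by rw [← hA]; exact le_rfl), fun a => ?_⟩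
  rw [Module.Basis.mk_apply]

end Red

end Pool.Agent.R720.PIM
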