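import Pool.Agent.R720.PIM.Sys

/-!
# Stability of the right ideal generated by the first generators
-/

set_option autoImplicit false
set_option linter.unusedSectionVars false

namespace Pool.Agent.R720.PIM

attribute [local irreducible] sc uu ww cu tJ tK om sw

section Gen

variable {K : Type} [Field K] {A : Type} [Ring A] [Algebra K A]
  {M : Type} [AddCommGroup M] [Module K M] [Module A M] [IsScalarTower K A M]

lemma mul_mem_RS {s : Set A} {a : A} (ha : a ∈ s) (y : A) : a * y ∈ RS K A s :=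
  smul_mem_RS (M := A) ha y

lemma RS_smul_right {s : Set A} {a : A} (ha : a ∈ RS K A s) (m : M) : a • m ∈ RS K M s :=
  RS_map (LinearMap.toSpanSingleton A M m) ha

lemma stab_of {s : Set A} {c : A} (h : ∀ a ∈ s, c * a ∈ RS K A s) :
    ∀ w ∈ RS K M s, c • w ∈ RS K M s := by
  intro w hw
  refine RS_stable (fun a ha m => ?_) hw
  rw [← mul_smul]
  exact RS_smul_right (h a ha) m

variable {x : Fin 10 → A}

lemma fst_mem {j : ℕ} (l : Fin 10) (h : (l : ℕ) < j) : x l ∈ fst x j := ⟨l, h, rfl⟩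

lemma fst4 {a : A} (ha : a ∈ fst x 4) : a = x 0 ∨ a = x 1 ∨ a = x 2 ∨ a = x 3 := by
  obtain ⟨l, hl, rfl⟩ := ha
  have : (l : ℕ) = 0 ∨ (l : ℕ) = 1 ∨ (l : ℕ) = 2 ∨ (l : ℕ) = 3 := by omega
  rcases this with h | h | h | h
  · left; congr 1; exact Fin.ext h
  · right; left; congr 1; exact Fin.ext h
  · right; right; left; congr 1; exact Fin.ext h
  · right; right; right; congr 1; exact Fin.ext h

lemma memJ {y a b c d : A} (h : y = x 0 * a + x 1 * b + x 2 * c + x 3 * d) :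
    y ∈ RS K A (fst x 4) := by
  rw [h]
  exact Submodule.add_mem _ (Submodule.add_mem _ (Submodule.add_mem _
    (mul_mem_RS (fst_mem 0 (by decide)) _) (mul_mem_RS (fst_mem 1 (by decide)) _))
    (mul_mem_RS (fst_mem 2 (by decide)) _)) (mul_mem_RS (fst_mem 3 (by decide)) _)

lemma pi2_mul {e : A} {α1 α2 : K} (h1 : x 4 * e = e * x 4 + α1 • e)
    (h2 : x 5 * e = e * x 5 + α2 • e) (t1 t2 : K) :
    pi2 x t1 t2 * e = e * pi2 x (t1 - α1) (t2 - α2) := by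
  unfold pi2
  rw [mul_assoc, pr_mul_e t2 α2 h2, ← mul_assoc, pr_mul_e t1 α1 h1, mul_assoc]

end Gen

section Rel

variable {K : Type} [Field K] [CharP K 3] {A : Type} [Ring A] [Algebra K A] {x : Fin 10 → A}

lemma stab_chain (R : Rels x) (j : Fin 10) (hj : (j : ℕ) < 4) :
    ∀ a ∈ fst x j, x j * a ∈ RS K A (fst x j) := by
  have h : j = 0 ∨ j = 1 ∨ j = 2 ∨ j = 3 := by
    have : (j : ℕ) = 0 ∨ (j : ℕ) = 1 ∨ (j : ℕ) = 2 ∨ (j : ℕ) = 3 := by omega
    rcases this with h | h | h | h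
    · left; exact Fin.ext h
    · right; left; exact Fin.ext h
    · right; right; left; exact Fin.ext h
    · right; right; right; exact Fin.ext h
  rintro _ ⟨l, hl, rfl⟩
  rcases h with rfl | rfl | rfl | rfl
  · exact absurd hl (Nat.not_lt_zero _)
  · have : l = 0 := by
      apply Fin.ext
      change (l : ℕ) = 0
      have : (l : ℕ) < 1 := hl
      omega
    subst this
    rw [R.r10]
    exact mul_mem_RS (fst_mem 0 (by decide)) _
  · have : l = 0 ∨ l = 1 := by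
      have h2 : (l : ℕ) < 2 := hl
      have : (l : ℕ) = 0 ∨ (l : ℕ) = 1 := by omega
      rcases this with h | h
      · left; exact Fin.ext h
      · right; exact Fin.ext h
    rcases this with rfl | rfl
    · rw [R.r20]
      exact mul_mem_RS (fst_mem 0 (by decide)) _
    · rw [R.r21]
      exact mul_mem_RS (fst_mem 1 (by decide)) _
  · have : l = 0 ∨ l = 1 ∨ l = 2 := by
      have h2 : (l : ℕ) < 3 := hl
      have : (l : ℕ) = 0 ∨ (l : ℕ) = 1 ∨ (l : ℕ) = 2 := by omega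
      rcases this with h | h | h
      · left; exact Fin.ext h
      · right; left; exact Fin.ext h
      · right; right; exact Fin.ext h
    have m0 : ∀ y : A, x 0 * y ∈ RS K A (fst x ((3 : Fin 10) : ℕ)) :=
      fun y => mul_mem_RS (fst_mem 0 (by decide)) y
    have m1 : ∀ y : A, x 1 * y ∈ RS K A (fst x ((3 : Fin 10) : ℕ)) :=
      fun y => mul_mem_RS (fst_mem 1 (by decide)) y
    have m2 : ∀ y : A, x 2 * y ∈ RS K A (fst x ((3 : Fin 10) : ℕ)) :=
      fun y => mul_mem_RS (fst_mem 2 (by decide)) y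
    rcases this with rfl | rfl | rfl
    · rw [R.r30]
      exact m0 _
    · rw [R.r31]
      have := m0 1
      rw [mul_one] at this
      exact Submodule.add_mem _ (m1 _) this
    · rw [R.r32]
      have := m1 1
      rw [mul_one] at this
      exact Submodule.add_mem _ (m2 _) this

lemma wt0 (R : Rels x) : x 4 * x 0 = x 0 * x 4 + (0 : K) • x 0 ∧
    x 5 * x 0 = x 0 * x 5 + (1 : K) • x 0 := by
  refine ⟨by rw [R.r40, zero_smul, add_zero], by rw [R.r50, one_smul]⟩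

lemma wt1 (R : Rels x) : x 4 * x 1 = x 1 * x 4 + (-1 : K) • x 1 ∧
    x 5 * x 1 = x 1 * x 5 + (1 : K) • x 1 := by
  refine ⟨by rw [R.r41, neg_smul, one_smul, sub_eq_add_neg], by rw [R.r51, one_smul]⟩

lemma wt2 (R : Rels x) : x 4 * x 2 = x 2 * x 4 + (1 : K) • x 2 ∧
    x 5 * x 2 = x 2 * x 5 + (1 : K) • x 2 := by
  refine ⟨by rw [R.r42, one_smul], by rw [R.r52, one_smul]⟩

lemma wt3 (R : Rels x) : x 4 * x 3 = x 3 * x 4 + (1 : K) • x 3 ∧
    x 5 * x 3 = x 3 * x 5 + (0 : K) • x 3 := by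
  refine ⟨by rw [R.r43, one_smul], by rw [R.r53, zero_smul, add_zero]⟩

lemma wt6 (R : Rels x) : x 4 * x 6 = x 6 * x 4 + (-1 : K) • x 6 ∧
    x 5 * x 6 = x 6 * x 5 + (-1 : K) • x 6 := by
  refine ⟨by rw [R.r46, neg_smul, one_smul, sub_eq_add_neg],
    by rw [R.r56, neg_smul, one_smul, sub_eq_add_neg]⟩

lemma wt7 (R : Rels x) : x 4 * x 7 = x 7 * x 4 + (-1 : K) • x 7 ∧
    x 5 * x 7 = x 7 * x 5 + (0 : K) • x 7 := by
  refine ⟨by rw [R.r47, neg_smul, one_smul, sub_eq_add_neg], by rw [R.r57, zero_smul, add_zero]⟩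

/-- the weight idempotents commute past the first generators -/
lemma stab_pi (R : Rels x) (t1 t2 : K) : ∀ a ∈ fst x 4, pi2 x t1 t2 * a ∈ RS K A (fst x 4) := by
  intro a ha
  rcases fst4 ha with rfl | rfl | rfl | rfl
  · rw [pi2_mul (wt0 R).1 (wt0 R).2]
    exact mul_mem_RS (fst_mem 0 (by decide)) _
  · rw [pi2_mul (wt1 R).1 (wt1 R).2]
    exact mul_mem_RS (fst_mem 1 (by decide)) _
  · rw [pi2_mul (wt2 R).1 (wt2 R).2]
    exact mul_mem_RS (fst_mem 2 (by decide)) _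
  · rw [pi2_mul (wt3 R).1 (wt3 R).2]
    exact mul_mem_RS (fst_mem 3 (by decide)) _

lemma x4_pi (R : Rels x) {t1 : K} (ht1 : t1 ^ 3 = t1) (t2 : K) :
    x 4 * pi2 x t1 t2 = t1 • pi2 x t1 t2 := by
  unfold pi2
  rw [← mul_assoc, mul_pr (three_eq K) ht1 R.c4, mul_assoc, ← Algebra.smul_def]

lemma x5_pi (R : Rels x) (t1 : K) {t2 : K} (ht2 : t2 ^ 3 = t2) :
    x 5 * pi2 x t1 t2 = t2 • pi2 x t1 t2 := by
  have h : pr t1 (x 4) * x 5 = x 5 * pr t1 (x 4) := by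
    have := pr_mul_e (h := x 4) (e := x 5) t1 (0 : K) (by rw [zero_smul, add_zero, R.r45])
    rwa [sub_zero] at this
  unfold pi2
  rw [← mul_assoc, ← h, mul_assoc, mul_pr (three_eq K) ht2 R.c5, Algebra.smul_def, ← mul_assoc,
    ← mul_assoc, Algebra.commutes t2 (pr t1 (x 4))]

lemma sq61 (R : Rels x) : x 6 ^ 2 * x 1 = x 1 * x 6 ^ 2 - 2 * (x 3 * x 6) := by
  have e : x 6 ^ 2 * x 1 = x 6 * (x 6 * x 1) := by rw [pow_two, mul_assoc]
  rw [e, R.r61, mul_sub, ← mul_assoc, R.r61, R.r63]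
  noncomm_ring

lemma sq62 (R : Rels x) : x 6 ^ 2 * x 2 = x 2 * x 6 ^ 2 + (x 6 * x 4 + x 6 * x 4 - x 6) := by
  have e : x 6 ^ 2 * x 2 = x 6 * (x 6 * x 2) := by rw [pow_two, mul_assoc]
  rw [e, R.r62, mul_add, ← mul_assoc, R.r62, add_mul, R.r46]
  noncomm_ring

lemma sq70 (R : Rels x) : x 7 ^ 2 * x 0 = x 0 * x 7 ^ 2 - 2 * (x 1 * x 7) - x 2 := by
  have e : x 7 ^ 2 * x 0 = x 7 * (x 7 * x 0) := by rw [pow_two, mul_assoc]
  rw [e, R.r70, mul_sub, ← mul_assoc, R.r70, R.r71]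
  noncomm_ring

lemma sq71 (R : Rels x) : x 7 ^ 2 * x 1 = x 1 * x 7 ^ 2 + 2 * (x 2 * x 7) := by
  have e : x 7 ^ 2 * x 1 = x 7 * (x 7 * x 1) := by rw [pow_two, mul_assoc]
  rw [e, R.r71, mul_add, ← mul_assoc, R.r71, R.r72]
  noncomm_ring

lemma sq73 (R : Rels x) : x 7 ^ 2 * x 3 = x 3 * x 7 ^ 2 + 2 * (x 7 * x 5) := by
  have e : x 7 ^ 2 * x 3 = x 7 * (x 7 * x 3) := by rw [pow_two, mul_assoc]
  rw [e, R.r73, mul_add, ← mul_assoc, R.r73, add_mul, R.r57]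
  noncomm_ring

lemma comm_sq {a b : A} (h : a * b = b * a) : a ^ 2 * b = b * a ^ 2 := by
  rw [pow_two, mul_assoc, h, ← mul_assoc, h, mul_assoc]

lemma two_eq : (2 : K) = -1 := by
  have := three_eq K
  linear_combination this

/-- well-definedness, first node -/
lemma stab_N1 (R : Rels x) {t2 : K} :
    ∀ a ∈ fst x 4, x 6 ^ 2 * pi2 x 0 t2 * a ∈ RS K A (fst x 4) := by
  intro a ha
  rcases fst4 ha with rfl | rfl | rfl | rfl
  · rw [mul_assoc, pi2_mul (wt0 R).1 (wt0 R).2, ← mul_assoc, comm_sq R.r60, mul_assoc]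
    exact mul_mem_RS (fst_mem 0 (by decide)) _
  · rw [mul_assoc, pi2_mul (wt1 R).1 (wt1 R).2, ← mul_assoc, sq61 R]
    refine memJ (a := 0) (b := x 6 ^ 2 * pi2 x (0 - -1) (t2 - 1)) (c := 0)
      (d := -2 * x 6 * pi2 x (0 - -1) (t2 - 1)) ?_
    noncomm_ring
  · rw [mul_assoc, pi2_mul (wt2 R).1 (wt2 R).2, ← mul_assoc, sq62 R]
    have h4 := x4_pi (K := K) (x := x) R (t1 := 0 - 1) (by ring) (t2 - 1)
    refine memJ (a := 0) (b := 0) (c := x 6 ^ 2 * pi2 x (0 - 1) (t2 - 1))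
      (d := 0) ?_
    have e : (x 6 * x 4 + x 6 * x 4 - x 6) * pi2 x (0 - 1) (t2 - 1) = 0 := by
      rw [sub_mul, add_mul, mul_assoc, h4, mul_smul_comm, ← add_smul]
      have : ((0 : K) - 1 + (0 - 1)) = 1 := by
        have := three_eq K
        linear_combination -this
      rw [this, one_smul, sub_self]
    rw [add_mul, e, mul_assoc]
    noncomm_ring
  · rw [mul_assoc, pi2_mul (wt3 R).1 (wt3 R).2, ← mul_assoc, comm_sq R.r63, mul_assoc]
    exact mul_mem_RS (fst_mem 3 (by decide)) _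

lemma stab_N1' (R : Rels x) {t2 : K} :
    ∀ a ∈ fst x 4, x 6 ^ 1 * pi2 x 1 t2 * a ∈ RS K A (fst x 4) := by
  intro a ha
  rw [pow_one]
  rcases fst4 ha with rfl | rfl | rfl | rfl
  · rw [mul_assoc, pi2_mul (wt0 R).1 (wt0 R).2, ← mul_assoc, R.r60, mul_assoc]
    exact mul_mem_RS (fst_mem 0 (by decide)) _
  · rw [mul_assoc, pi2_mul (wt1 R).1 (wt1 R).2, ← mul_assoc, R.r61]
    refine memJ (a := 0) (b := x 6 * pi2 x (1 - -1) (t2 - 1)) (c := 0)
      (d := - pi2 x (1 - -1) (t2 - 1)) ?_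
    noncomm_ring
  · rw [mul_assoc, pi2_mul (wt2 R).1 (wt2 R).2, ← mul_assoc, R.r62]
    have h4 := x4_pi (K := K) (x := x) R (t1 := 1 - 1) (by ring) (t2 - 1)
    refine memJ (a := 0) (b := 0) (c := x 6 * pi2 x (1 - 1) (t2 - 1))
      (d := 0) ?_
    rw [add_mul, h4, sub_self, zero_smul]
    noncomm_ring
  · rw [mul_assoc, pi2_mul (wt3 R).1 (wt3 R).2, ← mul_assoc, R.r63, mul_assoc]
    exact mul_mem_RS (fst_mem 3 (by decide)) _

/-- well-definedness, second node -/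
lemma stab_N2 (R : Rels x) {t1 : K} :
    ∀ a ∈ fst x 4, x 7 ^ 2 * pi2 x t1 0 * a ∈ RS K A (fst x 4) := by
  intro a ha
  rcases fst4 ha with rfl | rfl | rfl | rfl
  · rw [mul_assoc, pi2_mul (wt0 R).1 (wt0 R).2, ← mul_assoc, sq70 R]
    refine memJ (a := x 7 ^ 2 * pi2 x (t1 - 0) (0 - 1)) (b := -2 * x 7 * pi2 x (t1 - 0) (0 - 1))
      (c := - pi2 x (t1 - 0) (0 - 1)) (d := 0) ?_
    noncomm_ring
  · rw [mul_assoc, pi2_mul (wt1 R).1 (wt1 R).2, ← mul_assoc, sq71 R]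
    refine memJ (a := 0) (b := x 7 ^ 2 * pi2 x (t1 - -1) (0 - 1))
      (c := 2 * x 7 * pi2 x (t1 - -1) (0 - 1)) (d := 0) ?_
    noncomm_ring
  · rw [mul_assoc, pi2_mul (wt2 R).1 (wt2 R).2, ← mul_assoc, comm_sq R.r72, mul_assoc]
    exact mul_mem_RS (fst_mem 2 (by decide)) _
  · rw [mul_assoc, pi2_mul (wt3 R).1 (wt3 R).2, ← mul_assoc, sq73 R]
    have h5 := x5_pi (K := K) (x := x) R (t1 - 1) (t2 := 0 - 0) (by ring)
    refine memJ (a := 0) (b := 0) (c := 0) (d := x 7 ^ 2 * pi2 x (t1 - 1) (0 - 0)) ?_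
    rw [add_mul, mul_assoc 2, mul_assoc (x 7) (x 5), h5, sub_self, zero_smul]
    noncomm_ring

lemma stab_N2' (R : Rels x) {t1 : K} :
    ∀ a ∈ fst x 4, x 7 ^ 1 * pi2 x t1 0 * a ∈ RS K A (fst x 4) := by
  intro a ha
  rw [pow_one]
  rcases fst4 ha with rfl | rfl | rfl | rfl
  · rw [mul_assoc, pi2_mul (wt0 R).1 (wt0 R).2, ← mul_assoc, R.r70]
    refine memJ (a := x 7 * pi2 x (t1 - 0) (0 - 1)) (b := - pi2 x (t1 - 0) (0 - 1))
      (c := 0) (d := 0) ?_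
    noncomm_ring
  · rw [mul_assoc, pi2_mul (wt1 R).1 (wt1 R).2, ← mul_assoc, R.r71]
    refine memJ (a := 0) (b := x 7 * pi2 x (t1 - -1) (0 - 1))
      (c := pi2 x (t1 - -1) (0 - 1)) (d := 0) ?_
    noncomm_ring
  · rw [mul_assoc, pi2_mul (wt2 R).1 (wt2 R).2, ← mul_assoc, R.r72, mul_assoc]
    exact mul_mem_RS (fst_mem 2 (by decide)) _
  · rw [mul_assoc, pi2_mul (wt3 R).1 (wt3 R).2, ← mul_assoc, R.r73]
    have h5 := x5_pi (K := K) (x := x) R (t1 - 1) (t2 := 0 - 0) (by ring)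
    refine memJ (a := 0) (b := 0) (c := 0) (d := x 7 * pi2 x (t1 - 1) (0 - 0)) ?_
    rw [add_mul, h5, sub_self, zero_smul]
    noncomm_ring

lemma Om_pi (S : Sys K x) {t1 t2 : K} (ht1 : t1 ^ 3 = t1) (ht2 : t2 ^ 3 = t2) :
    Om K x * pi2 x t1 t2 - (t2 * (t1 + t2 + 1)) • pi2 x t1 t2 ∈ RS K A (fst x 4) := by
  have R := S.rels
  obtain ⟨y0, y1, y2, y3, h⟩ := Om_red S
  have h4 := x4_pi R ht1 t2
  have h5 := x5_pi R t1 ht2
  refine memJ (a := y0 * pi2 x t1 t2) (b := y1 * pi2 x t1 t2) (c := y2 * pi2 x t1 t2)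
    (d := y3 * pi2 x t1 t2) ?_
  rw [h, add_mul, add_mul, add_mul, mul_assoc (x 5) (x 5), mul_assoc (x 4) (x 5), h5,
    mul_smul_comm, mul_smul_comm, h5, h4, smul_smul, smul_smul]
  have e : (t2 * (t1 + t2 + 1)) • pi2 x t1 t2 = (t2 * t2) • pi2 x t1 t2 +
      (t2 * t1) • pi2 x t1 t2 + t2 • pi2 x t1 t2 := by
    rw [← add_smul, ← add_smul]
    congr 1
    ring
  rw [e, add_mul, add_mul, add_mul]
  simp only [mul_assoc]
  abel

end Rel

end Pool.Agent.R720.PIM
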