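import Pool.Agent.R720.PIM.Table2

/-!
# The Casimir element: computations with the structure constants
-/

set_option autoImplicit false

namespace Pool.Agent.R720.PIM

/-- the invariant form -/
def om : Fin 10 → Fin 10 → ZMod 3 := ![
  ![0, 0, 0, 0, 0, 0, 0, 0, 0, -1],
  ![0, 0, 0, 0, 0, 0, 0, 0, -1, 0],
  ![0, 0, 0, 0, 0, 0, 1, 0, 0, 0],
  ![0, 0, 0, 0, 0, 0, 0, 1, 0, 0],
  ![0, 0, 0, 0, 0, -1, 0, 0, 0, 0],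
  ![0, 0, 0, 0, -1, 1, 0, 0, 0, 0],
  ![0, 0, 1, 0, 0, 0, 0, 0, 0, 0],
  ![0, 0, 0, 1, 0, 0, 0, 0, 0, 0],
  ![0, -1, 0, 0, 0, 0, 0, 0, 0, 0],
  ![-1, 0, 0, 0, 0, 0, 0, 0, 0, 0]]

set_option maxRecDepth 100000 in
lemma om_inv : ∀ k m n : Fin 10,
    s10 (fun a => om a n * sc k a m) + s10 (fun b => om m b * sc k b n) = 0 := by
  decide +kernel

set_option maxRecDepth 100000 in
lemma om_neg : ∀ m n : Fin 10,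
    s10 (fun a => uu a m * s10 (fun b => om a b * uu b n)) = - om m n := by
  decide +kernel

/-- the transposition of `6` and `7` -/
def sw : Fin 10 → Fin 10 := ![0, 1, 2, 3, 4, 5, 7, 6, 8, 9]

lemma sw_sw : ∀ i, sw (sw i) = i := by decide

/-- a row with at most two entries -/
def two (m n : Fin 10) (c d : ZMod 3) : Fin 10 → ZMod 3 :=
  fun k => (if k = m then c else 0) + (if k = n then d else 0)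

set_option maxRecDepth 100000 in
lemma sc_rows : (∀ k, sc 1 0 k = two 0 0 0 0 k) ∧ (∀ k, sc 2 0 k = two 0 0 0 0 k) ∧
    (∀ k, sc 2 1 k = two 0 0 0 0 k) ∧ (∀ k, sc 3 0 k = two 0 0 0 0 k) ∧
    (∀ k, sc 3 1 k = two 0 0 1 0 k) ∧ (∀ k, sc 3 2 k = two 1 0 1 0 k) ∧
    (∀ k, sc 4 5 k = two 0 0 0 0 k) ∧ (∀ k, sc 4 0 k = two 0 0 0 0 k) ∧
    (∀ k, sc 4 1 k = two 1 0 (-1) 0 k) ∧ (∀ k, sc 4 2 k = two 2 0 1 0 k) ∧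
    (∀ k, sc 4 3 k = two 3 0 1 0 k) ∧ (∀ k, sc 5 0 k = two 0 0 1 0 k) ∧
    (∀ k, sc 5 1 k = two 1 0 1 0 k) ∧ (∀ k, sc 5 2 k = two 2 0 1 0 k) ∧
    (∀ k, sc 5 3 k = two 0 0 0 0 k) ∧ (∀ k, sc 6 0 k = two 0 0 0 0 k) ∧
    (∀ k, sc 6 1 k = two 3 0 (-1) 0 k) ∧ (∀ k, sc 6 2 k = two 4 0 1 0 k) ∧
    (∀ k, sc 6 3 k = two 0 0 0 0 k) ∧ (∀ k, sc 7 0 k = two 1 0 (-1) 0 k) ∧
    (∀ k, sc 7 1 k = two 2 0 1 0 k) ∧ (∀ k, sc 7 2 k = two 0 0 0 0 k) ∧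
    (∀ k, sc 7 3 k = two 5 0 1 0 k) ∧ (∀ k, sc 4 6 k = two 6 0 (-1) 0 k) ∧
    (∀ k, sc 4 7 k = two 7 0 (-1) 0 k) ∧ (∀ k, sc 5 6 k = two 6 0 (-1) 0 k) ∧
    (∀ k, sc 5 7 k = two 0 0 0 0 k) ∧ (∀ k, sc 8 1 k = two 4 5 (-1) (-1) k) ∧
    (∀ k, sc 9 0 k = two 4 5 (-1) 1 k) := by
  decide +kernel

lemma om_rows : (∀ k, om 0 k = two 9 0 (-1) 0 k) ∧ (∀ k, om 1 k = two 8 0 (-1) 0 k) ∧
    (∀ k, om 2 k = two 6 0 1 0 k) ∧ (∀ k, om 3 k = two 7 0 1 0 k) ∧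
    (∀ k, om 4 k = two 5 0 (-1) 0 k) ∧ (∀ k, om 5 k = two 4 5 (-1) 1 k) ∧
    (∀ k, om 6 k = two 2 0 1 0 k) ∧ (∀ k, om 7 k = two 3 0 1 0 k) ∧
    (∀ k, om 8 k = two 1 0 (-1) 0 k) ∧ (∀ k, om 9 k = two 0 0 (-1) 0 k) := by
  decide +kernel

lemma cu_val : cu 0 = 0 ∧ cu 1 = 0 ∧ cu 2 = 0 ∧ cu 3 = 0 ∧ cu 4 = 1 ∧ cu 5 = 1 ∧ cu 6 = 0 ∧
    cu 7 = 0 := by
  decide

end Pool.Agent.R720.PIM
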