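import Pool.Agent.R720.PIM.Alg3
import Pool.Agent.R720.PIM.Table3

/-!
# Systems of generators with the given structure constants
-/

set_option autoImplicit false
set_option linter.unusedSectionVars false

namespace Pool.Agent.R720.PIM

attribute [local irreducible] sc uu ww cu tJ tK om sw

section Sys

variable {K : Type} [Field K] [CharP K 3] {A : Type} [Ring A] [Algebra K A]

/-- systems of generators with the given structure constants -/
structure Sys (K : Type) [Field K] [CharP K 3] {A : Type} [Ring A] [Algebra K A]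
    (x : Fin 10 → A) : Prop where
  comm : ∀ i j, x i * x j - x j * x i = ∑ k, ph K (sc i j k) • x k
  cube : ∀ i, x i ^ 3 = ph K (cu i) • x i
  pbw : ∃ B : Module.Basis (Fin 10 → Fin 3) K A, ∀ a, B a = mono x fun i => (a i : ℕ)
  pbw' : ∃ B : Module.Basis (Fin 10 → Fin 3) K A,
    ∀ a, B a = mono (fun i => x (sw i)) fun i => (a i : ℕ)

lemma sum_two {V : Type} [AddCommGroup V] [Module K V] (y : Fin 10 → V) (f : Fin 10 → ZMod 3)
    (m n : Fin 10) (c d : ZMod 3) (h : ∀ k, f k = two m n c d k) :
    ∑ k, ph K (f k) • y k = ph K c • y m + ph K d • y n := by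
  have e : ∀ k, ph K (f k) • y k =
      (if k = m then ph K c • y m else 0) + (if k = n then ph K d • y n else 0) := by
    intro k
    rw [h k, two, map_add, add_smul]
    congr 1
    · split_ifs with h1
      · rw [h1]
      · rw [map_zero, zero_smul]
    · split_ifs with h1
      · rw [h1]
      · rw [map_zero, zero_smul]
  rw [Finset.sum_congr rfl fun k _ => e k, Finset.sum_add_distrib, Finset.sum_ite_eq',
    Finset.sum_ite_eq', if_pos (Finset.mem_univ _), if_pos (Finset.mem_univ _)]

variable {x : Fin 10 → A}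

lemma Sys.rel (S : Sys K x) {i j m n : Fin 10} {c d : ZMod 3}
    (h : ∀ k, sc i j k = two m n c d k) :
    x i * x j = x j * x i + (ph K c • x m + ph K d • x n) := by
  rw [← sum_two x _ m n c d h, ← S.comm i j]
  abel

/-- the explicit relations -/
structure Rels (x : Fin 10 → A) : Prop where
  r10 : x 1 * x 0 = x 0 * x 1
  r20 : x 2 * x 0 = x 0 * x 2
  r21 : x 2 * x 1 = x 1 * x 2
  r30 : x 3 * x 0 = x 0 * x 3
  r31 : x 3 * x 1 = x 1 * x 3 + x 0
  r32 : x 3 * x 2 = x 2 * x 3 + x 1
  r45 : x 4 * x 5 = x 5 * x 4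
  r40 : x 4 * x 0 = x 0 * x 4
  r41 : x 4 * x 1 = x 1 * x 4 - x 1
  r42 : x 4 * x 2 = x 2 * x 4 + x 2
  r43 : x 4 * x 3 = x 3 * x 4 + x 3
  r50 : x 5 * x 0 = x 0 * x 5 + x 0
  r51 : x 5 * x 1 = x 1 * x 5 + x 1
  r52 : x 5 * x 2 = x 2 * x 5 + x 2
  r53 : x 5 * x 3 = x 3 * x 5
  r60 : x 6 * x 0 = x 0 * x 6
  r61 : x 6 * x 1 = x 1 * x 6 - x 3
  r62 : x 6 * x 2 = x 2 * x 6 + x 4
  r63 : x 6 * x 3 = x 3 * x 6
  r70 : x 7 * x 0 = x 0 * x 7 - x 1
  r71 : x 7 * x 1 = x 1 * x 7 + x 2
  r72 : x 7 * x 2 = x 2 * x 7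
  r73 : x 7 * x 3 = x 3 * x 7 + x 5
  r46 : x 4 * x 6 = x 6 * x 4 - x 6
  r47 : x 4 * x 7 = x 7 * x 4 - x 7
  r56 : x 5 * x 6 = x 6 * x 5 - x 6
  r57 : x 5 * x 7 = x 7 * x 5
  r81 : x 8 * x 1 = x 1 * x 8 - (x 4 + x 5)
  r90 : x 9 * x 0 = x 0 * x 9 - (x 4 - x 5)
  c0 : x 0 ^ 3 = 0
  c1 : x 1 ^ 3 = 0
  c2 : x 2 ^ 3 = 0
  c3 : x 3 ^ 3 = 0
  c4 : x 4 ^ 3 = x 4
  c5 : x 5 ^ 3 = x 5
  c6 : x 6 ^ 3 = 0
  c7 : x 7 ^ 3 = 0

lemma Sys.rels (S : Sys K x) : Rels x := by
  obtain ⟨h10, h20, h21, h30, h31, h32, h45, h40, h41, h42, h43, h50, h51, h52, h53, h60, h61,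
    h62, h63, h70, h71, h72, h73, h46, h47, h56, h57, h81, h90⟩ := sc_rows
  obtain ⟨k0, k1, k2, k3, k4, k5, k6, k7⟩ := cu_val
  constructor
  · have := S.rel h10
    simpa using this
  · have := S.rel h20
    simpa using this
  · have := S.rel h21
    simpa using this
  · have := S.rel h30
    simpa using this
  · have := S.rel h31
    simpa using this
  · have := S.rel h32
    simpa using this
  · have := S.rel h45
    simpa using this
  · have := S.rel h40
    simpa using this
  · have := S.rel h41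
    simpa [← sub_eq_add_neg] using this
  · have := S.rel h42
    simpa using this
  · have := S.rel h43
    simpa using this
  · have := S.rel h50
    simpa using this
  · have := S.rel h51
    simpa using this
  · have := S.rel h52
    simpa using this
  · have := S.rel h53
    simpa using this
  · have := S.rel h60
    simpa using this
  · have := S.rel h61
    simpa [← sub_eq_add_neg] using this
  · have := S.rel h62
    simpa using this
  · have := S.rel h63
    simpa using this
  · have := S.rel h70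
    simpa [← sub_eq_add_neg] using this
  · have := S.rel h71
    simpa using this
  · have := S.rel h72
    simpa using this
  · have := S.rel h73
    simpa using this
  · have := S.rel h46
    simpa [← sub_eq_add_neg] using this
  · have := S.rel h47
    simpa [← sub_eq_add_neg] using this
  · have := S.rel h56
    simpa [← sub_eq_add_neg] using this
  · have := S.rel h57
    simpa using this
  · have := S.rel h81
    rw [this, map_neg, map_one, neg_smul, neg_smul, one_smul, one_smul]
    abel
  · have := S.rel h90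
    rw [this, map_neg, map_one, neg_smul, one_smul, one_smul]
    abel
  · rw [S.cube, k0, map_zero, zero_smul]
  · rw [S.cube, k1, map_zero, zero_smul]
  · rw [S.cube, k2, map_zero, zero_smul]
  · rw [S.cube, k3, map_zero, zero_smul]
  · rw [S.cube, k4, map_one, one_smul]
  · rw [S.cube, k5, map_one, one_smul]
  · rw [S.cube, k6, map_zero, zero_smul]
  · rw [S.cube, k7, map_zero, zero_smul]

/-- the Casimir element -/
noncomputable def Om (K : Type) [Field K] [CharP K 3] {A : Type} [Ring A] [Algebra K A]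
    (x : Fin 10 → A) : A := ∑ a, ∑ b, ph K (om a b) • (x a * x b)

lemma Om_comm (S : Sys K x) (k : Fin 10) : x k * Om K x = Om K x * x k := by
  rw [← sub_eq_zero]
  have e1 : x k * Om K x - Om K x * x k =
      ∑ a, ∑ b, ph K (om a b) • (∑ m, ph K (sc k a m) • (x m * x b) +
        ∑ m, ph K (sc k b m) • (x a * x m)) := by
    unfold Om
    rw [Finset.mul_sum, Finset.sum_mul, ← Finset.sum_sub_distrib]
    refine Finset.sum_congr rfl fun a _ => ?_
    rw [Finset.mul_sum, Finset.sum_mul, ← Finset.sum_sub_distrib]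
    refine Finset.sum_congr rfl fun b _ => ?_
    rw [mul_smul_comm, smul_mul_assoc, ← smul_sub]
    congr 1
    have e2 : ∑ m, ph K (sc k a m) • (x m * x b) = (x k * x a - x a * x k) * x b := by
      rw [S.comm, Finset.sum_mul]
      refine Finset.sum_congr rfl fun m _ => ?_
      rw [smul_mul_assoc]
    have e3 : ∑ m, ph K (sc k b m) • (x a * x m) = x a * (x k * x b - x b * x k) := by
      rw [S.comm, Finset.mul_sum]
      refine Finset.sum_congr rfl fun m _ => ?_
      rw [mul_smul_comm]
    rw [e2, e3]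
    noncomm_ring
  rw [e1]
  have e4 : ∑ a, ∑ b, ph K (om a b) • (∑ m, ph K (sc k a m) • (x m * x b) +
        ∑ m, ph K (sc k b m) • (x a * x m)) =
      (∑ m, ∑ n, ph K (∑ a, om a n * sc k a m) • (x m * x n)) +
        ∑ m, ∑ n, ph K (∑ b, om m b * sc k b n) • (x m * x n) := by
    simp only [smul_add, Finset.sum_add_distrib]
    congr 1
    · have e5 : ∀ m n, ph K (∑ a, om a n * sc k a m) • (x m * x n) =
          ∑ a, ph K (om a n) • (ph K (sc k a m) • (x m * x n)) := by
        intro m n
        rw [map_sum, Finset.sum_smul]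
        refine Finset.sum_congr rfl fun a _ => ?_
        rw [map_mul, mul_smul]
      simp only [e5, Finset.smul_sum]
      rw [Finset.sum_comm, Finset.sum_congr rfl fun b _ => Finset.sum_comm, Finset.sum_comm]
    · have e5 : ∀ m n, ph K (∑ b, om m b * sc k b n) • (x m * x n) =
          ∑ b, ph K (om m b) • (ph K (sc k b n) • (x m * x n)) := by
        intro m n
        rw [map_sum, Finset.sum_smul]
        refine Finset.sum_congr rfl fun a _ => ?_
        rw [map_mul, mul_smul]
      simp only [e5, Finset.smul_sum]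
      refine Finset.sum_congr rfl fun a _ => ?_
      rw [Finset.sum_comm]
  rw [e4, ← Finset.sum_add_distrib]
  refine Finset.sum_eq_zero fun m _ => ?_
  rw [← Finset.sum_add_distrib]
  refine Finset.sum_eq_zero fun n _ => ?_
  rw [← add_smul, ← map_add, ← s10_eq, ← s10_eq, om_inv, map_zero, zero_smul]

lemma row_two {a m n : Fin 10} {c d : ZMod 3} (h : ∀ k, om a k = two m n c d k) :
    ∑ b, ph K (om a b) • (x a * x b) = ph K c • (x a * x m) + ph K d • (x a * x n) :=
  sum_two (fun b => x a * x b) _ m n c d h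

lemma sum_ten (f : Fin 10 → A) :
    ∑ a, f a = f 0 + f 1 + f 2 + f 3 + f 4 + f 5 + f 6 + f 7 + f 8 + f 9 := by
  simp only [Fin.sum_univ_succ, Fin.sum_univ_zero, add_zero, ← add_assoc]
  rfl

lemma Om_red (S : Sys K x) : ∃ y0 y1 y2 y3 : A, Om K x =
    x 5 * x 5 + x 4 * x 5 + x 5 + (x 0 * y0 + x 1 * y1 + x 2 * y2 + x 3 * y3) := by
  have R := S.rels
  obtain ⟨h0, h1, h2, h3, h4, h5, h6, h7, h8, h9⟩ := om_rows
  have h3A : (3 : A) = 0 := by
    have := congrArg (algebraMap K A) (three_eq K)
    rwa [map_ofNat, map_zero] at this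
  refine ⟨-2 * x 9, -2 * x 8, 2 * x 6, 2 * x 7, ?_⟩
  rw [Om, sum_ten, row_two h0, row_two h1, row_two h2, row_two h3, row_two h4, row_two h5,
    row_two h6, row_two h7, row_two h8, row_two h9]
  simp only [map_neg, map_one, map_zero, neg_smul, one_smul, zero_smul, add_zero]
  rw [R.r62, R.r73, R.r81, R.r90, ← R.r45]
  have e : ∀ z : A, z = z + 3 * (x 4 - x 4 * x 5) := by
    intro z
    rw [h3A, zero_mul, add_zero]
  refine Eq.trans ?_ (e _).symm
  noncomm_ring

lemma Om_neg : Om K (fun i => ∑ m, ph K (uu i m) • x m) = - Om K x := by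
  have e1 : ∀ a b, ph K (om a b) • ((∑ m, ph K (uu a m) • x m) * ∑ n, ph K (uu b n) • x n) =
      ∑ m, ∑ n, ph K (uu a m * (om a b * uu b n)) • (x m * x n) := by
    intro a b
    rw [Finset.sum_mul, Finset.smul_sum]
    refine Finset.sum_congr rfl fun m _ => ?_
    rw [Finset.mul_sum, Finset.smul_sum]
    refine Finset.sum_congr rfl fun n _ => ?_
    rw [smul_mul_smul_comm, smul_smul, ← map_mul, ← map_mul]
    congr 2
    ring
  have e2 : Om K (fun i => ∑ m, ph K (uu i m) • x m) =
      ∑ m, ∑ n, ph K (∑ a, uu a m * ∑ b, om a b * uu b n) • (x m * x n) := by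
    unfold Om
    simp only [e1]
    have e3 : ∀ m n, ph K (∑ a, uu a m * ∑ b, om a b * uu b n) • (x m * x n) =
        ∑ a, ∑ b, ph K (uu a m * (om a b * uu b n)) • (x m * x n) := by
      intro m n
      rw [map_sum, Finset.sum_smul]
      refine Finset.sum_congr rfl fun a _ => ?_
      rw [Finset.mul_sum, map_sum, Finset.sum_smul]
    simp only [e3]
    rw [Finset.sum_congr rfl fun a _ => Finset.sum_comm]
    rw [Finset.sum_comm]
    refine Finset.sum_congr rfl fun m _ => ?_
    rw [Finset.sum_congr rfl fun a _ => Finset.sum_comm]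
    rw [Finset.sum_comm]
  rw [e2]
  unfold Om
  rw [← Finset.sum_neg_distrib]
  refine Finset.sum_congr rfl fun m _ => ?_
  rw [← Finset.sum_neg_distrib]
  refine Finset.sum_congr rfl fun n _ => ?_
  rw [← neg_smul, ← map_neg, ← om_neg m n, s10_eq]
  simp only [s10_eq]

end Sys

end Pool.Agent.R720.PIM
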