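import Pool.Agent.R720.PIM.Mod

/-!
# Weights
-/

set_option autoImplicit false
set_option linter.unusedSectionVars false

namespace Pool.Agent.R720.PIM

open Module

attribute [local irreducible] sc uu ww cu tJ tK om

section Pr

variable {K : Type} [Field K] [CharP K 3] {A : Type} [Ring A] [Algebra K A] {x : Fin 10 → A}

lemma ph_cube (t : ZMod 3) : ph K t ^ 3 = ph K t := by
  rw [← map_pow]
  congr 1
  revert t
  decide

lemma pr_pr {s t : K} (ht : t ^ 3 = t) {h : A} (hh : h ^ 3 = h) :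
    pr s h * pr t h = (1 - (t - s) ^ 2) • pr t h := by
  have h1 := mul_pr (three_eq K) ht hh
  rw [← Algebra.smul_def] at h1
  rw [pr_eq, mul_smul_comm, h1, mul_neg, pow_two h, mul_assoc, h1, mul_smul_comm, h1, smul_smul,
    smul_smul, ← neg_smul, ← add_smul, ← add_smul]
  congr 1
  ring

lemma pi2_pi2 (R : Rels x) {s1 s2 t1 t2 : K} (ht1 : t1 ^ 3 = t1) (ht2 : t2 ^ 3 = t2) :
    pi2 x s1 s2 * pi2 x t1 t2 = ((1 - (t1 - s1) ^ 2) * (1 - (t2 - s2) ^ 2)) • pi2 x t1 t2 := by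
  have hc : pr s2 (x 5) * pr t1 (x 4) = pr t1 (x 4) * pr s2 (x 5) := pr_comm R.r45.symm
  unfold pi2
  rw [mul_assoc, ← mul_assoc (pr s2 (x 5)), hc, mul_assoc (pr t1 (x 4)), ← mul_assoc,
    pr_pr ht1 R.c4, pr_pr ht2 R.c5, smul_mul_smul_comm]

lemma pr_sum {h : A} : pr (ph K 0) h + (pr (ph K 1) h + pr (ph K 2) h) = 1 := by
  have h2 : ph K 2 = 2 := by rw [map_ofNat]
  rw [map_zero, map_one, h2]
  have e : ∀ t : K, pr t h = (1 - t ^ 2) • 1 + h * ((2 * t) • 1) + h ^ 2 * (-1) := by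
    intro t
    have := pr_eq t h (1 : A)
    rwa [mul_one] at this
  rw [e 0, e 1, e 2]
  rw [mul_smul_comm, mul_smul_comm, mul_smul_comm, mul_one, mul_neg, mul_one]
  have e2 : ((1 - (0 : K) ^ 2) • (1 : A) + (2 * (0 : K)) • h + -h ^ 2 +
      ((1 - (1 : K) ^ 2) • (1 : A) + (2 * (1 : K)) • h + -h ^ 2 +
      ((1 - (2 : K) ^ 2) • (1 : A) + (2 * (2 : K)) • h + -h ^ 2))) =
      (1 - (3 : K)) • (1 : A) + ((3 : K) * 2) • h + (3 : K) • (-h ^ 2) := by
    module
  rw [e2, three_eq K, sub_zero, one_smul, zero_mul, zero_smul, zero_smul, add_zero, add_zero]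

/-- the weight idempotents -/
noncomputable def pw (K : Type) [Field K] [CharP K 3] {A : Type} [Ring A] [Algebra K A]
    (x : Fin 10 → A) (τ : ZMod 3 × ZMod 3) : A := pi2 x (ph K τ.1) (ph K τ.2)

lemma pw_pw (R : Rels x) (σ τ : ZMod 3 × ZMod 3) :
    pw K x σ * pw K x τ = if σ = τ then pw K x τ else 0 := by
  unfold pw
  rw [pi2_pi2 R (ph_cube _) (ph_cube _)]
  have e : ((1 : K) - (ph K τ.1 - ph K σ.1) ^ 2) * (1 - (ph K τ.2 - ph K σ.2) ^ 2) =
      ph K ((1 - (τ.1 - σ.1) ^ 2) * (1 - (τ.2 - σ.2) ^ 2)) := by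
    simp only [map_mul, map_sub, map_one, map_pow]
  rw [e]
  have e2 : ∀ σ τ : ZMod 3 × ZMod 3,
      (1 - (τ.1 - σ.1) ^ 2) * (1 - (τ.2 - σ.2) ^ 2) = if σ = τ then 1 else 0 := by
    decide
  rw [e2]
  split_ifs
  · rw [map_one, one_smul]
  · rw [map_zero, zero_smul]

lemma pw_idem (R : Rels x) (τ : ZMod 3 × ZMod 3) : pw K x τ * pw K x τ = pw K x τ := by
  rw [pw_pw R, if_pos rfl]

lemma sum_pairs {V : Type} [AddCommMonoid V] (f : ZMod 3 × ZMod 3 → V) :
    ∑ τ, f τ = (f (0, 0) + (f (0, 1) + f (0, 2))) + ((f (1, 0) + (f (1, 1) + f (1, 2))) +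
      (f (2, 0) + (f (2, 1) + f (2, 2)))) := by
  rw [Fintype.sum_prod_type]
  have e : ∀ g : ZMod 3 → V, ∑ i, g i = g 0 + (g 1 + g 2) := by
    intro g
    exact (Fin.sum_univ_three g).trans (add_assoc _ _ _)
  rw [e, e, e, e]

lemma pw_sum (x : Fin 10 → A) : ∑ τ, pw K x τ = 1 := by
  rw [sum_pairs]
  unfold pw pi2
  dsimp only
  rw [← mul_add, ← mul_add, ← mul_add, ← mul_add, ← mul_add, ← mul_add, pr_sum, mul_one, mul_one,
    mul_one, pr_sum]

end Pr

section Wt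

variable {K : Type} [Field K] [CharP K 3] {A : Type} [Ring A] [Algebra K A]
  {M : Type} [AddCommGroup M] [Module K M] [Module A M] [IsScalarTower K A M]
  {x : Fin 10 → A}

/-- the projection to a weight space of the coinvariants -/
noncomputable def prQ (M : Type) [AddCommGroup M] [Module K M] [Module A M] [IsScalarTower K A M]
    (R : Rels x) (τ : ZMod 3 × ZMod 3) :
    (M ⧸ RS K M (fst x 4)) →ₗ[K] (M ⧸ RS K M (fst x 4)) :=
  opR (K := K) M (a := pw K x τ) (stab_pi R _ _)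

lemma prQ_mk (R : Rels x) (τ : ZMod 3 × ZMod 3) (y : M) :
    prQ M R τ ((RS K M (fst x 4)).mkQ y) = (RS K M (fst x 4)).mkQ (pw K x τ • y) := rfl

/-- the multiplicities -/
noncomputable def aa (K : Type) [Field K] [CharP K 3] {A : Type} [Ring A] [Algebra K A]
    (M : Type) [AddCommGroup M] [Module K M] [Module A M] [IsScalarTower K A M]
    {x : Fin 10 → A} (R : Rels x) (τ : ZMod 3 × ZMod 3) : ℕ :=
  finrank K (LinearMap.range (prQ (K := K) M R τ))

variable [Module.Finite K M]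

lemma sum_aa (R : Rels x) :
    finrank K (M ⧸ RS K M (fst x 4)) = ∑ τ, aa K M R τ := by
  refine orth_sum (fun τ => prQ (K := K) M R τ) ?_ ?_
  · intro v
    obtain ⟨y, rfl⟩ := Submodule.mkQ_surjective _ v
    simp only [prQ_mk]
    rw [← map_sum, ← Finset.sum_smul, pw_sum, one_smul]
  · intro σ τ h v
    obtain ⟨y, rfl⟩ := Submodule.mkQ_surjective _ v
    rw [prQ_mk, prQ_mk, ← mul_smul, pw_pw R, if_neg h, zero_smul, map_zero]

end Wt

end Pool.Agent.R720.PIM
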