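import Pool.Agent.R720.PIM.Wt

/-!
# Linkage of weights
-/

set_option autoImplicit false
set_option linter.unusedSectionVars false

namespace Pool.Agent.R720.PIM

open Module

attribute [local irreducible] sc uu ww cu tJ tK om

section Node

variable {K : Type} [Field K] [CharP K 3] {A : Type} [Ring A] [Algebra K A]
  {M : Type} [AddCommGroup M] [Module K M] [Module A M] [IsScalarTower K A M]
  {x : Fin 10 → A}

lemma hcu4 (R : Rels x) : ∀ j : Fin 10, (j : ℕ) < 4 → x j ^ 3 = 0 := by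
  intro j hj
  have : (j : ℕ) = 0 ∨ (j : ℕ) = 1 ∨ (j : ℕ) = 2 ∨ (j : ℕ) = 3 := by omega
  rcases this with h | h | h | h
  · rw [show j = 0 from Fin.ext h, R.c0]
  · rw [show j = 1 from Fin.ext h, R.c1]
  · rw [show j = 2 from Fin.ext h, R.c2]
  · rw [show j = 3 from Fin.ext h, R.c3]

lemma sw_lt : ∀ l : Fin 10, (l : ℕ) < 4 → sw l = l := by decide

lemma fst_sw (x : Fin 10 → A) (j : ℕ) (hj : j ≤ 4) : fst (fun i => x (sw i)) j = fst x j := by
  ext a
  constructor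
  · rintro ⟨l, hl, rfl⟩
    refine ⟨l, hl, ?_⟩
    change x (sw l) = x l
    rw [sw_lt l (by omega)]
  · rintro ⟨l, hl, rfl⟩
    refine ⟨l, hl, ?_⟩
    change x l = x (sw l)
    rw [sw_lt l (by omega)]

lemma ph_sub_two (t : ZMod 3) : ph K t + ((2 : ℕ) : K) * (-1) = ph K (t + 1) := by
  rw [map_add, map_one]
  have := three_eq K
  push_cast
  linear_combination -this

lemma ph_add_sub (t : ZMod 3) : ph K (t + 1) + ((1 : ℕ) : K) * (-1) = ph K t := by
  rw [map_add, map_one]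
  push_cast
  ring

lemma e2_pw (R : Rels x) (t1 t2 : ZMod 3) :
    x 6 ^ 2 * pw K x (t1, t2) = pw K x (t1 + 1, t2 + 1) * x 6 ^ 2 := by
  unfold pw
  rw [e_pow_pi2 (wt6 R).1 (wt6 R).2, ph_sub_two, ph_sub_two]

lemma e1_pw (R : Rels x) (t1 t2 : ZMod 3) :
    x 6 ^ 1 * pw K x (t1 + 1, t2 + 1) = pw K x (t1, t2) * x 6 ^ 1 := by
  unfold pw
  rw [e_pow_pi2 (wt6 R).1 (wt6 R).2, ph_add_sub, ph_add_sub]

lemma f2_pw (R : Rels x) (t1 : ZMod 3) :
    x 7 ^ 2 * pw K x (t1, 0) = pw K x (t1 + 1, 0) * x 7 ^ 2 := by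
  have h := e_pow_pi2 (K := K) (x := fun i => x (sw i)) (wt7 R).1 (wt7 R).2 2 (ph K t1) (ph K 0)
  rw [ph_sub_two, mul_zero, add_zero] at h
  exact h

lemma f1_pw (R : Rels x) (t1 : ZMod 3) :
    x 7 ^ 1 * pw K x (t1 + 1, 0) = pw K x (t1, 0) * x 7 ^ 1 := by
  have h := e_pow_pi2 (K := K) (x := fun i => x (sw i)) (wt7 R).1 (wt7 R).2 1 (ph K (t1 + 1))
    (ph K 0)
  rw [ph_add_sub, mul_zero, add_zero] at h
  exact h

variable [Module.Finite K M]

theorem node1 (S : Sys K x) (hM : Module.Projective A M) (t2 : ZMod 3) :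
    aa K M S.rels (0, t2) = aa K M S.rels (1, t2 + 1) := by
  have R := S.rels
  obtain ⟨B, hB⟩ := S.pbw
  have hd : Dec x B 4 := (dec_all hB (fun j hj => stab_chain R j hj) (hcu4 R) 3 (by omega)).2.1
  have hN : ∀ b ∈ fst x 4, x 6 ^ 2 * pw K x (0, t2) * b ∈ RS K A (fst x 4) := by
    unfold pw
    dsimp only
    rw [map_zero]
    exact stab_N1 R
  have hN' : ∀ b ∈ fst x 4, x 6 ^ 1 * pw K x (1, t2 + 1) * b ∈ RS K A (fst x 4) := by
    unfold pw
    dsimp only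
    rw [map_one]
    exact stab_N1' R
  have hc := e2_pw (K := K) R 0 t2
  have hc' := e1_pw (K := K) R 0 t2
  rw [zero_add] at hc hc'
  refine node_dim (e := x 6) (k := 2) (k' := 1) (R.c6) (pw_idem R _) (pw_idem R _) hc hc'
    _ _ hN hN' ?_ ?_
  · exact (E_lemma hB (three_eq K) (ph_cube _) (ph_cube _) R.c4 R.c5 R.r45 R.c6 (wt6 R).1 (wt6 R).2
      (Or.inr ⟨rfl, rfl⟩) hd (stab_of (stab_pi R _ _)) (stab_of hN)).proj hM
  · exact (E_lemma hB (three_eq K) (ph_cube _) (ph_cube _) R.c4 R.c5 R.r45 R.c6 (wt6 R).1 (wt6 R).2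
      (Or.inl ⟨rfl, rfl⟩) hd (stab_of (stab_pi R _ _)) (stab_of hN')).proj hM

theorem node2 (S : Sys K x) (hM : Module.Projective A M) (t1 : ZMod 3) :
    aa K M S.rels (t1, 0) = aa K M S.rels (t1 + 1, 0) := by
  have R := S.rels
  obtain ⟨B, hB⟩ := S.pbw'
  have hfs : fst (fun i => x (sw i)) 4 = fst x 4 := fst_sw x 4 le_rfl
  have hd : Dec (fun i => x (sw i)) B 4 := by
    refine (dec_all hB (fun j hj => ?_) (fun j hj => ?_) 3 (by omega)).2.1
    · rw [fst_sw x j (by omega), sw_lt j hj]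
      exact stab_chain R j hj
    · rw [sw_lt j hj]
      exact hcu4 R j hj
  have hN : ∀ b ∈ fst x 4, x 7 ^ 2 * pw K x (t1, 0) * b ∈ RS K A (fst x 4) := by
    unfold pw
    dsimp only
    rw [map_zero]
    exact stab_N2 R
  have hN' : ∀ b ∈ fst x 4, x 7 ^ 1 * pw K x (t1 + 1, 0) * b ∈ RS K A (fst x 4) := by
    unfold pw
    dsimp only
    rw [map_zero]
    exact stab_N2' R
  refine node_dim (e := x 7) (k := 2) (k' := 1) (R.c7) (pw_idem R _) (pw_idem R _) (f2_pw R t1)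
    (f1_pw R t1) _ _ hN hN' ?_ ?_
  · have h := E_lemma hB (three_eq K) (t1 := ph K t1) (t2 := ph K 0) (ph_cube _) (ph_cube _)
      R.c4 R.c5 R.r45 R.c7 (wt7 R).1 (wt7 R).2 (Or.inr ⟨rfl, rfl⟩) hd
      (by rw [hfs]; exact stab_of (stab_pi R _ _)) (by rw [hfs]; exact stab_of hN)
    rw [hfs] at h
    exact h.proj hM
  · have h := E_lemma hB (three_eq K) (t1 := ph K (t1 + 1)) (t2 := ph K 0) (ph_cube _) (ph_cube _)
      R.c4 R.c5 R.r45 R.c7 (wt7 R).1 (wt7 R).2 (Or.inl ⟨rfl, rfl⟩) hd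
      (by rw [hfs]; exact stab_of (stab_pi R _ _)) (by rw [hfs]; exact stab_of hN')
    rw [hfs] at h
    exact h.proj hM

end Node

end Pool.Agent.R720.PIM
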